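import Pool.Agent.H65.ST.Def

/-!
# ACT: the linear action of the group on the layer

## Proof
`T g` is the matrix with entries `T g i j = φ (g * f j * g⁻¹) i`.
* For `h ∈ H`: `φ (g * h * g⁻¹) i = ∑ j, φ h j * φ (g * f j * g⁻¹) i` by `univ` applied to
  `χ h = φ (g * h * g⁻¹) i`: this is a homomorphism on `H` (`H` is normal), and it is bounded on
  bounded sets because `len (g * h * g⁻¹) ≤ len h + 2 * len g` and `bdd`. This says
  `φ (g * h * g⁻¹) = (T g).mulVec (φ h)`.
* `T 1 = 1` by `single`. `T (g * g') i j = φ (g * (g' * f j * g'⁻¹) * g⁻¹) i`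
  `= ∑ k, φ (g' * f j * g'⁻¹) k * T g i k = (T g * T g') i j`.
* Boundedness: for `len g ≤ R` the elements `g * f j * g⁻¹` have length at most
  `2 * R + max over j of len (f j)`, so their `φ` is bounded by `bdd`, and `|φ x i| ≤ ‖φ x‖`.
-/

set_option autoImplicit false

namespace Pool.Agent.H65.ST

theorem exists_action {G : Type*} [Group G] (L : Len G) (H : Subgroup G) (hN : H.Normal) {r : ℕ}
    (f : Fin r → G) (φ : G → Fin r → ℝ) (hL : Layer L H f φ) :
    ∃ T : G →* Matrix (Fin r) (Fin r) ℝ,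
      (∀ (g : G), ∀ h ∈ H, φ (g * h * g⁻¹) = (T g).mulVec (φ h)) ∧
      ∀ R : ℝ, ∃ C : ℝ, ∀ g : G, L.len g ≤ R → ∀ i j, |T g i j| ≤ C := by
  classical
  have hmain : ∀ (g : G), ∀ h ∈ H, ∀ i, φ (g * h * g⁻¹) i =
      ∑ j, φ h j * φ (g * f j * g⁻¹) i := by
    intro g h hh i
    refine hL.univ (fun h => φ (g * h * g⁻¹) i) ?_ ?_ h hh
    · intro a ha b hb
      have h1 : g * (a * b) * g⁻¹ = (g * a * g⁻¹) * (g * b * g⁻¹) := by group
      simp only [h1]
      rw [hL.hom _ (hN.conj_mem a ha g) _ (hN.conj_mem b hb g)]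
      rfl
    · intro R
      obtain ⟨C, hC⟩ := hL.bdd (L.len g + R + L.len g)
      refine ⟨C, fun a ha hlen => ?_⟩
      have h1 : L.len (g * a * g⁻¹) ≤ L.len g + R + L.len g := by
        have h2 := L.mul (g * a) g⁻¹
        have h3 := L.mul g a
        rw [L.inv] at h2
        linarith
      have h4 := hC _ (hN.conj_mem a ha g) h1
      exact (norm_le_pi_norm (φ (g * a * g⁻¹)) i).trans h4
  let T : G →* Matrix (Fin r) (Fin r) ℝ :=
    { toFun := fun g => Matrix.of (fun i j => φ (g * f j * g⁻¹) i)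
      map_one' := by
        ext i j
        simp only [Matrix.of_apply, one_mul, inv_one, mul_one, hL.single, Matrix.one_apply]
        by_cases hij : i = j
        · subst hij; simp
        · simp [hij]
      map_mul' := by
        intro g g'
        ext i j
        simp only [Matrix.of_apply, Matrix.mul_apply]
        have h1 : g * g' * f j * (g * g')⁻¹ = g * (g' * f j * g'⁻¹) * g⁻¹ := by group
        rw [h1, hmain g _ (hN.conj_mem _ (hL.mem j) g') i]
        apply Finset.sum_congr rfl
        intro k _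
        ring }
  refine ⟨T, ?_, ?_⟩
  · intro g h hh
    funext i
    rw [hmain g h hh i]
    simp only [Matrix.mulVec, dotProduct]
    apply Finset.sum_congr rfl
    intro j _
    change φ h j * φ (g * f j * g⁻¹) i = φ (g * f j * g⁻¹) i * φ h j
    ring
  · intro R
    obtain ⟨C, hC⟩ := hL.bdd (R + (∑ j, |L.len (f j)|) + R)
    refine ⟨C, fun g hg i j => ?_⟩
    have h1 : L.len (g * f j * g⁻¹) ≤ R + (∑ j, |L.len (f j)|) + R := by
      have h2 := L.mul (g * f j) g⁻¹
      have h3 := L.mul g (f j)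
      have h4 : L.len (f j) ≤ ∑ j, |L.len (f j)| :=
        (le_abs_self _).trans (Finset.single_le_sum (f := fun j => |L.len (f j)|)
          (fun i _ => abs_nonneg _) (Finset.mem_univ j))
      rw [L.inv] at h2
      linarith
    have h4 := hC _ (hN.conj_mem _ (hL.mem j) g) h1
    exact (norm_le_pi_norm (φ (g * f j * g⁻¹)) i).trans h4

end Pool.Agent.H65.ST
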