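import Mathlib

/-!
# BUR: Burnside's theorem on irreducible algebras of matrices

## Proof
If `V` is trivial (subsingleton) then `Module.End ℂ V` is a subsingleton and `A = ⊤`. Otherwise `V`
is a module over the ring `A` (`a • v = (a : Module.End ℂ V) v`; `Subalgebra` acts through
`Module.End`), simple by `hirr` (an `A`-submodule is a `ℂ`-submodule because `A` contains the
scalars). By Schur's lemma
(`IsSimpleModule.algebraMap_end_bijective_of_isAlgClosed` in
`Mathlib/RepresentationTheory/AlgebraRepresentation/Basic.lean`) every `A`-linear endomorphism of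
`V` is a scalar, so every `ℂ`-linear `f : V → V` is linear over `Module.End A V`. By the Jacobson
density theorem (`jacobson_density`, `Mathlib/RingTheory/SimpleModule/Basic.lean`; apply it to the
finite set of a basis of `V` over `ℂ`) there is `a ∈ A` which agrees with `f` on a basis. So
`f ∈ A`.
-/

set_option autoImplicit false

namespace Pool.Agent.H65.ST

theorem burnside {V : Type*} [AddCommGroup V] [Module ℂ V] [FiniteDimensional ℂ V]
    (A : Subalgebra ℂ (Module.End ℂ V))
    (hirr : ∀ W : Submodule ℂ V, (∀ a ∈ A, ∀ v ∈ W, a v ∈ W) → W = ⊥ ∨ W = ⊤) :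
    A = ⊤ := by
  classical
  rcases subsingleton_or_nontrivial V with hV | hV
  · rw [eq_top_iff]
    intro x _
    have hx : x = 0 := LinearMap.ext fun v => Subsingleton.elim _ _
    rw [hx]
    exact A.zero_mem
  have hsc : ∀ (a : A) (v : V), a • v = (a : Module.End ℂ V) v := fun a v => rfl
  haveI : IsScalarTower ℂ A V := ⟨fun c a v => by
    rw [hsc, hsc]; rfl⟩
  haveI hsimple : IsSimpleModule A V := by
    rw [isSimpleModule_iff]
    haveI : Nontrivial (Submodule A V) := inferInstance
    refine ⟨fun N => ?_⟩
    have h := hirr (N.restrictScalars ℂ) (fun a ha v hv => by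
      have := N.smul_mem (⟨a, ha⟩ : A) (show v ∈ N from hv)
      exact this)
    rcases h with h | h
    · left
      rw [Submodule.eq_bot_iff]
      intro v hv
      have : v ∈ N.restrictScalars ℂ := hv
      rw [h] at this
      exact (Submodule.mem_bot ℂ).1 this
    · right
      rw [Submodule.eq_top_iff']
      intro v
      have : v ∈ N.restrictScalars ℂ := by rw [h]; trivial
      exact this
  rw [eq_top_iff]
  intro f _
  have hschur := IsSimpleModule.algebraMap_end_bijective_of_isAlgClosed (A := A) (V := V) ℂ
  let f' : Module.End (Module.End A V) V :=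
    { toFun := f
      map_add' := f.map_add
      map_smul' := fun g v => by
        obtain ⟨c, hc⟩ := hschur.2 g
        have h1 : ∀ w : V, g • w = c • w := by
          intro w
          rw [← hc]
          rfl
        simp only [RingHom.id_apply]
        rw [h1, h1, map_smul] }
  obtain ⟨s, hs⟩ := (Module.Finite.fg_top : (⊤ : Submodule ℂ V).FG)
  obtain ⟨a, ha⟩ := jacobson_density (R := A) f' s
  have : f = (a : Module.End ℂ V) := by
    apply LinearMap.ext_on hs
    intro m hm
    exact ha m hm
  rw [this]
  exact a.2

end Pool.Agent.H65.ST
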