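import Pool.Agent.H65.ST.Def

/-!
# CBS: growth of `G / H` and of `G / P` for `P` cobounded in `H`; monotonicity

## Proof
`grLe_mono`: clear, the same `F` and `R`.

`grLe_of_cobounded`: the same `F`, with `R + R'` instead of `R`. If `f⁻¹ * (ν * g) = u` has length
`≤ R`, `ν ∈ H`, then `g = ν⁻¹ * f * u`, and `f⁻¹ * ν⁻¹ * f ∈ H` is of the form `p * b` with `p ∈ P`,
`len b ≤ R'` (`hcob`, `b = p⁻¹ * (f⁻¹ * ν⁻¹ * f)`). So `g = f * p * b * u = (f * p * f⁻¹) * f * b * u`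
and with `ν' = (f * p * f⁻¹)⁻¹ ∈ P` we get `f⁻¹ * (ν' * g) = b * u`, of length `≤ R' + R`.
-/

set_option autoImplicit false

namespace Pool.Agent.H65.ST

theorem grLe_mono {G : Type*} [Group G] (L : Len G) (lam : ℝ) (H P : Subgroup G) (hHP : H ≤ P)
    (hS : GrLe L lam H) : GrLe L lam P := by
  intro ε hε
  obtain ⟨R, C, h⟩ := hS ε hε
  refine ⟨R, C, fun n => ?_⟩
  obtain ⟨F, hF, h2⟩ := h n
  refine ⟨F, hF, fun g hg => ?_⟩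
  obtain ⟨f, hf, ν, hν, h3⟩ := h2 g hg
  exact ⟨f, hf, ν, hHP hν, h3⟩

theorem grLe_of_cobounded {G : Type*} [Group G] (L : Len G) (lam : ℝ) (H P : Subgroup G)
    (hN : H.Normal)
    (hPN : P.Normal) (R' : ℝ) (hcob : ∀ h ∈ H, ∃ p ∈ P, L.len (p⁻¹ * h) ≤ R')
    (hS : GrLe L lam H) : GrLe L lam P := by
  intro ε hε
  obtain ⟨R, C, h⟩ := hS ε hε
  refine ⟨R' + R, C, fun n => ?_⟩
  obtain ⟨F, hF, h2⟩ := h n
  refine ⟨F, hF, fun g hg => ?_⟩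
  obtain ⟨f, hf, ν, hν, h3⟩ := h2 g hg
  have h4 : f⁻¹ * ν⁻¹ * f ∈ H := by
    have := hN.conj_mem ν⁻¹ (H.inv_mem hν) f⁻¹
    rwa [inv_inv] at this
  obtain ⟨p, hp, h5⟩ := hcob _ h4
  refine ⟨f, hf, (f * p * f⁻¹)⁻¹, P.inv_mem (hPN.conj_mem p hp f), ?_⟩
  have h6 : f⁻¹ * ((f * p * f⁻¹)⁻¹ * g) = (p⁻¹ * (f⁻¹ * ν⁻¹ * f)) * (f⁻¹ * (ν * g)) := by
    group
  rw [h6]
  exact (L.mul _ _).trans (add_le_add h5 h3)

end Pool.Agent.H65.ST
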