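import Pool.Agent.H65.ST.Def

/-!
# FAC: subgroups between `⁅H, H⁆` and `H` are boundedly generated

## Proof
Let `V` be the real span of the set `φ '' P` in `Fin r → ℝ` (finite dimensional). It is spanned by
finitely many elements of `φ '' P`; choose a basis of `V` consisting of elements `φ (b i)`,
`b i ∈ P`, `i : Fin s` (`exists_linearIndependent`, `Submodule.exists_fun_fin_finrank_span_eq...`,
`Basis.ofSpan`, or any finite spanning family: linear independence is not needed). Put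
`C = ∑ i, ‖φ (b i)‖`. Let `p ∈ P`. Then `φ p = ∑ i, c i • φ (b i)` with real `c i`. Put
`p' = (b 0 ^ ⌊c 0⌋ * … * b (s-1) ^ ⌊c (s-1)⌋)⁻¹ * p ∈ P` (product of a list). So
`φ p' = ∑ i, (c i - ⌊c i⌋) • φ (b i)`, `‖φ p'‖ ≤ C`. By `prp C` there is (with `R` depending only
on `C`) `η ∈ ⁅H, H⁆` with `len (η⁻¹ * p') ≤ R`, and `η⁻¹ * p' ∈ P`. So `P` is generated by the `b i`,
by the elements of `P` of length `≤ R` and by `⁅H, H⁆`, which is generated by elements of `⁅H, H⁆ ≤ P`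
of bounded length (`hD`).
-/

set_option autoImplicit false

namespace Pool.Agent.H65.ST

/-- the homomorphism of `H` given by a layer -/
noncomputable def facHom {G : Type*} [Group G] (H : Subgroup G) {r : ℕ}
    (φ : G → Fin r → ℝ) (hom : ∀ g ∈ H, ∀ h ∈ H, φ (g * h) = φ g + φ h) :
    H →* Multiplicative (Fin r → ℝ) where
  toFun h := Multiplicative.ofAdd (φ h)
  map_one' := by
    have h := hom 1 H.one_mem 1 H.one_mem
    rw [mul_one] at h
    have h2 : φ 1 = 0 := by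
      have := congrArg (fun x => x - φ 1) h
      simpa using this.symm
    show Multiplicative.ofAdd (φ ((1 : H) : G)) = 1
    rw [H.coe_one, h2]
    rfl
  map_mul' a b := by
    show Multiplicative.ofAdd (φ ((a * b : H) : G)) = _
    rw [H.coe_mul, hom _ a.2 _ b.2]
    rfl

theorem fac_zpow {G : Type*} [Group G] (H : Subgroup G) {r : ℕ}
    (φ : G → Fin r → ℝ) (hom : ∀ g ∈ H, ∀ h ∈ H, φ (g * h) = φ g + φ h) (g : G) (hg : g ∈ H)
    (n : ℤ) : φ (g ^ n) = n • φ g := by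
  have h := map_zpow (facHom H φ hom) ⟨g, hg⟩ n
  exact congrArg Multiplicative.toAdd h

theorem fac_inv {G : Type*} [Group G] (H : Subgroup G) {r : ℕ}
    (φ : G → Fin r → ℝ) (hom : ∀ g ∈ H, ∀ h ∈ H, φ (g * h) = φ g + φ h) (g : G) (hg : g ∈ H) :
    φ (g⁻¹) = - φ g := by
  have h := map_inv (facHom H φ hom) ⟨g, hg⟩
  exact congrArg Multiplicative.toAdd h

theorem fac_list {G : Type*} [Group G] (H : Subgroup G) {r : ℕ}
    (φ : G → Fin r → ℝ) (hom : ∀ g ∈ H, ∀ h ∈ H, φ (g * h) = φ g + φ h) (l : List G)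
    (hl : ∀ g ∈ l, g ∈ H) :
    φ l.prod = (l.map φ).sum := by
  induction l with
  | nil =>
    have h := map_one (facHom H φ hom)
    exact congrArg Multiplicative.toAdd h
  | cons a l ih =>
    rw [List.prod_cons, List.map_cons, List.sum_cons, hom a (hl a (by simp)) l.prod
      (H.list_prod_mem fun g hg => hl g (by simp [hg])), ih fun g hg => hl g (by simp [hg])]

theorem bg_between {G : Type*} [Group G] (L : Len G) (H : Subgroup G) {r : ℕ} (f : Fin r → G)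
    (φ : G → Fin r → ℝ) (hL : Layer L H f φ) (hD : BG L ⁅H, H⁆) (P : Subgroup G)
    (hP1 : ⁅H, H⁆ ≤ P) (hP2 : P ≤ H) : BG L P := by
  classical
  obtain ⟨R1, hR1⟩ := hD
  have hfg : (Submodule.span ℝ (φ '' (P : Set G))).FG := IsNoetherian.noetherian _
  obtain ⟨s, hs1, hs2⟩ := (Submodule.fg_span_iff_fg_span_finset_subset _).1 hfg
  have hch : ∀ v : Fin r → ℝ, ∃ g : G, v ∈ s → g ∈ P ∧ φ g = v := by
    intro v
    by_cases hv : v ∈ s
    · obtain ⟨g, hg, h⟩ := hs1 hv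
      exact ⟨g, fun _ => ⟨hg, h⟩⟩
    · exact ⟨1, fun h => absurd h hv⟩
  choose b hb using hch
  obtain ⟨R2, hR2⟩ := hL.prp (∑ v ∈ s, ‖v‖)
  obtain ⟨R3, hR3⟩ : ∃ R3 : ℝ, ∀ v ∈ s, L.len (b v) ≤ R3 := by
    obtain ⟨M, hM⟩ := (s.image fun v => L.len (b v)).bddAbove
    exact ⟨M, fun v hv => hM (Finset.mem_coe.2 (Finset.mem_image_of_mem _ hv))⟩
  refine ⟨max R1 (max R2 R3), ?_⟩
  obtain ⟨K, hK⟩ : ∃ K : Subgroup G, K = Subgroup.closure
    {h : G | h ∈ P ∧ L.len h ≤ max R1 (max R2 R3)} := ⟨_, rfl⟩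
  rw [← hK]
  have hD' : ⁅H, H⁆ ≤ K := by
    refine hR1.trans ?_
    rw [hK]
    exact Subgroup.closure_mono fun h hh => ⟨hP1 hh.1, hh.2.trans (le_max_left _ _)⟩
  have hb' : ∀ v ∈ s, b v ∈ K := by
    intro v hv
    rw [hK]
    exact Subgroup.subset_closure ⟨(hb v hv).1, (hR3 v hv).trans
      ((le_max_right _ _).trans (le_max_right _ _))⟩
  intro p hp
  have hp1 : φ p ∈ Submodule.span ℝ (s : Set (Fin r → ℝ)) := by
    rw [← hs2]
    exact Submodule.subset_span ⟨p, hp, rfl⟩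
  obtain ⟨c, -, hc⟩ := Submodule.mem_span_finset.1 hp1
  obtain ⟨l, hl⟩ : ∃ l : List G, l = s.toList.map fun v => b v ^ ⌊c v⌋ := ⟨_, rfl⟩
  have hlP : ∀ g ∈ l, g ∈ P ∧ g ∈ K := by
    intro g hg
    rw [hl, List.mem_map] at hg
    obtain ⟨v, hv, rfl⟩ := hg
    have hv' : v ∈ s := Finset.mem_toList.1 hv
    exact ⟨P.zpow_mem (hb v hv').1 _, K.zpow_mem (hb' v hv') _⟩
  have hlprod : l.prod ∈ P := P.list_prod_mem fun g hg => (hlP g hg).1
  have hlprodK : l.prod ∈ K := K.list_prod_mem fun g hg => (hlP g hg).2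
  have hφl : φ l.prod = ∑ v ∈ s, (⌊c v⌋ : ℝ) • v := by
    rw [fac_list H φ hL.hom l fun g hg => hP2 (hlP g hg).1, hl, List.map_map,
      ← Finset.sum_map_toList]
    congr 1
    apply List.map_congr_left
    intro v hv
    have hv' : v ∈ s := Finset.mem_toList.1 hv
    show φ (b v ^ ⌊c v⌋) = _
    rw [fac_zpow H φ hL.hom _ (hP2 (hb v hv').1), (hb v hv').2]
    exact (Int.cast_smul_eq_zsmul ℝ _ _).symm
  have hφ : φ (l.prod⁻¹ * p) = ∑ v ∈ s, (c v - ⌊c v⌋) • v := by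
    rw [hL.hom _ (H.inv_mem (hP2 hlprod)) _ (hP2 hp), fac_inv H φ hL.hom _ (hP2 hlprod), hφl, ← hc,
      ← Finset.sum_neg_distrib, ← Finset.sum_add_distrib]
    refine Finset.sum_congr rfl fun v _ => ?_
    rw [sub_smul]
    abel
  have hnorm : ‖φ (l.prod⁻¹ * p)‖ ≤ ∑ v ∈ s, ‖v‖ := by
    rw [hφ]
    refine (norm_sum_le _ _).trans (Finset.sum_le_sum fun v _ => ?_)
    rw [norm_smul, Real.norm_eq_abs, Int.self_sub_floor, abs_of_nonneg (Int.fract_nonneg _)]
    have := (Int.fract_lt_one (c v)).le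
    nlinarith [norm_nonneg v]
  obtain ⟨η, hη, h5⟩ := hR2 _ (H.mul_mem (H.inv_mem (hP2 hlprod)) (hP2 hp)) hnorm
  have h6 : η⁻¹ * (l.prod⁻¹ * p) ∈ K := by
    rw [hK]
    exact Subgroup.subset_closure ⟨P.mul_mem (P.inv_mem (hP1 hη)) (P.mul_mem (P.inv_mem hlprod) hp),
      h5.trans ((le_max_left _ _).trans (le_max_right _ _))⟩
  have h7 : p = l.prod * (η * (η⁻¹ * (l.prod⁻¹ * p))) := by group
  rw [h7]
  exact K.mul_mem hlprodK (K.mul_mem (hD' hη) h6)

end Pool.Agent.H65.ST
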