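import Pool.Agent.H65.ST.Def
import Pool.Agent.H65.ST.Fac

/-!
# COD: coding a product of blocks by a word in a finite set

`F` represents all elements of length at most `R + B` modulo `H` on the left and modulo elements of
length `≤ R` on the right. `Θ` bounds the action of the inverses of words in `F`, `c₀` bounds `φ` on
the correcting elements.

## Proof
Induction on the list of blocks, appending a block on the right (`List.reverseRecOn`), of the
statement: for `gs` there are `es` (of the same length, in `F`), `h ∈ H` and `u` with `len u ≤ R`,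
`gs.prod = es.prod * h * u`, and for every list `es₂` in `F`

  `‖φ (es₂.prod⁻¹ * h * es₂.prod)‖ ≤ es.length * (Θ (es.length + es₂.length) * c₀)`.

Start: `gs = []`, `es = []`, `h = 1`, `u = 1` (`len 1 = 0 ≤ R`; `φ 1 = 0` from `hom`).
Step: append `g` with `len g ≤ B`. Then `len (u * g) ≤ R + B`, so there are `e ∈ F`, `ν ∈ H` with
`len (e⁻¹ * (ν * (u * g))) ≤ R` and `‖φ ν‖ ≤ c₀` (`hF`). Put `u' = e⁻¹ * (ν * (u * g))`, so
`u * g = ν⁻¹ * e * u'` and
`gs.prod * g = es.prod * h * ν⁻¹ * e * u' = (es.prod * e) * (e⁻¹ * (h * ν⁻¹) * e) * u'`.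
Put `h' = e⁻¹ * (h * ν⁻¹) * e ∈ H`. For a list `es₂`:
`es₂.prod⁻¹ * h' * es₂.prod = (e :: es₂).prod⁻¹ * h * (e :: es₂).prod *`
`((e :: es₂).prod⁻¹ * ν⁻¹ * (e :: es₂).prod)`, and `φ` of the two factors is bounded by
`es.length * (Θ (es.length + es₂.length + 1) * c₀)` (induction, list `e :: es₂`) and by
`Θ (es₂.length + 1) * c₀` (`hΘ` for the list `e :: es₂` and `ν⁻¹`; `‖φ ν⁻¹‖ = ‖φ ν‖`). By
monotonicity of `Θ` the sum is at most
`(es.length + 1) * (Θ (es.length + 1 + es₂.length) * c₀)`.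
The statement to be proved is the case `es₂ = []`.
-/

set_option autoImplicit false

namespace Pool.Agent.H65.ST

theorem coding {G : Type*} [Group G] (L : Len G) (H : Subgroup G) (hN : H.Normal) {r : ℕ}
    (φ : G → Fin r → ℝ) (hom : ∀ g ∈ H, ∀ h ∈ H, φ (g * h) = φ g + φ h)
    (F : Finset G) (R B c₀ : ℝ) (hR : 0 ≤ R) (hc₀ : 0 ≤ c₀)
    (hF : ∀ g : G, L.len g ≤ R + B → ∃ e ∈ F, ∃ ν ∈ H, L.len (e⁻¹ * (ν * g)) ≤ R ∧ ‖φ ν‖ ≤ c₀)
    (Θ : ℕ → ℝ) (hmono : Monotone Θ)
    (hΘ : ∀ es : List G, (∀ e ∈ es, e ∈ F) → ∀ h ∈ H,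
      ‖φ (es.prod⁻¹ * h * es.prod)‖ ≤ Θ es.length * ‖φ h‖) (hΘ0 : ∀ n, 0 ≤ Θ n)
    (gs : List G) (hgs : ∀ g ∈ gs, L.len g ≤ B) :
    ∃ es : List G, es.length = gs.length ∧ (∀ e ∈ es, e ∈ F) ∧ ∃ h ∈ H, ∃ u : G, L.len u ≤ R ∧
      gs.prod = es.prod * h * u ∧ ‖φ h‖ ≤ gs.length * (Θ gs.length * c₀) := by
  have hφ1 : φ 1 = 0 := fac_list H φ hom [] (by simp)
  have key : ∀ gs : List G, (∀ g ∈ gs, L.len g ≤ B) → ∃ es : List G, es.length = gs.length ∧
      (∀ e ∈ es, e ∈ F) ∧ ∃ h ∈ H, ∃ u : G, L.len u ≤ R ∧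
      gs.prod = es.prod * h * u ∧ ∀ es₂ : List G, (∀ e ∈ es₂, e ∈ F) →
        ‖φ (es₂.prod⁻¹ * h * es₂.prod)‖ ≤ gs.length * (Θ (gs.length + es₂.length) * c₀) := by
    intro gs
    induction gs using List.reverseRecOn with
    | nil =>
      intro _
      refine ⟨[], rfl, by simp, 1, H.one_mem, 1, by rw [L.one]; exact hR, by simp, ?_⟩
      intro es₂ _
      have h1 : es₂.prod⁻¹ * 1 * es₂.prod = 1 := by group
      rw [h1, hφ1, norm_zero]
      simp
    | append_singleton gs g ih =>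
      intro hgs'
      obtain ⟨es, hlen, hes, h, hh, u, hu, hprod, hbd⟩ := ih fun x hx => hgs' x (by simp [hx])
      have hg : L.len g ≤ B := hgs' g (by simp)
      obtain ⟨e, he, ν, hν, h1, h2⟩ := hF (u * g) ((L.mul _ _).trans (add_le_add hu hg))
      refine ⟨es ++ [e], by simp [hlen], ?_, e⁻¹ * (h * ν⁻¹) * e, ?_, e⁻¹ * (ν * (u * g)), h1,
        ?_, ?_⟩
      · intro x hx
        rw [List.mem_append, List.mem_singleton] at hx
        rcases hx with hx | hx
        · exact hes x hx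
        · rw [hx]
          exact he
      · have h3 := hN.conj_mem (h * ν⁻¹) (H.mul_mem hh (H.inv_mem hν)) e⁻¹
        rwa [inv_inv] at h3
      · rw [List.prod_append, List.prod_singleton, List.prod_append, List.prod_singleton, hprod]
        group
      · intro es₂ hes₂
        have hcons : ∀ x ∈ e :: es₂, x ∈ F := by
          intro x hx
          rw [List.mem_cons] at hx
          rcases hx with hx | hx
          · rw [hx]
            exact he
          · exact hes₂ x hx
        have h3 := hbd (e :: es₂) hcons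
        have h4 := hΘ (e :: es₂) hcons ν⁻¹ (H.inv_mem hν)
        have h5 : es₂.prod⁻¹ * (e⁻¹ * (h * ν⁻¹) * e) * es₂.prod =
            ((e :: es₂).prod⁻¹ * h * (e :: es₂).prod) *
              ((e :: es₂).prod⁻¹ * ν⁻¹ * (e :: es₂).prod) := by
          rw [List.prod_cons]
          group
        have hm1 : (e :: es₂).prod⁻¹ * h * (e :: es₂).prod ∈ H := by
          have h6 := hN.conj_mem h hh (e :: es₂).prod⁻¹
          rwa [inv_inv] at h6
        have hm2 : (e :: es₂).prod⁻¹ * ν⁻¹ * (e :: es₂).prod ∈ H := by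
          have h6 := hN.conj_mem ν⁻¹ (H.inv_mem hν) (e :: es₂).prod⁻¹
          rwa [inv_inv] at h6
        rw [h5, hom _ hm1 _ hm2]
        refine (norm_add_le _ _).trans ?_
        rw [fac_inv H φ hom ν hν, norm_neg] at h4
        rw [List.length_cons] at h3 h4
        rw [List.length_append, List.length_singleton]
        have h6 : gs.length + (es₂.length + 1) = gs.length + 1 + es₂.length := by ring
        rw [h6] at h3
        have h7 : Θ (es₂.length + 1) ≤ Θ (gs.length + 1 + es₂.length) := hmono (by omega)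
        have h8 : Θ (es₂.length + 1) * ‖φ ν‖ ≤ Θ (gs.length + 1 + es₂.length) * c₀ :=
          mul_le_mul h7 h2 (norm_nonneg _) (hΘ0 _)
        push_cast
        linarith
  obtain ⟨es, hlen, hes, h, hh, u, hu, hprod, hbd⟩ := key gs hgs
  refine ⟨es, hlen, hes, h, hh, u, hu, hprod, ?_⟩
  have h1 := hbd [] (by simp)
  simpa using h1

end Pool.Agent.H65.ST
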