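import Mathlib

/-!
# EXP: the elementary estimate for the number of codes

Let `a = Real.log C₁ + (lam + δ) * (κ + R + 1)` and choose `M ≥ 1` with `a ≤ δ * M`. Let
`k = n / M + 1` (natural division), so `k * M ≤ n + M`. Then
`(C₁ * exp ((lam + δ) * (M + κ + R + 1))) ^ k = exp (k * (a + (lam + δ) * M))` and
`k * (a + (lam + δ) * M) ≤ k * M * (lam + 2 * δ) ≤ (lam + 2 * δ) * n + const`.
The polynomial factor is at most `const * exp (δ * n)`.
-/

set_option autoImplicit false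

namespace Pool.Agent.H65.ST

theorem exp_poly (δ : ℝ) (hδ : 0 < δ) (N : ℕ) :
    ∃ K : ℝ, 0 ≤ K ∧ ∀ n : ℕ, ((n : ℝ) + 2) ^ N ≤ K * Real.exp (δ * n) := by
  refine ⟨(N.factorial : ℝ) / δ ^ N * Real.exp (2 * δ), by positivity, fun n => ?_⟩
  have h1 := Real.pow_div_factorial_le_exp (δ * ((n : ℝ) + 2)) (by positivity) N
  rw [div_le_iff₀ (by positivity), mul_pow] at h1
  have h2 : δ * ((n : ℝ) + 2) = 2 * δ + δ * n := by ring
  rw [h2, Real.exp_add] at h1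
  have h3 : (0 : ℝ) < δ ^ N := by positivity
  calc ((n : ℝ) + 2) ^ N = δ ^ N * ((n : ℝ) + 2) ^ N / δ ^ N := by field_simp
    _ ≤ (Real.exp (2 * δ) * Real.exp (δ * n) * N.factorial) / δ ^ N :=
      div_le_div_of_nonneg_right h1 h3.le
    _ = (N.factorial : ℝ) / δ ^ N * Real.exp (2 * δ) * Real.exp (δ * n) := by ring

/-- For a large block length `M` the number of codes grows at most like
`exp ((lam + 3 * δ) * n)`. -/
theorem code_count (C₁ R κ lam δ : ℝ) (hC₁ : 1 ≤ C₁) (hlam : 0 ≤ lam) (hδ : 0 < δ) :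
    ∃ M : ℕ, 0 < M ∧ ∀ (A A' E : ℝ) (D r : ℕ), 0 ≤ A → 0 ≤ A' → 0 ≤ E → ∃ K : ℝ, ∀ n k : ℕ,
      k = n / M + 1 →
      (C₁ * Real.exp ((lam + δ) * (M + κ + R + 1))) ^ k *
        (2 * ((k : ℝ) * (A * ((k : ℝ) * E + 1) ^ D * A')) + 3) ^ r ≤
        K * Real.exp ((lam + 3 * δ) * n) := by
  obtain ⟨M', hM'⟩ := exists_nat_gt ((Real.log C₁ + (lam + δ) * (κ + R + 1)) / δ)
  rw [div_lt_iff₀ hδ] at hM'
  refine ⟨M' + 1, Nat.succ_pos _, ?_⟩
  obtain ⟨M, hM⟩ : ∃ M : ℕ, M = M' + 1 := ⟨_, rfl⟩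
  rw [← hM]
  have hM0 : 0 < M := by omega
  have hMR : (0 : ℝ) < M := by exact_mod_cast hM0
  have ha : Real.log C₁ + (lam + δ) * (κ + R + 1) ≤ δ * M := by
    rw [hM]
    push_cast
    nlinarith
  intro A A' E D r hA hA' hE
  obtain ⟨K', hK'0, hK'⟩ := exp_poly δ hδ ((D + 1) * r)
  refine ⟨Real.exp ((lam + 2 * δ) * M) * ((2 * (A * (E + 1) ^ D * A') + 3) ^ r * K'),
    fun n k hk => ?_⟩
  have hn0 : (0 : ℝ) ≤ n := Nat.cast_nonneg _
  have hk0 : (0 : ℝ) ≤ k := Nat.cast_nonneg _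
  have hkM : (k : ℝ) * M ≤ n + M := by
    have h1 : k * M ≤ n + M := by
      rw [hk, Nat.add_mul, one_mul]
      have := Nat.div_mul_le_self n M
      omega
    exact_mod_cast h1
  have hk2 : (k : ℝ) ≤ n + 2 := by
    have h1 : k ≤ n + 2 := by
      rw [hk]
      have := Nat.div_le_self n M
      omega
    exact_mod_cast h1
  have hfirst : (C₁ * Real.exp ((lam + δ) * (M + κ + R + 1))) ^ k ≤
      Real.exp ((lam + 2 * δ) * M) * Real.exp ((lam + 2 * δ) * n) := by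
    have h1 : C₁ * Real.exp ((lam + δ) * (M + κ + R + 1)) ≤ Real.exp ((lam + 2 * δ) * M) := by
      rw [← Real.exp_log (lt_of_lt_of_le one_pos hC₁), ← Real.exp_add, Real.exp_le_exp]
      nlinarith
    have h2 : (0 : ℝ) ≤ C₁ * Real.exp ((lam + δ) * (M + κ + R + 1)) := by positivity
    refine (pow_le_pow_left₀ h2 h1 k).trans ?_
    rw [← Real.exp_nat_mul, ← Real.exp_add, Real.exp_le_exp]
    have h3 : 0 ≤ lam + 2 * δ := by positivity
    have h4 := mul_le_mul_of_nonneg_left hkM h3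
    nlinarith
  have hsecond : (2 * ((k : ℝ) * (A * ((k : ℝ) * E + 1) ^ D * A')) + 3) ^ r ≤
      (2 * (A * (E + 1) ^ D * A') + 3) ^ r * ((n : ℝ) + 2) ^ ((D + 1) * r) := by
    rw [pow_mul, ← mul_pow]
    refine pow_le_pow_left₀ (by positivity) ?_ r
    have h1 : (k : ℝ) * E + 1 ≤ (E + 1) * (n + 2) := by nlinarith
    have h2 : ((k : ℝ) * E + 1) ^ D ≤ (E + 1) ^ D * (n + 2) ^ D := by
      rw [← mul_pow]
      exact pow_le_pow_left₀ (by positivity) h1 D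
    have h3 : A * ((k : ℝ) * E + 1) ^ D * A' ≤ A * ((E + 1) ^ D * (n + 2) ^ D) * A' := by
      gcongr
    have h4 : (k : ℝ) * (A * ((k : ℝ) * E + 1) ^ D * A') ≤
        (n + 2) * (A * ((E + 1) ^ D * (n + 2) ^ D) * A') :=
      mul_le_mul hk2 h3 (by positivity) (by positivity)
    have h5 : (1 : ℝ) ≤ ((n : ℝ) + 2) ^ (D + 1) := one_le_pow₀ (by linarith)
    have h6 : ((n : ℝ) + 2) * (A * ((E + 1) ^ D * (n + 2) ^ D) * A') =
        (A * (E + 1) ^ D * A') * (n + 2) ^ (D + 1) := by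
      rw [pow_succ]
      ring
    rw [h6] at h4
    linarith
  have hpos2 : (0 : ℝ) ≤ (2 * ((k : ℝ) * (A * ((k : ℝ) * E + 1) ^ D * A')) + 3) ^ r := by
    positivity
  have hthird := hK' n
  calc (C₁ * Real.exp ((lam + δ) * (M + κ + R + 1))) ^ k *
        (2 * ((k : ℝ) * (A * ((k : ℝ) * E + 1) ^ D * A')) + 3) ^ r
      ≤ (Real.exp ((lam + 2 * δ) * M) * Real.exp ((lam + 2 * δ) * n)) *
        ((2 * (A * (E + 1) ^ D * A') + 3) ^ r * (K' * Real.exp (δ * n))) :=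
      mul_le_mul hfirst (hsecond.trans (mul_le_mul_of_nonneg_left hthird (by positivity))) hpos2
        (by positivity)
    _ = Real.exp ((lam + 2 * δ) * M) * ((2 * (A * (E + 1) ^ D * A') + 3) ^ r * K') *
        (Real.exp ((lam + 2 * δ) * n) * Real.exp (δ * n)) := by ring
    _ = Real.exp ((lam + 2 * δ) * M) * ((2 * (A * (E + 1) ^ D * A') + 3) ^ r * K') *
        Real.exp ((lam + 3 * δ) * n) := by
      rw [← Real.exp_add]
      congr 2
      ring

end Pool.Agent.H65.ST
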