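import Pool.Agent.H65.ST.Net
import Pool.Agent.H65.ST.Cod
import Pool.Agent.H65.ST.Exp

/-!
# CNT: the growth exponent of `G / H` and of `G / ⁅H, H⁆` (skeleton counting)

Let `ε > 0` and `δ = ε / 3`. `GrLe L lam H` for `δ` gives `R, C₁`; enlarge them so that `0 ≤ R`,
`1 ≤ C₁`. `code_count C₁ R κ lam δ` gives `M`. Let `B = M + κ` and `m' = ⌈R + B⌉₊`, so
`R + B ≤ m' ≤ B + R + 1`, and let `F` be the finite set for `m'`. For `len g ≤ R + B` there are
`e ∈ F`, `ν ∈ H` with `len (e⁻¹ * (ν * g)) ≤ R`; then `len ν` is bounded, so `‖φ ν‖ ≤ c₀` by `bdd`.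
This is `hF` of `coding`.

Every `e ∈ F` is the product of a bounded number of elements of length `≤ 1 + κ` (`Geod` with block
length 1), so by `hpol` the action of the inverses of words in `F` of length `k` is bounded by the
polynomial `Θ k = r * C * (k * E + 1) ^ D`.

For `n` let `k = n / M + 1` and `Λ = k * (Θ k * c₀)`, and let `Y` be the net of `exists_net`
for `Λ`. The final set is `{es.prod * y | es a list of length k in F, y ∈ Y}`, which has at most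
`F.card ^ k * Y.card` elements; by `code_count` this is at most `K * exp ((lam + ε) * n)`.

Let `len g ≤ n`. `Geod` and `coding` give `g = es.prod * h * u` with `len u ≤ R`,
`‖φ h‖ ≤ Λ`. Take `y ∈ Y` with `‖φ (y⁻¹ * h)‖ ≤ 1` and `η ∈ ⁅H, H⁆` with
`len (η⁻¹ * (y⁻¹ * h)) ≤ R₂`.
-/

set_option autoImplicit false

namespace Pool.Agent.H65.ST

theorem cnt_lists {G : Type*} (F : Finset G) (k : ℕ) :
    ∃ S : Finset (List G), S.card ≤ F.card ^ k ∧
      ∀ es : List G, es.length = k → (∀ e ∈ es, e ∈ F) → es ∈ S := by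
  classical
  induction k with
  | zero =>
    refine ⟨{[]}, by simp, fun es h _ => ?_⟩
    rw [List.length_eq_zero_iff] at h
    rw [h]
    exact Finset.mem_singleton_self _
  | succ k ih =>
    obtain ⟨S, hS, hS2⟩ := ih
    refine ⟨(F ×ˢ S).image fun p => p.1 :: p.2, ?_, ?_⟩
    · refine Finset.card_image_le.trans ?_
      rw [Finset.card_product, pow_succ, mul_comm]
      exact Nat.mul_le_mul_right _ hS
    · intro es h hes
      cases es with
      | nil => simp at h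
      | cons e es =>
        rw [List.length_cons, Nat.add_right_cancel_iff] at h
        rw [Finset.mem_image]
        exact ⟨(e, es), Finset.mem_product.2 ⟨hes e (by simp),
          hS2 es h fun x hx => hes x (by simp [hx])⟩, rfl⟩

theorem cnt_mulVec {r : ℕ} (A : Matrix (Fin r) (Fin r) ℝ) (c : ℝ) (hc : 0 ≤ c)
    (h : ∀ i j, |A i j| ≤ c) (v : Fin r → ℝ) : ‖A.mulVec v‖ ≤ r * c * ‖v‖ := by
  rw [pi_norm_le_iff_of_nonneg (by positivity)]
  intro i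
  rw [Real.norm_eq_abs]
  have h1 : A.mulVec v i = ∑ j, A i j * v j := rfl
  rw [h1]
  refine (Finset.abs_sum_le_sum_abs _ _).trans ?_
  have h2 : ∀ j ∈ Finset.univ, |A i j * v j| ≤ c * ‖v‖ := by
    intro j _
    rw [abs_mul]
    exact mul_le_mul (h i j) (norm_le_pi_norm v j) (abs_nonneg _) hc
  refine (Finset.sum_le_sum h2).trans (le_of_eq ?_)
  rw [Finset.sum_const, Finset.card_univ, Fintype.card_fin, nsmul_eq_mul]
  ring

theorem grLe_commutator {G : Type*} [Group G] (L : Len G) (κ : ℝ) (hκ : 0 ≤ κ) (hG : Geod L κ)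
    (lam : ℝ) (hlam : 0 ≤ lam) (H : Subgroup G) (hN : H.Normal) {r : ℕ} (f : Fin r → G) (φ : G → Fin r → ℝ)
    (hL : Layer L H f φ) (T : G →* Matrix (Fin r) (Fin r) ℝ)
    (hT : ∀ (g : G), ∀ h ∈ H, φ (g * h * g⁻¹) = (T g).mulVec (φ h))
    (hpol : ∃ (C : ℝ) (D : ℕ), ∀ l : List G, (∀ s ∈ l, L.len s ≤ 1 + κ) →
      ∀ i j, |T l.prod i j| ≤ C * ((l.length : ℝ) + 1) ^ D)
    (hS : GrLe L lam H) : GrLe L lam ⁅H, H⁆ := by
  classical
  intro ε hε
  obtain ⟨δ, hδdef⟩ : ∃ δ : ℝ, δ = ε / 3 := ⟨_, rfl⟩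
  have hδ : 0 < δ := by rw [hδdef]; positivity
  have hδε : 3 * δ = ε := by
    rw [hδdef]
    ring
  obtain ⟨R0, C0, hS0⟩ := hS δ hδ
  obtain ⟨R, hRdef⟩ : ∃ R : ℝ, R = max R0 0 := ⟨_, rfl⟩
  obtain ⟨C₁, hC₁def⟩ : ∃ C₁ : ℝ, C₁ = max C0 1 := ⟨_, rfl⟩
  have hR : 0 ≤ R := by rw [hRdef]; exact le_max_right _ _
  have hC₁ : 1 ≤ C₁ := by rw [hC₁def]; exact le_max_right _ _
  have hS1 : ∀ n : ℕ, ∃ F : Finset G, (F.card : ℝ) ≤ C₁ * Real.exp ((lam + δ) * n) ∧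
      ∀ g : G, L.len g ≤ n → ∃ f ∈ F, ∃ ν ∈ H, L.len (f⁻¹ * (ν * g)) ≤ R := by
    intro n
    obtain ⟨F, h1, h2⟩ := hS0 n
    refine ⟨F, h1.trans (mul_le_mul_of_nonneg_right (by rw [hC₁def]; exact le_max_left _ _)
      (Real.exp_pos _).le), fun g hg => ?_⟩
    obtain ⟨f, hf, ν, hν, h3⟩ := h2 g hg
    exact ⟨f, hf, ν, hν, h3.trans (by rw [hRdef]; exact le_max_left _ _)⟩
  obtain ⟨M, hM0, hM⟩ := code_count C₁ R κ lam δ hC₁ hlam hδ
  obtain ⟨B, hB⟩ : ∃ B : ℝ, B = M + κ := ⟨_, rfl⟩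
  have hB0 : 0 ≤ B := by rw [hB]; positivity
  obtain ⟨F, hFcard, hF⟩ := hS1 ⌈R + B⌉₊
  have hFcard' : (F.card : ℝ) ≤ C₁ * Real.exp ((lam + δ) * (M + κ + R + 1)) := by
    refine hFcard.trans (mul_le_mul_of_nonneg_left ?_ (by linarith))
    rw [Real.exp_le_exp]
    refine mul_le_mul_of_nonneg_left ?_ (by linarith)
    have h1 := Nat.ceil_lt_add_one (add_nonneg hR hB0)
    rw [← hB]
    linarith
  obtain ⟨EF, hEF⟩ : ∃ EF : ℝ, ∀ e ∈ F, L.len e ≤ EF := by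
    obtain ⟨x, hx⟩ := (F.image fun e => L.len e).bddAbove
    exact ⟨x, fun e he => hx (Finset.mem_coe.2 (Finset.mem_image_of_mem _ he))⟩
  obtain ⟨c, hc⟩ := hL.bdd (EF + R + (R + B))
  obtain ⟨c₀, hc₀def⟩ : ∃ c₀ : ℝ, c₀ = max c 0 := ⟨_, rfl⟩
  have hc₀ : 0 ≤ c₀ := by rw [hc₀def]; exact le_max_right _ _
  have hFc : ∀ g : G, L.len g ≤ R + B → ∃ e ∈ F, ∃ ν ∈ H, L.len (e⁻¹ * (ν * g)) ≤ R ∧
      ‖φ ν‖ ≤ c₀ := by
    intro g hg
    obtain ⟨e, he, ν, hν, h1⟩ := hF g (hg.trans (Nat.le_ceil _))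
    refine ⟨e, he, ν, hν, h1, ?_⟩
    have h2 : L.len ν ≤ EF + R + (R + B) := by
      have h3 : ν = e * (e⁻¹ * (ν * g)) * g⁻¹ := by group
      rw [h3]
      refine (L.mul _ _).trans (add_le_add ((L.mul _ _).trans (add_le_add (hEF e he) h1)) ?_)
      rw [L.inv]
      exact hg
    rw [hc₀def]
    exact (hc ν hν h2).trans (le_max_left _ _)
  obtain ⟨C', D, hpol'⟩ := hpol
  obtain ⟨C, hCdef⟩ : ∃ C : ℝ, C = max C' 0 := ⟨_, rfl⟩
  have hC0 : 0 ≤ C := by rw [hCdef]; exact le_max_right _ _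
  obtain ⟨E, hE⟩ : ∃ E : ℕ, E = ⌈EF⌉₊ + 1 := ⟨_, rfl⟩
  have hword : ∀ e ∈ F, ∃ l : List G, l.length ≤ E ∧ (∀ s ∈ l, L.len s ≤ 1 + κ) ∧
      l.prod = e := by
    intro e he
    obtain ⟨l, h1, h2, h3⟩ := hG 1 one_pos ⌈EF⌉₊ e ((hEF e he).trans (Nat.le_ceil _))
    refine ⟨l, by rw [hE, h1, Nat.div_one], fun s hs => ?_, h3⟩
    have h4 := h2 s hs
    rwa [Nat.cast_one] at h4
  have hword' : ∀ es : List G, (∀ e ∈ es, e ∈ F) → ∃ l : List G, l.length ≤ es.length * E ∧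
      (∀ s ∈ l, L.len s ≤ 1 + κ) ∧ l.prod = es.prod⁻¹ := by
    intro es
    induction es with
    | nil => exact fun _ => ⟨[], by simp, by simp, by simp⟩
    | cons e es ih =>
      intro hes
      obtain ⟨l, h1, h2, h3⟩ := ih fun x hx => hes x (by simp [hx])
      obtain ⟨le, h4, h5, h6⟩ := hword e (hes e (by simp))
      refine ⟨l ++ (le.map fun x => x⁻¹).reverse, ?_, ?_, ?_⟩
      · rw [List.length_append, List.length_reverse, List.length_map, List.length_cons,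
          Nat.succ_mul]
        omega
      · intro s hs
        rw [List.mem_append, List.mem_reverse, List.mem_map] at hs
        rcases hs with hs | ⟨t, ht, rfl⟩
        · exact h2 s hs
        · rw [L.inv]
          exact h5 t ht
      · rw [List.prod_append, ← List.prod_inv_reverse, h3, h6, List.prod_cons, mul_inv_rev]
  obtain ⟨Θ, hΘdef⟩ : ∃ Θ : ℕ → ℝ, ∀ k, Θ k = r * C * ((k : ℝ) * E + 1) ^ D := ⟨_, fun k => rfl⟩
  have hΘ0 : ∀ n, 0 ≤ Θ n := by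
    intro n
    rw [hΘdef]
    positivity
  have hmono : Monotone Θ := by
    intro a b hab
    rw [hΘdef, hΘdef]
    have : (a : ℝ) ≤ b := by exact_mod_cast hab
    gcongr
  have hΘ : ∀ es : List G, (∀ e ∈ es, e ∈ F) → ∀ h ∈ H,
      ‖φ (es.prod⁻¹ * h * es.prod)‖ ≤ Θ es.length * ‖φ h‖ := by
    intro es hes h hh
    have h1 := hT es.prod⁻¹ h hh
    rw [inv_inv] at h1
    rw [h1, hΘdef]
    obtain ⟨l, h2, h3, h4⟩ := hword' es hes
    have h5 : ∀ i j, |T es.prod⁻¹ i j| ≤ C * ((es.length : ℝ) * E + 1) ^ D := by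
      intro i j
      rw [← h4]
      refine (hpol' l h3 i j).trans ?_
      have h6 : (l.length : ℝ) ≤ es.length * E := by exact_mod_cast h2
      have h7 : C' ≤ C := by rw [hCdef]; exact le_max_left _ _
      calc C' * ((l.length : ℝ) + 1) ^ D ≤ C * ((l.length : ℝ) + 1) ^ D :=
            mul_le_mul_of_nonneg_right h7 (by positivity)
        _ ≤ C * ((es.length : ℝ) * E + 1) ^ D := by gcongr
    refine (cnt_mulVec _ _ (by positivity) h5 _).trans (le_of_eq ?_)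
    ring
  obtain ⟨K, hK⟩ := hM (r * C) c₀ E D r (by positivity) hc₀ (Nat.cast_nonneg _)
  obtain ⟨R₂, hR₂⟩ := hL.prp 1
  refine ⟨R₂ + R, K, fun n => ?_⟩
  obtain ⟨k, hk⟩ : ∃ k : ℕ, k = n / M + 1 := ⟨_, rfl⟩
  obtain ⟨Λ, hΛ⟩ : ∃ Λ : ℝ, Λ = k * (Θ k * c₀) := ⟨_, rfl⟩
  have hΛ0 : 0 ≤ Λ := by
    rw [hΛ]
    have := hΘ0 k
    positivity
  obtain ⟨Y, hYH, hYcard, hY⟩ := exists_net H φ hL.hom Λ hΛ0
  obtain ⟨S, hScard, hSmem⟩ := cnt_lists F k
  refine ⟨(S ×ˢ Y).image fun p => p.1.prod * p.2, ?_, ?_⟩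
  · have h1 : (((S ×ˢ Y).image fun p => p.1.prod * p.2).card : ℝ) ≤
        (F.card : ℝ) ^ k * Y.card := by
      have h2 : ((S ×ˢ Y).image fun p => p.1.prod * p.2).card ≤ F.card ^ k * Y.card := by
        refine Finset.card_image_le.trans ?_
        rw [Finset.card_product]
        exact Nat.mul_le_mul_right _ hScard
      exact_mod_cast h2
    refine h1.trans ?_
    have h3 := hK n k hk
    rw [hδε] at h3
    refine le_trans ?_ h3
    refine mul_le_mul (pow_le_pow_left₀ (Nat.cast_nonneg _) hFcard' k) ?_ (Nat.cast_nonneg _)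
      (by positivity)
    refine hYcard.trans (le_of_eq ?_)
    rw [hΛ, hΘdef]
  · intro g hg
    obtain ⟨gs, hgs1, hgs2, hgs3⟩ := hG M hM0 n g hg
    obtain ⟨es, hes1, hes2, h, hh, u, hu, hprod, hbd⟩ := coding L H hN φ hL.hom F R B c₀ hR hc₀
      hFc Θ hmono hΘ hΘ0 gs (by rw [hB]; exact hgs2)
    rw [hgs1, ← hk] at hes1 hbd
    rw [← hΛ] at hbd
    obtain ⟨y, hy, hy2⟩ := hY h hh hbd
    obtain ⟨η, hη, h3⟩ := hR₂ (y⁻¹ * h) (H.mul_mem (H.inv_mem (hYH y hy)) hh) hy2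
    have hcn : (⁅H, H⁆ : Subgroup G).Normal := Subgroup.commutator_normal H H
    refine ⟨es.prod * y, Finset.mem_image.2 ⟨(es, y), Finset.mem_product.2
      ⟨hSmem es hes1 hes2, hy⟩, rfl⟩, (es.prod * y) * η⁻¹ * (es.prod * y)⁻¹,
      hcn.conj_mem _ (Subgroup.inv_mem _ hη) _, ?_⟩
    have h4 : (es.prod * y)⁻¹ * ((es.prod * y) * η⁻¹ * (es.prod * y)⁻¹ * g) =
        (η⁻¹ * (y⁻¹ * h)) * u := by
      rw [← hgs3, hprod]
      group
    rw [h4]
    exact (L.mul _ _).trans (add_le_add h3 hu)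

end Pool.Agent.H65.ST
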