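import Pool.Agent.H65.ST.Mil

/-!
# CYC: the kernel of a proper cyclic quotient is boundedly generated (if there are no trees)

## Proof
`P` is boundedly generated: `P ≤ closure S`, `S = {p ∈ P | len p ≤ R}`, we may take `R ≥ 0`. Every
element of `P` is `ν * t^k` with `ν ∈ N`, `k : ℤ` (`hgen`; the set of these products is a subgroup
because `t` normalises `N`). By `hprp` for `R` there is `K ≥ 0`. Let `s ∈ S`, `s = ν * t^k`. Then
`p = ν⁻¹ ∈ N` satisfies `p⁻¹ * t^k = s`, so `|k| ≤ K` and `len ν ≤ R + K * len t =: R₁`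
(`len (t^k) ≤ |k| * len t`, induction).

Let `M` be the subgroup generated by all `t^i * κ * t^(-i)`, `i : ℤ`, `κ ∈ N`, `len κ ≤ R₁`. `M ≤ N`
is normalised by `t`, so `{μ * t^k | μ ∈ M, k : ℤ}` is a subgroup; it contains `S`, hence `P`.
Let `n ∈ N`, `n = μ * t^k`. Then `t^k ∈ N`, so `t^(k*j) ∈ N` for all `j : ℕ`, and `hprp 0`
(with `p = t^(k*j)`, `p⁻¹ * t^(k*j) = 1` of length `0`) gives `|k * j| ≤ K'` for all `j`, so
`k = 0` and `n = μ ∈ M`. So `N = M`.

Now apply `milnor` with `R₂ = max R₁ R₀` (and `R₀ ≤ R₂`) to `N` and `s = t`, and to `N` and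
`s = t⁻¹`; let `m ≥ 1` be at least both numbers `m`. Put `κ ∈ K` for `κ ∈ N`, `len κ ≤ R₂`, and let
`Q` be the subgroup generated by all `t^i * κ * t^(-i)`, `0 ≤ i < m`, `κ ∈ K`. Then
* `t Q t⁻¹ ≤ Q`: only the generators with `i = m - 1` are not clear; by the first application
  `κ` is in the subgroup generated by `t^(-i) K t^i`, `1 ≤ i ≤ m`, so `t^m κ t^(-m)` is in the
  subgroup generated by the `t^(m-i) K t^(-(m-i))`, which is `Q`;
* `t⁻¹ Q t ≤ Q`: only `i = 0` is not clear; by the second application `κ` is in the subgroup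
  generated by `t^i K t^(-i)`, `1 ≤ i ≤ m`, so `t⁻¹ κ t` is in the one generated by
  `t^(i-1) K t^(-(i-1))`, which is `Q`.
So `Q` contains all `t^i * κ * t^(-i)`, `i : ℤ`, and `N = M ≤ Q`. The generators of `Q` are in `N`
and have length at most `R₂ + 2 * m * len t`. So `BG L N`.
-/

set_option autoImplicit false

namespace Pool.Agent.H65.ST

private theorem cyc_len_nonneg {G : Type*} [Group G] (L : Len G) (g : G) : 0 ≤ L.len g := by
  have h1 := L.mul g g⁻¹
  rw [mul_inv_cancel, L.one, L.inv] at h1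
  linarith

private theorem cyc_len_pow {G : Type*} [Group G] (L : Len G) (t : G) (n : ℕ) :
    L.len (t ^ n) ≤ n * L.len t := by
  induction n with
  | zero => simp [L.one]
  | succ n ih =>
    rw [pow_succ]
    refine (L.mul _ _).trans ?_
    push_cast
    linarith

private theorem cyc_len_zpow {G : Type*} [Group G] (L : Len G) (t : G) (k : ℤ) :
    L.len (t ^ k) ≤ |(k : ℝ)| * L.len t := by
  obtain ⟨n, rfl | rfl⟩ := k.eq_nat_or_neg
  · rw [zpow_natCast]
    refine (cyc_len_pow L t n).trans ?_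
    simp
  · rw [zpow_neg, zpow_natCast, L.inv]
    refine (cyc_len_pow L t n).trans ?_
    simp

/-- products `ν * t^k` -/
private theorem cyc_form {G : Type*} [Group G] (M : Subgroup G) (t : G)
    (h1 : ∀ n ∈ M, t * n * t⁻¹ ∈ M) (h2 : ∀ n ∈ M, t⁻¹ * n * t ∈ M) :
    ∀ (k : ℤ), ∀ n ∈ M, t ^ k * n * (t ^ k)⁻¹ ∈ M := by
  have hnat : ∀ (k : ℕ), ∀ n ∈ M, t ^ k * n * (t ^ k)⁻¹ ∈ M := by
    intro k
    induction k with
    | zero => intro n hn; simpa using hn
    | succ k ih =>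
      intro n hn
      have := ih _ (h1 n hn)
      have h3 : t ^ (k + 1) * n * (t ^ (k + 1))⁻¹ = t ^ k * (t * n * t⁻¹) * (t ^ k)⁻¹ := by
        rw [pow_succ]; group
      rw [h3]; exact this
  have hnat' : ∀ (k : ℕ), ∀ n ∈ M, (t ^ k)⁻¹ * n * t ^ k ∈ M := by
    intro k
    induction k with
    | zero => intro n hn; simpa using hn
    | succ k ih =>
      intro n hn
      have := ih _ (h2 n hn)
      have h3 : (t ^ (k + 1))⁻¹ * n * t ^ (k + 1) = (t ^ k)⁻¹ * (t⁻¹ * n * t) * t ^ k := by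
        rw [pow_succ']; group
      rw [h3]; exact this
  intro k n hn
  obtain ⟨m, rfl | rfl⟩ := k.eq_nat_or_neg
  · rw [zpow_natCast]; exact hnat m n hn
  · rw [zpow_neg, zpow_natCast, inv_inv]; exact hnat' m n hn

/-- The subgroup `M ⟨t⟩`. -/
private def cycSub {G : Type*} [Group G] (M : Subgroup G) (t : G)
    (h : ∀ (k : ℤ), ∀ n ∈ M, t ^ k * n * (t ^ k)⁻¹ ∈ M) : Subgroup G where
  carrier := {x | ∃ ν ∈ M, ∃ k : ℤ, x = ν * t ^ k}
  one_mem' := ⟨1, M.one_mem, 0, by simp⟩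
  mul_mem' := by
    rintro x y ⟨ν, hν, k, rfl⟩ ⟨ν', hν', k', rfl⟩
    refine ⟨ν * (t ^ k * ν' * (t ^ k)⁻¹), M.mul_mem hν (h k ν' hν'), k + k', ?_⟩
    rw [zpow_add]; group
  inv_mem' := by
    rintro x ⟨ν, hν, k, rfl⟩
    refine ⟨t ^ (-k) * ν⁻¹ * (t ^ (-k))⁻¹, h (-k) _ (M.inv_mem hν), -k, ?_⟩
    group

theorem bg_cyc {G : Type*} [Group G] (L : Len G) (R₀ : ℝ) (hT : ¬ Trees L R₀) (P N : Subgroup G)
    (t : G) (hNP : N ≤ P) (ht : t ∈ P) (hconj : ∀ n ∈ N, t * n * t⁻¹ ∈ N)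
    (hconj' : ∀ n ∈ N, t⁻¹ * n * t ∈ N) (hgen : P ≤ Subgroup.closure ((N : Set G) ∪ {t}))
    (hprp : ∀ R : ℝ, ∃ K : ℝ, ∀ (k : ℤ) (p : G), p ∈ N → L.len (p⁻¹ * t ^ k) ≤ R → |(k : ℝ)| ≤ K)
    (hP : BG L P) : BG L N := by
  classical
  have hnn := cyc_len_nonneg L
  have hNz := cyc_form N t hconj hconj'
  have hform : ∀ p ∈ P, ∃ ν ∈ N, ∃ k : ℤ, p = ν * t ^ k := by
    intro p hp
    have h1 : Subgroup.closure ((N : Set G) ∪ {t}) ≤ cycSub N t hNz := by
      rw [Subgroup.closure_le]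
      rintro x (hx | hx)
      · exact ⟨x, hx, 0, by simp⟩
      · rw [Set.mem_singleton_iff] at hx
        subst hx
        exact ⟨1, N.one_mem, 1, by simp⟩
    exact h1 (hgen hp)
  obtain ⟨R, hR⟩ := hP
  obtain ⟨K₀, hK₀⟩ := hprp R
  set K₁ : ℝ := max K₀ 0 with hK₁
  set R₁ : ℝ := max R 0 + K₁ * L.len t with hR₁
  -- the subgroup M
  set M : Subgroup G := Subgroup.closure {x : G | ∃ (i : ℤ) (κ : G), κ ∈ N ∧ L.len κ ≤ R₁ ∧
    x = t ^ i * κ * (t ^ i)⁻¹} with hM
  have hM1 : ∀ n ∈ M, t * n * t⁻¹ ∈ M := by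
    intro n hn
    induction hn using Subgroup.closure_induction with
    | mem x hx =>
      obtain ⟨i, κ, h1, h2, rfl⟩ := hx
      apply Subgroup.subset_closure
      refine ⟨i + 1, κ, h1, h2, ?_⟩
      rw [zpow_add, zpow_one]
      have : t ^ i * t = t * t ^ i := by rw [← zpow_add_one, ← zpow_one_add, add_comm]
      rw [this]; group
    | one => simp [Subgroup.one_mem]
    | mul x y _ _ hx hy =>
      have : t * (x * y) * t⁻¹ = (t * x * t⁻¹) * (t * y * t⁻¹) := by group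
      rw [this]; exact Subgroup.mul_mem _ hx hy
    | inv x _ hx =>
      have : t * x⁻¹ * t⁻¹ = (t * x * t⁻¹)⁻¹ := by group
      rw [this]; exact Subgroup.inv_mem _ hx
  have hM2 : ∀ n ∈ M, t⁻¹ * n * t ∈ M := by
    intro n hn
    induction hn using Subgroup.closure_induction with
    | mem x hx =>
      obtain ⟨i, κ, h1, h2, rfl⟩ := hx
      apply Subgroup.subset_closure
      refine ⟨i - 1, κ, h1, h2, ?_⟩
      have : t ^ (i - 1) = t⁻¹ * t ^ i := by
        rw [sub_eq_add_neg, add_comm, zpow_add, zpow_neg, zpow_one]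
      rw [this]; group
    | one => simp [Subgroup.one_mem]
    | mul x y _ _ hx hy =>
      have : t⁻¹ * (x * y) * t = (t⁻¹ * x * t) * (t⁻¹ * y * t) := by group
      rw [this]; exact Subgroup.mul_mem _ hx hy
    | inv x _ hx =>
      have : t⁻¹ * x⁻¹ * t = (t⁻¹ * x * t)⁻¹ := by group
      rw [this]; exact Subgroup.inv_mem _ hx
  have hMz := cyc_form M t hM1 hM2
  have hMN : M ≤ N := by
    rw [hM, Subgroup.closure_le]
    rintro x ⟨i, κ, h1, h2, rfl⟩
    exact hNz i κ h1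
  have hPM : ∀ p ∈ P, ∃ ν ∈ M, ∃ k : ℤ, p = ν * t ^ k := by
    intro p hp
    have h1 : Subgroup.closure {h : G | h ∈ P ∧ L.len h ≤ R} ≤ cycSub M t hMz := by
      rw [Subgroup.closure_le]
      rintro x ⟨hx, hxR⟩
      obtain ⟨ν, hν, k, rfl⟩ := hform x hx
      have h2 : |(k : ℝ)| ≤ K₀ := by
        apply hK₀ k ν⁻¹ (N.inv_mem hν)
        rw [inv_inv]; exact hxR
      refine ⟨ν, Subgroup.subset_closure ⟨0, ν, hν, ?_, by simp⟩, k, rfl⟩
      have h3 : ν = (ν * t ^ k) * (t ^ k)⁻¹ := by group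
      have h4 : L.len ν ≤ L.len (ν * t ^ k) + L.len (t ^ k) := by
        calc L.len ν = L.len ((ν * t ^ k) * (t ^ k)⁻¹) := by rw [← h3]
          _ ≤ _ := L.mul _ _
          _ = _ := by rw [L.inv]
      have h5 := cyc_len_zpow L t k
      have h6 : |(k : ℝ)| * L.len t ≤ K₁ * L.len t :=
        mul_le_mul_of_nonneg_right (h2.trans (le_max_left _ _)) (hnn t)
      have h7 : R ≤ max R 0 := le_max_left _ _
      rw [hR₁]; linarith
    exact h1 (hR hp)
  have hNM : N ≤ M := by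
    intro n hn
    obtain ⟨μ, hμ, k, hk⟩ := hPM n (hNP hn)
    have htk : t ^ k ∈ N := by
      have : t ^ k = μ⁻¹ * n := by rw [hk]; group
      rw [this]; exact N.mul_mem (N.inv_mem (hMN hμ)) hn
    have hk0 : k = 0 := by
      by_contra hk0
      obtain ⟨K', hK'⟩ := hprp 0
      obtain ⟨j, hj⟩ := exists_nat_gt K'
      have h1 : (t ^ (k * (j : ℤ))) ∈ N := by
        rw [zpow_mul]; exact N.zpow_mem htk _
      have h2 := hK' (k * (j : ℤ)) _ h1 (by rw [inv_mul_cancel, L.one])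
      have h3 : (1 : ℝ) ≤ |(k : ℝ)| := by
        have : (1 : ℤ) ≤ |k| := Int.one_le_abs hk0
        have h4 : ((1 : ℤ) : ℝ) ≤ ((|k| : ℤ) : ℝ) := by exact_mod_cast this
        simpa using h4
      have h5 : (j : ℝ) ≤ |((k * (j : ℤ) : ℤ) : ℝ)| := by
        push_cast
        rw [abs_mul, Nat.abs_cast]
        nlinarith [Nat.cast_nonneg (α := ℝ) j]
      linarith
    rw [hk, hk0]; simpa using hμ
  -- Milnor
  set R₂ : ℝ := max R₁ R₀ with hR₂
  obtain ⟨m₁, hm₁⟩ := milnor L R₀ R₂ (le_max_right _ _) hT N t hconj hconj'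
  obtain ⟨m₂, hm₂⟩ := milnor L R₀ R₂ (le_max_right _ _) hT N t⁻¹
    (by intro n hn; rw [inv_inv]; exact hconj' n hn)
    (by intro n hn; rw [inv_inv]; exact hconj n hn)
  set m : ℕ := max (max m₁ m₂) 1 with hm
  have hm1 : m₁ ≤ m := (le_max_left _ _).trans (le_max_left _ _)
  have hm2 : m₂ ≤ m := (le_max_right _ _).trans (le_max_left _ _)
  have hm3 : 1 ≤ m := le_max_right _ _
  set Q : Subgroup G := Subgroup.closure {x : G | ∃ (i : ℕ) (κ : G), i < m ∧ κ ∈ N ∧
    L.len κ ≤ R₂ ∧ x = t ^ i * κ * (t ^ i)⁻¹} with hQ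
  have hQgen : ∀ (i : ℕ) (κ : G), i < m → κ ∈ N → L.len κ ≤ R₂ → t ^ i * κ * (t ^ i)⁻¹ ∈ Q :=
    fun i κ h1 h2 h3 => Subgroup.subset_closure ⟨i, κ, h1, h2, h3, rfl⟩
  -- closure facts
  have hA : ∀ κ ∈ N, L.len κ ≤ R₂ → t ^ m * κ * (t ^ m)⁻¹ ∈ Q := by
    intro κ h1 h2
    have h3 := hm₁ κ h1 h2
    clear h1 h2
    induction h3 using Subgroup.closure_induction with
    | mem x hx =>
      obtain ⟨i, k', h4, h5, h6, h7, rfl⟩ := hx
      have h8 := hQgen (m - i) k' (by omega) h6 h7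
      have h9 : t ^ m = t ^ (m - i) * t ^ i := by rw [← pow_add]; congr 1; omega
      have h10 : t ^ m * ((t ^ i)⁻¹ * k' * t ^ i) * (t ^ m)⁻¹ =
          t ^ (m - i) * k' * (t ^ (m - i))⁻¹ := by rw [h9]; group
      rw [h10]; exact h8
    | one => simp [Subgroup.one_mem]
    | mul x y _ _ hx hy =>
      have : t ^ m * (x * y) * (t ^ m)⁻¹ = (t ^ m * x * (t ^ m)⁻¹) * (t ^ m * y * (t ^ m)⁻¹) := by
        group
      rw [this]; exact Subgroup.mul_mem _ hx hy
    | inv x _ hx =>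
      have : t ^ m * x⁻¹ * (t ^ m)⁻¹ = (t ^ m * x * (t ^ m)⁻¹)⁻¹ := by group
      rw [this]; exact Subgroup.inv_mem _ hx
  have hB : ∀ κ ∈ N, L.len κ ≤ R₂ → t⁻¹ * κ * t ∈ Q := by
    intro κ h1 h2
    have h3 := hm₂ κ h1 h2
    clear h1 h2
    induction h3 using Subgroup.closure_induction with
    | mem x hx =>
      obtain ⟨i, k', h4, h5, h6, h7, rfl⟩ := hx
      have h8 := hQgen (i - 1) k' (by omega) h6 h7
      have h9 : t ^ i = t ^ (i - 1) * t := by rw [← pow_succ]; congr 1; omega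
      have h9' : t ^ i = t * t ^ (i - 1) := by rw [← pow_succ']; congr 1; omega
      have h10 : t⁻¹ * ((t⁻¹ ^ i)⁻¹ * k' * t⁻¹ ^ i) * t =
          t ^ (i - 1) * k' * (t ^ (i - 1))⁻¹ := by
        rw [inv_pow, inv_inv, h9']; group
      rw [h10]; exact h8
    | one => simp [Subgroup.one_mem]
    | mul x y _ _ hx hy =>
      have : t⁻¹ * (x * y) * t = (t⁻¹ * x * t) * (t⁻¹ * y * t) := by group
      rw [this]; exact Subgroup.mul_mem _ hx hy
    | inv x _ hx =>
      have : t⁻¹ * x⁻¹ * t = (t⁻¹ * x * t)⁻¹ := by group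
      rw [this]; exact Subgroup.inv_mem _ hx
  have hQ1 : ∀ n ∈ Q, t * n * t⁻¹ ∈ Q := by
    intro n hn
    induction hn using Subgroup.closure_induction with
    | mem x hx =>
      obtain ⟨i, κ, h1, h2, h3, rfl⟩ := hx
      have h4 : t * (t ^ i * κ * (t ^ i)⁻¹) * t⁻¹ = t ^ (i + 1) * κ * (t ^ (i + 1))⁻¹ := by
        rw [pow_succ']; group
      rw [h4]
      by_cases hi : i + 1 < m
      · exact hQgen _ _ hi h2 h3
      · have : i + 1 = m := by omega
        rw [this]; exact hA κ h2 h3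
    | one => simp [Subgroup.one_mem]
    | mul x y _ _ hx hy =>
      have : t * (x * y) * t⁻¹ = (t * x * t⁻¹) * (t * y * t⁻¹) := by group
      rw [this]; exact Subgroup.mul_mem _ hx hy
    | inv x _ hx =>
      have : t * x⁻¹ * t⁻¹ = (t * x * t⁻¹)⁻¹ := by group
      rw [this]; exact Subgroup.inv_mem _ hx
  have hQ2 : ∀ n ∈ Q, t⁻¹ * n * t ∈ Q := by
    intro n hn
    induction hn using Subgroup.closure_induction with
    | mem x hx =>
      obtain ⟨i, κ, h1, h2, h3, rfl⟩ := hx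
      cases i with
      | zero =>
        have h4 : t⁻¹ * (t ^ 0 * κ * (t ^ 0)⁻¹) * t = t⁻¹ * κ * t := by simp
        rw [h4]; exact hB κ h2 h3
      | succ i =>
        have h4 : t⁻¹ * (t ^ (i + 1) * κ * (t ^ (i + 1))⁻¹) * t = t ^ i * κ * (t ^ i)⁻¹ := by
          rw [pow_succ']; group
        rw [h4]
        exact hQgen _ _ (by omega) h2 h3
    | one => simp [Subgroup.one_mem]
    | mul x y _ _ hx hy =>
      have : t⁻¹ * (x * y) * t = (t⁻¹ * x * t) * (t⁻¹ * y * t) := by group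
      rw [this]; exact Subgroup.mul_mem _ hx hy
    | inv x _ hx =>
      have : t⁻¹ * x⁻¹ * t = (t⁻¹ * x * t)⁻¹ := by group
      rw [this]; exact Subgroup.inv_mem _ hx
  have hQz := cyc_form Q t hQ1 hQ2
  have hMQ : M ≤ Q := by
    rw [hM, Subgroup.closure_le]
    rintro x ⟨i, κ, h1, h2, rfl⟩
    apply hQz i
    have := hQgen 0 κ (by omega) h1 (h2.trans (le_max_left _ _))
    simpa using this
  refine ⟨R₂ + 2 * (m * L.len t), fun n hn => ?_⟩
  have h1 : n ∈ Q := hMQ (hNM hn)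
  refine Subgroup.closure_mono ?_ h1
  rintro x ⟨i, κ, h2, h3, h4, rfl⟩
  refine ⟨?_, ?_⟩
  · have := hNz (i : ℤ) κ h3
    rwa [zpow_natCast] at this
  · have h5 := L.mul (t ^ i * κ) (t ^ i)⁻¹
    have h6 := L.mul (t ^ i) κ
    rw [L.inv] at h5
    have h7 := cyc_len_pow L t i
    have h8 : (i : ℝ) * L.len t ≤ m * L.len t := by
      apply mul_le_mul_of_nonneg_right _ (hnn t)
      exact_mod_cast h2.le
    linarith

end Pool.Agent.H65.ST
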