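import Mathlib

/-!
# Groups with a length function, trees, growth of quotients (definitions, MP_b0184e_gt)

Everything in `Pool/Agent/H65/ST` is about an abstract group `G` with a length function
(`Len G`). In the application `G` is a group of isometries of a proper space `X` and
`len g = dist (g x₀) x₀`, so that `len (g⁻¹ * h)` is the distance of `g x₀` and `h x₀`.
The group is *not* assumed discrete or closed: many elements may have length zero.
-/

set_option autoImplicit false

namespace Pool.Agent.H65.ST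

/-- A length function on a group such that every ball is covered by finitely many left translates
of any small ball. -/
structure Len (G : Type*) [Group G] where
  /-- the length -/
  len : G → ℝ
  one : len 1 = 0
  inv : ∀ g, len g⁻¹ = len g
  mul : ∀ g h, len (g * h) ≤ len g + len h
  cov : ∀ R ε : ℝ, 0 < ε → ∃ F : Finset G, ∀ g, len g ≤ R → ∃ f ∈ F, len (f⁻¹ * g) ≤ ε

/-- The subgroup `H` is generated by a set of bounded length. -/
def BG {G : Type*} [Group G] (L : Len G) (H : Subgroup G) : Prop :=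
  ∃ R : ℝ, H ≤ Subgroup.closure {h : G | h ∈ H ∧ L.len h ≤ R}

/-- Binary trees of every depth with bounded steps, any two vertices of the same level being at
distance more than `R`. -/
def Trees {G : Type*} [Group G] (L : Len G) (R : ℝ) : Prop :=
  ∃ C : ℝ, ∀ m : ℕ, ∃ f : List Bool → G,
    (∀ (w : List Bool) (b : Bool), w.length < m → L.len ((f w)⁻¹ * f (b :: w)) ≤ C) ∧
    ∀ w w' : List Bool, w.length = w'.length → w.length ≤ m → w ≠ w' →
      R < L.len ((f w)⁻¹ * f w')

/-- The growth rate of `G / N` is at most `lam`: the ball of radius `n` is contained, up to elements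
of `N` on the left and of bounded length on the right, in a set of at most
`C * exp ((lam + ε) * n)` elements, for every `ε > 0`. -/
def GrLe {G : Type*} [Group G] (L : Len G) (lam : ℝ) (N : Subgroup G) : Prop :=
  ∀ ε : ℝ, 0 < ε → ∃ R C : ℝ, ∀ n : ℕ, ∃ F : Finset G,
    (F.card : ℝ) ≤ C * Real.exp ((lam + ε) * n) ∧
    ∀ g : G, L.len g ≤ n → ∃ f ∈ F, ∃ ν ∈ N, L.len (f⁻¹ * (ν * g)) ≤ R

/-- Elements of length at most `n` are products of `n / M + 1` elements of length at most
`M + κ`. -/
def Geod {G : Type*} [Group G] (L : Len G) (κ : ℝ) : Prop :=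
  ∀ M : ℕ, 0 < M → ∀ (n : ℕ) (g : G), L.len g ≤ n →
    ∃ l : List G, l.length = n / M + 1 ∧ (∀ s ∈ l, L.len s ≤ M + κ) ∧ l.prod = g

/-- A pseudo-norm on an abelian group such that every ball is covered by finitely many translates
of any small ball. -/
structure PN (A : Type*) [AddCommGroup A] where
  /-- the pseudo-norm -/
  q : A → ℝ
  zero : q 0 = 0
  neg : ∀ a, q (-a) = q a
  add : ∀ a b, q (a + b) ≤ q a + q b
  cov : ∀ R ε : ℝ, 0 < ε → ∃ F : Finset A, ∀ a, q a ≤ R → ∃ f ∈ F, q (a - f) ≤ ε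

/-- The integral combinations of `f` are `R`-dense. -/
def Cob {A : Type*} [AddCommGroup A] (Q : PN A) {r : ℕ} (f : Fin r → A) (R : ℝ) : Prop :=
  ∀ a : A, ∃ n : Fin r → ℤ, Q.q (a - ∑ j, n j • f j) ≤ R

/-- The coefficient map of `f` is proper. -/
def Prp {A : Type*} [AddCommGroup A] (Q : PN A) {r : ℕ} (f : Fin r → A) : Prop :=
  ∀ R : ℝ, {n : Fin r → ℤ | Q.q (∑ j, n j • f j) ≤ R}.Finite

/-- `φ : H → ℝ^r` is a homomorphism with `φ (f j) = e_j`, which is coarsely proper in both
directions modulo `⁅H, H⁆`, and through which every homomorphism `H → ℝ` that is bounded on bounded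
sets factors linearly. (Only the values of `φ` on `H` matter.) -/
structure Layer {G : Type*} [Group G] (L : Len G) (H : Subgroup G) {r : ℕ}
    (f : Fin r → G) (φ : G → Fin r → ℝ) : Prop where
  mem : ∀ j, f j ∈ H
  hom : ∀ g ∈ H, ∀ h ∈ H, φ (g * h) = φ g + φ h
  single : ∀ j, φ (f j) = Pi.single j 1
  bdd : ∀ R : ℝ, ∃ C : ℝ, ∀ h ∈ H, L.len h ≤ R → ‖φ h‖ ≤ C
  prp : ∀ C : ℝ, ∃ R : ℝ, ∀ h ∈ H, ‖φ h‖ ≤ C → ∃ η ∈ ⁅H, H⁆, L.len (η⁻¹ * h) ≤ R
  univ : ∀ χ : G → ℝ, (∀ g ∈ H, ∀ h ∈ H, χ (g * h) = χ g + χ h) →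
    (∀ R : ℝ, ∃ C : ℝ, ∀ h ∈ H, L.len h ≤ R → |χ h| ≤ C) →
    ∀ h ∈ H, χ h = ∑ j, φ h j * χ (f j)

end Pool.Agent.H65.ST
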