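import Pool.Agent.H65.ST.Sch
import Pool.Agent.H65.ST.Cyc
import Pool.Agent.H65.ST.Fac

/-!
# DER: without trees the derived subgroup of a boundedly generated group is boundedly generated

## Proof
For `l : ℕ` let `P l` be the subgroup generated by `⁅H, H⁆` and all `f j` with `(j : ℕ) < l`. Then
`P 0 = ⁅H, H⁆`, `P l ≤ P (l + 1) ≤ H`, and `⁅H, H⁆ ≤ P l`, so `P l` is normalised by all of `H`.

1. `φ η = 0` for `η ∈ ⁅H, H⁆` (`φ` is a homomorphism from `H` to an abelian group:
   `Subgroup.commutator_le` with the kernel, or closure induction), and `φ p l = 0` for `p ∈ P l`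
   (for `l < r`; closure induction, `φ (f j) l = 0` for `j < l`).
2. `P r` is cobounded in `H`: let `h ∈ H`, `n j = ⌊φ h j⌋`, `p₀ = ∏ f j ^ n j` (product of a list or
   `Fin` product in order, or define the product by recursion) which is in `P r` and has
   `φ p₀ = n`. So `φ (p₀⁻¹ * h) = φ h - n` has norm `≤ 1` and `prp 1` gives `η ∈ ⁅H, H⁆` with
   `len (η⁻¹ * p₀⁻¹ * h) ≤ R`; take `p = p₀ * η`.
   Hence `BG L (P r)` by `bg_of_cobounded`.
3. For `l < r`, `BG L (P (l + 1))` implies `BG L (P l)` by `bg_cyc` with `t = f l`: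
   `hgen` is clear, and `hprp`: if `p ∈ P l` and `len (p⁻¹ * t^k) ≤ R` then
   `φ (p⁻¹ * t^k) l = k` by 1., so `|k| ≤ C` by `bdd R`.
4. By descending induction `BG L (P 0)`.
-/

set_option autoImplicit false

namespace Pool.Agent.H65.ST

open scoped commutatorElement

/-- the subgroup generated by the derived subgroup and the first `l` generators -/
def derP {G : Type*} [Group G] (H : Subgroup G) {r : ℕ} (f : Fin r → G) (l : ℕ) : Subgroup G :=
  Subgroup.closure ((⁅H, H⁆ : Subgroup G) ∪ {x : G | ∃ j : Fin r, (j : ℕ) < l ∧ x = f j} : Set G)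

theorem derP_comm {G : Type*} [Group G] (H : Subgroup G) {r : ℕ} (f : Fin r → G) (l : ℕ) :
    ⁅H, H⁆ ≤ derP H f l := fun _ hx => Subgroup.subset_closure (Or.inl hx)

theorem derP_gen {G : Type*} [Group G] (H : Subgroup G) {r : ℕ} (f : Fin r → G) (l : ℕ)
    (j : Fin r) (hj : (j : ℕ) < l) : f j ∈ derP H f l := Subgroup.subset_closure (Or.inr ⟨j, hj, rfl⟩)

theorem derP_le {G : Type*} [Group G] (H : Subgroup G) {r : ℕ} (f : Fin r → G)
    (hf : ∀ j, f j ∈ H) (l : ℕ) : derP H f l ≤ H := by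
  unfold derP
  rw [Subgroup.closure_le]
  rintro x (hx | ⟨j, -, rfl⟩)
  · exact Subgroup.commutator_le_self H hx
  · exact hf j

theorem derP_conj {G : Type*} [Group G] (H : Subgroup G) {r : ℕ} (f : Fin r → G)
    (hf : ∀ j, f j ∈ H) (l : ℕ) (t n : G) (ht : t ∈ H) (hn : n ∈ derP H f l) :
    t * n * t⁻¹ ∈ derP H f l := by
  have h1 : t * n * t⁻¹ = ⁅t, n⁆ * n := by
    rw [commutatorElement_def]
    group
  rw [h1]
  exact (derP H f l).mul_mem (derP_comm H f l (Subgroup.commutator_mem_commutator ht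
    (derP_le H f hf l hn))) hn

/-- the part of `H` on which `φ` vanishes in the coordinate `i` -/
def derK {G : Type*} [Group G] (H : Subgroup G) {r : ℕ}
    (φ : G → Fin r → ℝ) (hom : ∀ g ∈ H, ∀ h ∈ H, φ (g * h) = φ g + φ h) (i : Fin r) :
    Subgroup G where
  carrier := {x | x ∈ H ∧ φ x i = 0}
  one_mem' := by
    refine ⟨H.one_mem, ?_⟩
    have h := congrFun (hom 1 H.one_mem 1 H.one_mem) i
    rw [mul_one] at h
    have h2 : φ 1 i = φ 1 i + φ 1 i := h
    linarith
  mul_mem' := by
    rintro a b ⟨ha, ha2⟩ ⟨hb, hb2⟩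
    refine ⟨H.mul_mem ha hb, ?_⟩
    rw [hom a ha b hb, Pi.add_apply, ha2, hb2, add_zero]
  inv_mem' := by
    rintro a ⟨ha, ha2⟩
    refine ⟨H.inv_mem ha, ?_⟩
    rw [fac_inv H φ hom a ha, Pi.neg_apply, ha2, neg_zero]

theorem derP_zero {G : Type*} [Group G] (H : Subgroup G) {r : ℕ} (f : Fin r → G)
    (φ : G → Fin r → ℝ) (hf : ∀ j, f j ∈ H) (hom : ∀ g ∈ H, ∀ h ∈ H, φ (g * h) = φ g + φ h)
    (hs : ∀ j, φ (f j) = Pi.single j 1) (i : Fin r) (p : G) (hp : p ∈ derP H f i) :
    φ p i = 0 := by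
  have h1 : derP H f i ≤ derK H φ hom i := by
    unfold derP
    rw [Subgroup.closure_le]
    rintro x (hx | ⟨j, hj, rfl⟩)
    · have h2 : ⁅H, H⁆ ≤ derK H φ hom i := by
        rw [Subgroup.commutator_le]
        intro a ha b hb
        refine ⟨Subgroup.commutator_le_self H (Subgroup.commutator_mem_commutator ha hb), ?_⟩
        rw [commutatorElement_def, hom _ (H.mul_mem (H.mul_mem ha hb) (H.inv_mem ha)) _
          (H.inv_mem hb), hom _ (H.mul_mem ha hb) _ (H.inv_mem ha), hom _ ha _ hb,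
          fac_inv H φ hom a ha, fac_inv H φ hom b hb]
        simp only [Pi.add_apply, Pi.neg_apply]
        ring
      exact h2 hx
    · refine ⟨hf j, ?_⟩
      rw [hs]
      have hne : i ≠ j := by
        intro h
        rw [h] at hj
        exact lt_irrefl _ hj
      exact Pi.single_eq_of_ne hne _
  exact (h1 hp).2

theorem bg_derived {G : Type*} [Group G] (L : Len G) (R₀ : ℝ) (hT : ¬ Trees L R₀)
    (H : Subgroup G) (hH : BG L H) {r : ℕ} (f : Fin r → G) (φ : G → Fin r → ℝ)
    (hL : Layer L H f φ) : BG L ⁅H, H⁆ := by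
  classical
  -- the last subgroup is cobounded
  have htop : BG L (derP H f r) := by
    obtain ⟨R, hR⟩ := hL.prp 1
    refine bg_of_cobounded L H (derP H f r) (derP_le H f hL.mem r) R (fun h hh => ?_) hH
    obtain ⟨l, hl⟩ : ∃ l : List G, l = (List.finRange r).map fun j => f j ^ ⌊φ h j⌋ := ⟨_, rfl⟩
    have hlP : ∀ g ∈ l, g ∈ derP H f r := by
      intro g hg
      rw [hl, List.mem_map] at hg
      obtain ⟨j, -, rfl⟩ := hg
      exact (derP H f r).zpow_mem (derP_gen H f r j j.2) _
    have hprod : l.prod ∈ derP H f r := (derP H f r).list_prod_mem hlP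
    have hprodH : l.prod ∈ H := derP_le H f hL.mem r hprod
    have hφ : φ l.prod = fun j => (⌊φ h j⌋ : ℝ) := by
      rw [fac_list H φ hL.hom l fun g hg => derP_le H f hL.mem r (hlP g hg), hl, List.map_map,
        ← Fin.sum_univ_def]
      ext i
      rw [Finset.sum_apply, Finset.sum_eq_single i]
      · show φ (f i ^ ⌊φ h i⌋) i = _
        rw [fac_zpow H φ hL.hom _ (hL.mem i), hL.single]
        simp
      · intro j _ hj
        show φ (f j ^ ⌊φ h j⌋) i = _
        rw [fac_zpow H φ hL.hom _ (hL.mem j), hL.single, Pi.smul_apply, Pi.single_eq_of_ne hj.symm,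
          smul_zero]
      · intro h
        exact absurd (Finset.mem_univ i) h
    have hnorm : ‖φ (l.prod⁻¹ * h)‖ ≤ 1 := by
      rw [pi_norm_le_iff_of_nonneg zero_le_one]
      intro i
      rw [hL.hom _ (H.inv_mem hprodH) _ hh, fac_inv H φ hL.hom _ hprodH, hφ]
      show ‖-(⌊φ h i⌋ : ℝ) + φ h i‖ ≤ 1
      have h1 : -(⌊φ h i⌋ : ℝ) + φ h i = Int.fract (φ h i) := by
        rw [← Int.self_sub_floor]
        ring
      rw [h1, Real.norm_of_nonneg (Int.fract_nonneg _)]
      exact (Int.fract_lt_one _).le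
    obtain ⟨η, hη, h2⟩ := hR _ (H.mul_mem (H.inv_mem hprodH) hh) hnorm
    refine ⟨l.prod * η, (derP H f r).mul_mem hprod (derP_comm H f r hη), ?_⟩
    have h3 : (l.prod * η)⁻¹ * h = η⁻¹ * (l.prod⁻¹ * h) := by group
    rw [h3]
    exact h2
  have hstep : ∀ i : Fin r, BG L (derP H f (i + 1)) → BG L (derP H f i) := by
    intro i hi
    refine bg_cyc L R₀ hT (derP H f (i + 1)) (derP H f i) (f i) ?_ (derP_gen H f _ i (by omega))
      (fun n hn => derP_conj H f hL.mem i _ n (hL.mem i) hn) (fun n hn => ?_) ?_ ?_ hi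
    · unfold derP
      refine Subgroup.closure_mono (Set.union_subset_union_right _ ?_)
      rintro x ⟨j, hj, rfl⟩
      exact ⟨j, by omega, rfl⟩
    · have h := derP_conj H f hL.mem i (f i)⁻¹ n (H.inv_mem (hL.mem i)) hn
      rwa [inv_inv] at h
    · conv_lhs => unfold derP
      rw [Subgroup.closure_le]
      rintro x (hx | ⟨j, hj, rfl⟩)
      · exact Subgroup.subset_closure (Or.inl (derP_comm H f i hx))
      · rcases Nat.lt_succ_iff_lt_or_eq.1 hj with h | h
        · exact Subgroup.subset_closure (Or.inl (derP_gen H f i j h))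
        · have h2 : j = i := Fin.ext h
          rw [h2]
          exact Subgroup.subset_closure (Or.inr rfl)
    · intro R
      obtain ⟨C, hC⟩ := hL.bdd R
      refine ⟨C, fun k p hp hlen => ?_⟩
      have hpH : p ∈ H := derP_le H f hL.mem i hp
      have hkH : f i ^ k ∈ H := H.zpow_mem (hL.mem i) k
      have h1 := hC _ (H.mul_mem (H.inv_mem hpH) hkH) hlen
      have h2 := (norm_le_pi_norm (φ (p⁻¹ * f i ^ k)) i).trans h1
      rw [hL.hom _ (H.inv_mem hpH) _ hkH, fac_inv H φ hL.hom _ hpH,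
        fac_zpow H φ hL.hom _ (hL.mem i), hL.single, Pi.add_apply, Pi.neg_apply,
        derP_zero H f φ hL.mem hL.hom hL.single i p hp] at h2
      simpa using h2
  have hall : ∀ m ≤ r, BG L (derP H f (r - m)) := by
    intro m
    induction m with
    | zero =>
      intro _
      exact htop
    | succ m ih =>
      intro hm
      have h1 := ih (by omega)
      have h2 : r - m = (r - (m + 1)) + 1 := by omega
      rw [h2] at h1
      exact hstep ⟨r - (m + 1), by omega⟩ h1
  have h0 := hall r le_rfl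
  rw [Nat.sub_self] at h0
  have h3 : derP H f 0 = ⁅H, H⁆ := by
    refine le_antisymm ?_ (derP_comm H f 0)
    unfold derP
    rw [Subgroup.closure_le]
    rintro x (hx | ⟨j, hj, rfl⟩)
    · exact hx
    · exact absurd hj (Nat.not_lt_zero _)
  rwa [h3] at h0

end Pool.Agent.H65.ST
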