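import Pool.Agent.H65.ST.Def

/-!
# MAP: restriction and push-forward of pseudo-norms

## Proof
* `exists_comap`: `q' b = q (ι b)`. Covering: let `F` be given by `Q.cov R (ε / 2)`. For every
  `f ∈ F` for which there is `b` with `q (ι b - f) ≤ ε / 2` choose one such `b_f`. If
  `q (ι b) ≤ R` take `f` with `q (ι b - f) ≤ ε / 2`; then
  `q (ι (b - b_f)) ≤ q (ι b - f) + q (f - ι b_f) ≤ ε`.
* `exists_map`: `q' b = sInf {x | ∃ a, π a = b ∧ x = q a}` (`q ≥ 0` because `0 = q 0 ≤ q a + q (-a)`,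
  so the set is bounded below; it is nonempty because `π` is onto). Additivity: for `δ > 0` take
  `a, a'` with `q a ≤ q' b + δ`, `q a' ≤ q' b' + δ`. Covering: if `q' b ≤ R` there is `a` over `b`
  with `q a ≤ R + 1`; take `F` from `Q.cov (R + 1) ε` and its image under `π`.
* `exists_abel`: the same as `exists_map`, for the homomorphism from the (non abelian) group `↥H`
  onto `Additive (Abelianization ↥H)`; the covering of `↥H` is obtained from `L.cov` as in
  `exists_comap`. (If it is more convenient: `q' a = sInf {x | ∃ h : ↥H, of h = a ∧ x = len h}`.)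
-/

set_option autoImplicit false

namespace Pool.Agent.H65.ST

theorem map_len_nonneg {G : Type*} [Group G] (L : Len G) (g : G) : 0 ≤ L.len g := by
  have h := L.mul g g⁻¹
  rw [mul_inv_cancel, L.one, L.inv] at h
  linarith

/-- pull back of a length function -/
theorem exists_len_comap {G K : Type*} [Group G] [Group K] (L : Len G) (ι : K →* G) :
    ∃ L' : Len K, ∀ k, L'.len k = L.len (ι k) := by
  classical
  refine ⟨{ len := fun k => L.len (ι k)
            one := by simp [L.one]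
            inv := by intro g; simp [L.inv]
            mul := by intro g h; rw [map_mul]; exact L.mul _ _
            cov := ?_ }, fun k => rfl⟩
  intro R ε hε
  obtain ⟨F, hF⟩ := L.cov R (ε / 2) (by linarith)
  have hch : ∀ f : G, ∃ k : K, (∃ k' : K, L.len (f⁻¹ * ι k') ≤ ε / 2) →
      L.len (f⁻¹ * ι k) ≤ ε / 2 := by
    intro f
    by_cases h : ∃ k' : K, L.len (f⁻¹ * ι k') ≤ ε / 2
    · obtain ⟨k', hk'⟩ := h
      exact ⟨k', fun _ => hk'⟩
    · exact ⟨1, fun h' => absurd h' h⟩
  choose b hb using hch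
  refine ⟨F.image b, fun g hg => ?_⟩
  obtain ⟨f, hf, h⟩ := hF (ι g) hg
  refine ⟨b f, Finset.mem_image_of_mem _ hf, ?_⟩
  have h1 := hb f ⟨g, h⟩
  have h2 : ι ((b f)⁻¹ * g) = (f⁻¹ * ι (b f))⁻¹ * (f⁻¹ * ι g) := by
    rw [map_mul, map_inv]
    group
  rw [h2]
  have h3 := L.mul (f⁻¹ * ι (b f))⁻¹ (f⁻¹ * ι g)
  rw [L.inv] at h3
  linarith

/-- push forward of a length function to an abelian group -/
theorem exists_push {K A : Type*} [Group K] [AddCommGroup A] (L : Len K)
    (π : K →* Multiplicative A) (hπ : Function.Surjective π) :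
    ∃ Q : PN A, (∀ k, Q.q (Multiplicative.toAdd (π k)) ≤ L.len k) ∧
      ∀ (b : A) (R : ℝ), Q.q b ≤ R → ∃ k, π k = Multiplicative.ofAdd b ∧ L.len k ≤ R + 1 := by
  classical
  obtain ⟨q, hq⟩ : ∃ q : A → ℝ, ∀ b, q b = sInf (L.len '' {k | π k = Multiplicative.ofAdd b}) :=
    ⟨_, fun b => rfl⟩
  have hbdd : ∀ b : A, BddBelow (L.len '' {k | π k = Multiplicative.ofAdd b}) := by
    intro b
    refine ⟨0, ?_⟩
    rintro x ⟨k, -, rfl⟩
    exact map_len_nonneg L k
  have hne : ∀ b : A, (L.len '' {k | π k = Multiplicative.ofAdd b}).Nonempty := by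
    intro b
    obtain ⟨k, hk⟩ := hπ (Multiplicative.ofAdd b)
    exact ⟨_, k, hk, rfl⟩
  have hle : ∀ b k, π k = Multiplicative.ofAdd b → q b ≤ L.len k := by
    intro b k hk
    rw [hq]
    exact csInf_le (hbdd b) ⟨k, hk, rfl⟩
  have hex : ∀ b (x : ℝ), q b < x → ∃ k, π k = Multiplicative.ofAdd b ∧ L.len k < x := by
    intro b x hx
    rw [hq] at hx
    obtain ⟨y, ⟨k, hk, rfl⟩, hy⟩ := exists_lt_of_csInf_lt (hne b) hx
    exact ⟨k, hk, hy⟩
  have hq0 : ∀ b, 0 ≤ q b := by
    intro b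
    rw [hq]
    refine le_csInf (hne b) ?_
    rintro x ⟨k, -, rfl⟩
    exact map_len_nonneg L k
  have hneg : ∀ b, q (-b) ≤ q b := by
    intro b
    refine le_of_forall_pos_le_add fun δ hδ => ?_
    obtain ⟨k, hk, hk2⟩ := hex b (q b + δ) (by linarith)
    have h := hle (-b) k⁻¹ (by rw [map_inv, hk]; rfl)
    rw [L.inv] at h
    linarith
  refine ⟨{ q := q
            zero := le_antisymm ?_ (hq0 0)
            neg := fun a => le_antisymm (hneg a) ?_
            add := ?_
            cov := ?_ }, ?_, ?_⟩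
  · have h := hle 0 1 (by rw [map_one]; rfl)
    rwa [L.one] at h
  · have h := hneg (-a)
    rwa [neg_neg] at h
  · intro a b
    refine le_of_forall_pos_le_add fun δ hδ => ?_
    obtain ⟨k, hk, hk2⟩ := hex a (q a + δ / 2) (by linarith)
    obtain ⟨l, hl, hl2⟩ := hex b (q b + δ / 2) (by linarith)
    have h := hle (a + b) (k * l) (by rw [map_mul, hk, hl]; rfl)
    have h2 := L.mul k l
    linarith
  · intro R ε hε
    obtain ⟨F, hF⟩ := L.cov (R + 1) ε hε
    refine ⟨F.image fun k => Multiplicative.toAdd (π k), fun a ha => ?_⟩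
    obtain ⟨k, hk, hk2⟩ := hex a (R + 1) (by linarith)
    obtain ⟨f, hf, h⟩ := hF k hk2.le
    refine ⟨Multiplicative.toAdd (π f), Finset.mem_image_of_mem _ hf, ?_⟩
    refine (hle _ (f⁻¹ * k) ?_).trans h
    rw [map_mul, map_inv, hk, ofAdd_sub, mul_comm, ← div_eq_mul_inv]
    rfl
  · intro k
    exact hle _ k rfl
  · intro b R hb
    obtain ⟨k, hk, hk2⟩ := hex b (R + 1) (by have : q b ≤ R := hb; linarith)
    exact ⟨k, hk, hk2.le⟩

/-- a pseudo-norm as a length function -/
theorem exists_len_of_pn {A : Type*} [AddCommGroup A] (Q : PN A) :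
    ∃ L : Len (Multiplicative A), ∀ a : A, L.len (Multiplicative.ofAdd a) = Q.q a := by
  classical
  refine ⟨{ len := fun k => Q.q (Multiplicative.toAdd k)
            one := Q.zero
            inv := fun g => Q.neg _
            mul := fun g h => Q.add _ _
            cov := ?_ }, fun k => rfl⟩
  intro R ε hε
  obtain ⟨F, hF⟩ := Q.cov R ε hε
  refine ⟨F.image Multiplicative.ofAdd, fun g hg => ?_⟩
  obtain ⟨f, hf, h⟩ := hF (Multiplicative.toAdd g) hg
  refine ⟨Multiplicative.ofAdd f, Finset.mem_image_of_mem _ hf, ?_⟩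
  have h1 : Multiplicative.toAdd ((Multiplicative.ofAdd f)⁻¹ * g) = Multiplicative.toAdd g - f := by
    rw [toAdd_mul, toAdd_inv, toAdd_ofAdd]
    abel
  rw [h1]
  exact h

/-- The pull-back of a pseudo-norm. -/
theorem exists_comap {A B : Type*} [AddCommGroup A] [AddCommGroup B] (Q : PN A) (ι : B →+ A) :
    ∃ Q' : PN B, ∀ b, Q'.q b = Q.q (ι b) := by
  classical
  refine ⟨{ q := fun k => Q.q (ι k)
            zero := by simp [Q.zero]
            neg := by intro g; simp [Q.neg]
            add := by intro g h; rw [map_add]; exact Q.add _ _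
            cov := ?_ }, fun k => rfl⟩
  intro R ε hε
  obtain ⟨F, hF⟩ := Q.cov R (ε / 2) (by linarith)
  have hch : ∀ f : A, ∃ k : B, (∃ k' : B, Q.q (ι k' - f) ≤ ε / 2) →
      Q.q (ι k - f) ≤ ε / 2 := by
    intro f
    by_cases h : ∃ k' : B, Q.q (ι k' - f) ≤ ε / 2
    · obtain ⟨k', hk'⟩ := h
      exact ⟨k', fun _ => hk'⟩
    · exact ⟨0, fun h' => absurd h' h⟩
  choose b hb using hch
  refine ⟨F.image b, fun g hg => ?_⟩
  obtain ⟨f, hf, h⟩ := hF (ι g) hg
  refine ⟨b f, Finset.mem_image_of_mem _ hf, ?_⟩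
  have h1 := hb f ⟨g, h⟩
  have h2 : ι (g - b f) = (ι g - f) + -(ι (b f) - f) := by
    rw [map_sub]
    abel
  rw [h2]
  have h3 := Q.add (ι g - f) (-(ι (b f) - f))
  rw [Q.neg] at h3
  linarith

/-- The push-forward of a pseudo-norm. -/
theorem exists_map {A B : Type*} [AddCommGroup A] [AddCommGroup B] (Q : PN A) (π : A →+ B)
    (hπ : Function.Surjective π) :
    ∃ Q' : PN B, (∀ a, Q'.q (π a) ≤ Q.q a) ∧
      ∀ (b : B) (R : ℝ), Q'.q b ≤ R → ∃ a, π a = b ∧ Q.q a ≤ R + 1 := by
  obtain ⟨L, hL⟩ := exists_len_of_pn Q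
  obtain ⟨Q', h1, h2⟩ := exists_push L (AddMonoidHom.toMultiplicative π) (by
    intro b
    obtain ⟨a, ha⟩ := hπ (Multiplicative.toAdd b)
    exact ⟨Multiplicative.ofAdd a, congrArg Multiplicative.ofAdd ha⟩)
  refine ⟨Q', fun a => ?_, fun b R hb => ?_⟩
  · have h := h1 (Multiplicative.ofAdd a)
    rw [hL] at h
    exact h
  · obtain ⟨k, hk, hk2⟩ := h2 b R hb
    refine ⟨Multiplicative.toAdd k, congrArg Multiplicative.toAdd hk, ?_⟩
    rw [← hL]
    exact hk2

/-- The pseudo-norm on the abelianization of a subgroup. -/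
theorem exists_abel {G : Type*} [Group G] (L : Len G) (H : Subgroup G) :
    ∃ Q : PN (Additive (Abelianization ↥H)),
      (∀ h : ↥H, Q.q (Additive.ofMul (Abelianization.of h)) ≤ L.len (h : G)) ∧
      ∀ (a : Additive (Abelianization ↥H)) (R : ℝ), Q.q a ≤ R →
        ∃ h : ↥H, Additive.ofMul (Abelianization.of h) = a ∧ L.len (h : G) ≤ R + 1 := by
  obtain ⟨L', hL'⟩ := exists_len_comap L H.subtype
  obtain ⟨Q, h1, h2⟩ := exists_push L'
    ({ toFun := fun h => Multiplicative.ofAdd (Additive.ofMul (Abelianization.of h))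
       map_one' := rfl
       map_mul' := fun _ _ => rfl } :
      ↥H →* Multiplicative (Additive (Abelianization ↥H))) (by
    intro b
    obtain ⟨h, hh⟩ := QuotientGroup.mk_surjective (Additive.toMul (Multiplicative.toAdd b))
    exact ⟨h, congrArg (fun x => Multiplicative.ofAdd (Additive.ofMul x)) hh⟩)
  refine ⟨Q, fun h => ?_, fun a R ha => ?_⟩
  · have h3 := h1 h
    rw [hL'] at h3
    exact h3
  · obtain ⟨k, hk, hk2⟩ := h2 a R ha
    refine ⟨k, congrArg Multiplicative.toAdd hk, ?_⟩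
    rw [hL'] at hk2
    exact hk2

end Pool.Agent.H65.ST
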