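import Pool.Agent.H65.ST.Wei
import Pool.Agent.H65.ST.Map

/-!
# DRP: if the coefficient map is not proper, one generator can be dropped

## Proof
For `n : Fin (r + 1) → ℤ` put `Σ n = ∑ j, n j • f j`, an additive map in `n`. For `l ≤ r + 1` let
`Z l` be the additive subgroup of all `n` with `n i = 0` for all `i` with `l ≤ (i : ℕ)`; so
`Z 0 = {0}` and `Z (r + 1)` is everything. As `Prp` fails, for `l = r + 1` some set
`{n ∈ Z l | q (Σ n) ≤ R'}` is infinite. Take the least `l` with this property (for some `R'`);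
`l ≠ 0`, write `l = k + 1` with `k ≤ r`. So `S = {n ∈ Z (k + 1) | q (Σ n) ≤ R'}` is infinite and
`{n ∈ Z k | q (Σ n) ≤ R''}` is finite for every `R''`.

The coordinate `k` takes infinitely many values on `S`: otherwise infinitely many `n ∈ S` have the
same coordinate `k`; subtracting one of them gives infinitely many elements of `Z k` with
`q (Σ n) ≤ 2 * R'`, a contradiction.

Let `Q₁` be the pull-back of `Q` to `Z (k + 1)` (`exists_comap`) and `Q₂` the push-forward of `Q₁`
under the coordinate `k`, `Z (k + 1) → ℤ` (`exists_map`; onto because of `Pi.single k j`). Then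
`Q₂.q j ≤ R'` for infinitely many `j`, so `Q₂.q ≤ B` by `weil`, and every integer `j` is the
coordinate `k` of some `n ∈ Z (k + 1)` with `q (Σ n) ≤ B + 1`.

Let `a : A`, and `m` with `q (a - Σ m) ≤ R` (`Cob`). Take `n` with `n k = m k`,
`q (Σ n) ≤ B + 1`. Then `m - n` has coordinate `k` zero and `q (a - Σ (m - n)) ≤ R + B + 1`. So
`f' = f ∘ Fin.succAbove k` works with `R' = R + B + 1` (`Fin.sum_univ_succAbove`).
-/

set_option autoImplicit false

namespace Pool.Agent.H65.ST

/-- integer vectors supported on the first `l` coordinates -/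
def drpZ (r l : ℕ) : AddSubgroup (Fin (r + 1) → ℤ) where
  carrier := {n | ∀ i : Fin (r + 1), l ≤ (i : ℕ) → n i = 0}
  zero_mem' := fun i _ => rfl
  add_mem' := by
    intro a b ha hb i hi
    show a i + b i = 0
    rw [ha i hi, hb i hi, add_zero]
  neg_mem' := by
    intro a ha i hi
    show - a i = 0
    rw [ha i hi, neg_zero]

/-- the sum as a homomorphism -/
def drpS {A : Type*} [AddCommGroup A] {r : ℕ} (f : Fin r → A) : (Fin r → ℤ) →+ A where
  toFun n := ∑ j, n j • f j
  map_zero' := by simp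
  map_add' a b := by
    simp [add_smul, Finset.sum_add_distrib]

theorem drop {A : Type*} [AddCommGroup A] (Q : PN A) {r : ℕ} (f : Fin (r + 1) → A) (R : ℝ)
    (hc : Cob Q f R) (hp : ¬ Prp Q f) :
    ∃ (f' : Fin r → A) (R' : ℝ), Cob Q f' R' := by
  classical
  obtain ⟨P, hP⟩ : ∃ P : ℕ → Prop, ∀ l, P l ↔ ∃ R' : ℝ,
      {n : Fin (r + 1) → ℤ | n ∈ drpZ r l ∧ Q.q (drpS f n) ≤ R'}.Infinite :=
    ⟨_, fun l => Iff.rfl⟩
  have hPtop : P (r + 1) := by
    rw [hP]
    unfold Prp at hp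
    push Not at hp
    obtain ⟨R', hR'⟩ := hp
    refine ⟨R', ?_⟩
    have h1 : {n : Fin (r + 1) → ℤ | n ∈ drpZ r (r + 1) ∧ Q.q (drpS f n) ≤ R'} =
        {n : Fin (r + 1) → ℤ | Q.q (∑ j, n j • f j) ≤ R'} := by
      ext n
      constructor
      · rintro ⟨-, h⟩
        exact h
      · intro h
        refine ⟨fun i hi => ?_, h⟩
        have := i.2
        omega
    rw [h1]
    exact hR'
  have hP0 : ¬ P 0 := by
    rw [hP]
    rintro ⟨R', hR'⟩
    apply hR'
    refine Set.Finite.subset (Set.finite_singleton (0 : Fin (r + 1) → ℤ)) ?_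
    rintro n ⟨hn, -⟩
    rw [Set.mem_singleton_iff]
    ext i
    exact hn i (Nat.zero_le _)
  have hex : ∃ l, P l := ⟨_, hPtop⟩
  obtain ⟨l, hl, hmin, hle⟩ : ∃ l, P l ∧ (∀ k < l, ¬ P k) ∧ l ≤ r + 1 :=
    ⟨Nat.find hex, Nat.find_spec hex, fun k hk => Nat.find_min hex hk, Nat.find_min' hex hPtop⟩
  obtain ⟨k, rfl⟩ : ∃ k, l = k + 1 := by
    cases l with
    | zero => exact absurd hl hP0
    | succ k => exact ⟨k, rfl⟩
  have hk : k < r + 1 := by omega
  obtain ⟨K, hK⟩ : ∃ K : Fin (r + 1), (K : ℕ) = k := ⟨⟨k, hk⟩, rfl⟩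
  obtain ⟨R', hR'⟩ := (hP _).1 hl
  have hkfin : ∀ R'' : ℝ, {n : Fin (r + 1) → ℤ | n ∈ drpZ r k ∧ Q.q (drpS f n) ≤ R''}.Finite := by
    intro R''
    by_contra hcon
    exact hmin k (Nat.lt_succ_self k) ((hP k).2 ⟨R'', hcon⟩)
  -- the image of the coordinate is infinite
  have himg : ((fun n : Fin (r + 1) → ℤ => n K) ''
      {n : Fin (r + 1) → ℤ | n ∈ drpZ r (k + 1) ∧ Q.q (drpS f n) ≤ R'}).Infinite := by
    intro hfin
    have h1 : ∃ c : ℤ, {n : Fin (r + 1) → ℤ | (n ∈ drpZ r (k + 1) ∧ Q.q (drpS f n) ≤ R') ∧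
        n K = c}.Infinite := by
      by_contra hcon
      push Not at hcon
      apply hR'
      refine Set.Finite.subset (Set.Finite.biUnion hfin fun c _ => hcon c) ?_
      intro n hn
      exact Set.mem_biUnion (Set.mem_image_of_mem _ hn) ⟨hn, rfl⟩
    obtain ⟨c, hcinf⟩ := h1
    obtain ⟨n0, hn0⟩ := hcinf.nonempty
    apply hcinf
    refine Set.Finite.of_finite_image (f := fun n => n - n0) ?_ ?_
    · refine Set.Finite.subset (hkfin (R' + R')) ?_
      rintro _ ⟨n, hn, rfl⟩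
      constructor
      · intro i hi
        show n i - n0 i = 0
        by_cases h2 : (i : ℕ) = k
        · have h3 : i = K := Fin.ext (by rw [h2, hK])
          rw [h3, hn.2, hn0.2, sub_self]
        · rw [hn.1.1 i (by omega), hn0.1.1 i (by omega), sub_self]
      · rw [map_sub, sub_eq_add_neg]
        refine (Q.add _ _).trans ?_
        rw [Q.neg]
        exact add_le_add hn.1.2 hn0.1.2
    · intro a _ b _ hab
      exact sub_left_injective hab
  obtain ⟨Q1, hQ1⟩ := exists_comap Q ((drpS f).comp (drpZ r (k + 1)).subtype)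
  obtain ⟨Q2, hQ2, hQ2'⟩ := exists_map Q1
    ((Pi.evalAddMonoidHom (fun _ : Fin (r + 1) => ℤ) K).comp (drpZ r (k + 1)).subtype) (by
      intro j
      refine ⟨⟨Pi.single K j, ?_⟩, ?_⟩
      · intro i hi
        have h2 : i ≠ K := by
          intro h
          rw [h, hK] at hi
          omega
        exact Pi.single_eq_of_ne h2 _
      · show (Pi.single K j : Fin (r + 1) → ℤ) K = j
        exact Pi.single_eq_same _ _)
  have hinf2 : {j : ℤ | Q2.q j ≤ R'}.Infinite := by
    refine himg.mono ?_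
    rintro _ ⟨n, hn, rfl⟩
    have h1 := hQ2 ⟨n, hn.1⟩
    rw [hQ1] at h1
    exact h1.trans hn.2
  obtain ⟨B, hB⟩ := weil Q2 R' hinf2
  refine ⟨fun j => f (K.succAbove j), R + (B + 1), fun a => ?_⟩
  obtain ⟨m, hm⟩ := hc a
  obtain ⟨n, hn, hn2⟩ := hQ2' (m K) B (hB _)
  rw [hQ1] at hn2
  have hnK : (n : Fin (r + 1) → ℤ) K = m K := hn
  have hn2' : Q.q (drpS f n) ≤ B + 1 := hn2
  refine ⟨fun j => m (K.succAbove j) - (n : Fin (r + 1) → ℤ) (K.succAbove j), ?_⟩
  have h1 : ∑ j, (m (K.succAbove j) - (n : Fin (r + 1) → ℤ) (K.succAbove j)) •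
      f (K.succAbove j) = ∑ j, m j • f j - drpS f n := by
    show _ = ∑ j, m j • f j - ∑ j, (n : Fin (r + 1) → ℤ) j • f j
    rw [Fin.sum_univ_succAbove (fun j => m j • f j) K,
      Fin.sum_univ_succAbove (fun j => (n : Fin (r + 1) → ℤ) j • f j) K, hnK]
    simp only [sub_smul, Finset.sum_sub_distrib]
    abel
  rw [h1]
  have h2 : a - (∑ j, m j • f j - drpS f n) = (a - ∑ j, m j • f j) + drpS f n := by abel
  rw [h2]
  exact (Q.add _ _).trans (add_le_add hm hn2')

end Pool.Agent.H65.ST
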