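import Pool.Agent.H65.ST.Def

/-!
# EIG: an eigenvalue of modulus `> 1` gives trees

## Proof
Let `χ : G → ℂ`, `χ h = ∑ i, x i * (φ h i : ℂ)`. For `h ∈ H`: `χ` is additive on `H`, and
`χ (g * h * g⁻¹) = z * χ h` (because `x ᵥ* T g = z • x`). As `x ≠ 0` there is `j` with `x j ≠ 0`, and
`χ (f j) = x j ≠ 0` by `single`. For a given `R` there is a constant `C_R` with `‖χ h‖ ≤ C_R` for all
`h ∈ H` with `len h ≤ R` (`bdd`).

Let `q : ℕ` with `‖z‖ ^ q ≥ 3`, `s = g ^ q`, `z' = z ^ q`; so `χ (s * h * s⁻¹) = z' * χ h` for `h ∈ H`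
(induction on `q`; `H` normal) and `‖z'‖ ≥ 3`. Let `M : ℕ` with `M * ‖χ (f j)‖ > C_R` and
`a = f j ^ M ∈ H`, so `‖χ a‖ > C_R`, and `‖χ a‖ > 0` (take `M ≥ 1`; note `C_R ≥ 0` as `χ 1 = 0` if
`R ≥ 0`; if `R < 0` replace `R` by `0` first). Define

  `F [] = 1`, `F (b :: w) = F w * (if b then a else 1) * s⁻¹`.

Steps: `len ((F w)⁻¹ * F (b :: w)) ≤ len a + len s =: C` for all `w`, `b` (this `F` works for all
depths `m`). For `w, w'` of the same length, `y = (F w)⁻¹ * F w' ∈ H`, and for
`y' = (F (b :: w))⁻¹ * F (b' :: w') = s * a^(-b) * y * a^(b') * s⁻¹` one has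
`χ y' = z' * (χ y + (b' - b) * χ a)` (`b, b'` as numbers `0, 1`). Claim: `w ≠ w'` implies
`‖χ y‖ ≥ 2 * ‖χ a‖`. Induction: if the tails are equal then `y = 1`, `b ≠ b'` and
`‖χ y'‖ = ‖z'‖ * ‖χ a‖ ≥ 3 * ‖χ a‖`; if the tails differ then
`‖χ y'‖ ≥ 3 * (2 * ‖χ a‖ - ‖χ a‖) ≥ 2 * ‖χ a‖`. So `‖χ y‖ > C_R` and therefore `len y > R`.
-/

set_option autoImplicit false

namespace Pool.Agent.H65.ST

/-- The tree. -/
private def EF {G : Type*} [Group G] (a s : G) : List Bool → G
  | [] => 1
  | b :: w => EF a s w * (if b then a else 1) * s⁻¹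

theorem trees_of_eigenvalue {G : Type*} [Group G] (L : Len G) (H : Subgroup G) (hN : H.Normal)
    {r : ℕ} (f : Fin r → G) (φ : G → Fin r → ℝ) (hL : Layer L H f φ)
    (T : G →* Matrix (Fin r) (Fin r) ℝ)
    (hT : ∀ (g : G), ∀ h ∈ H, φ (g * h * g⁻¹) = (T g).mulVec (φ h))
    (g : G) (z : ℂ) (hz : 1 < ‖z‖) (x : Fin r → ℂ) (hx : x ≠ 0)
    (hxz : Matrix.vecMul x ((T g).map (algebraMap ℝ ℂ)) = z • x) (R : ℝ) :
    Trees L R := by
  classical
  obtain ⟨χ, hχ⟩ : ∃ χ : G → ℂ, ∀ h, χ h = dotProduct x (fun i => algebraMap ℝ ℂ (φ h i)) :=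
    ⟨_, fun h => rfl⟩
  have hadd : ∀ a ∈ H, ∀ b ∈ H, χ (a * b) = χ a + χ b := by
    intro a ha b hb
    rw [hχ, hχ, hχ, ← dotProduct_add]
    congr 1
    funext i
    rw [hL.hom a ha b hb]
    simp
  have hone : χ 1 = 0 := by
    have := hadd 1 H.one_mem 1 H.one_mem
    rw [mul_one] at this
    simpa using this
  have hinv : ∀ a ∈ H, χ a⁻¹ = - χ a := by
    intro a ha
    have := hadd a ha a⁻¹ (H.inv_mem ha)
    rw [mul_inv_cancel, hone] at this
    exact (neg_eq_of_add_eq_zero_right this.symm).symm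
  have hconj : ∀ h ∈ H, χ (g * h * g⁻¹) = z * χ h := by
    intro h hh
    rw [hχ, hχ, hT g h hh]
    have h1 : (fun i => algebraMap ℝ ℂ ((T g).mulVec (φ h) i)) =
        ((T g).map (algebraMap ℝ ℂ)).mulVec (fun i => algebraMap ℝ ℂ (φ h i)) := by
      funext i
      rw [RingHom.map_mulVec]
      rfl
    rw [h1, Matrix.dotProduct_mulVec, hxz, smul_dotProduct, smul_eq_mul]
  have hconjn : ∀ (q : ℕ), ∀ h ∈ H, χ (g ^ q * h * (g ^ q)⁻¹) = z ^ q * χ h := by
    intro q
    induction q with
    | zero => intro h _; simp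
    | succ q ih =>
      intro h hh
      have h1 : g ^ (q + 1) * h * (g ^ (q + 1))⁻¹ = g * (g ^ q * h * (g ^ q)⁻¹) * g⁻¹ := by
        rw [pow_succ']; group
      rw [h1, hconj _ (hN.conj_mem h hh _), ih h hh, pow_succ']
      ring
  -- a generator with nonzero value
  obtain ⟨j, hj⟩ : ∃ j, x j ≠ 0 := by
    by_contra hcon
    push Not at hcon
    exact hx (funext hcon)
  have hfj : χ (f j) = x j := by
    rw [hχ, hL.single]
    have h1 : (fun i => algebraMap ℝ ℂ ((Pi.single j (1 : ℝ) : Fin r → ℝ) i)) =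
        (Pi.single j (1 : ℂ) : Fin r → ℂ) := by
      funext i
      by_cases hi : i = j
      · subst hi; simp
      · simp [hi]
    rw [h1, dotProduct_single, mul_one]
  have hχpos : 0 < ‖χ (f j)‖ := by rw [hfj]; exact norm_pos_iff.2 hj
  -- bound on bounded sets
  obtain ⟨C, hC⟩ := hL.bdd R
  set CR : ℝ := max ((∑ i, ‖x i‖) * C) 0 with hCR
  have hbound : ∀ h ∈ H, L.len h ≤ R → ‖χ h‖ ≤ CR := by
    intro h hh hlen
    rw [hχ]
    refine le_trans ?_ (le_max_left _ _)
    unfold dotProduct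
    refine (norm_sum_le _ _).trans ?_
    rw [Finset.sum_mul]
    apply Finset.sum_le_sum
    intro i _
    rw [norm_mul]
    apply mul_le_mul_of_nonneg_left _ (norm_nonneg _)
    rw [norm_algebraMap']
    exact (norm_le_pi_norm (φ h) i).trans (hC h hh hlen)
  -- the powers
  obtain ⟨q, hq⟩ := pow_unbounded_of_one_lt 3 hz
  obtain ⟨M, hM⟩ := exists_nat_gt (CR / ‖χ (f j)‖)
  have hpow : ∀ n : ℕ, f j ^ n ∈ H ∧ χ (f j ^ n) = n * χ (f j) := by
    intro n
    induction n with
    | zero => simp [H.one_mem, hone]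
    | succ n ih =>
      refine ⟨H.pow_mem (hL.mem j) _, ?_⟩
      rw [pow_succ, hadd _ ih.1 _ (hL.mem j), ih.2]
      push_cast; ring
  obtain ⟨haH, haχ⟩ := hpow M
  have haC : CR < ‖χ (f j ^ M)‖ := by
    rw [haχ, norm_mul, Complex.norm_natCast]
    rwa [div_lt_iff₀ hχpos] at hM
  obtain ⟨a, ha⟩ : ∃ a, a = f j ^ M := ⟨_, rfl⟩
  obtain ⟨s, hs⟩ : ∃ s, s = g ^ q := ⟨_, rfl⟩
  rw [← ha] at haH haC
  have hCR0 : 0 ≤ CR := le_max_right _ _
  have hapos : 0 < ‖χ a‖ := lt_of_le_of_lt hCR0 haC
  refine ⟨max (L.len a) 0 + L.len s, fun m => ⟨EF a s, ?_, ?_⟩⟩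
  · intro w b _
    have h1 : (EF a s w)⁻¹ * EF a s (b :: w) = (if b then a else 1) * s⁻¹ := by
      simp only [EF]; group
    rw [h1]
    refine (L.mul _ _).trans ?_
    rw [L.inv]
    have : L.len (if b then a else 1) ≤ max (L.len a) 0 := by
      split_ifs
      · exact le_max_left _ _
      · rw [L.one]; exact le_max_right _ _
    linarith
  · have hstruct : ∀ w w' : List Bool, w.length = w'.length →
        ((EF a s w)⁻¹ * EF a s w' ∈ H) ∧
          (w ≠ w' → 2 * ‖χ a‖ ≤ ‖χ ((EF a s w)⁻¹ * EF a s w')‖) := by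
      intro w
      induction w with
      | nil =>
        intro w' hw'
        have : w' = [] := List.length_eq_zero_iff.1 hw'.symm
        subst this
        exact ⟨by simp [EF], fun h => absurd rfl h⟩
      | cons b w ih =>
        intro w'
        cases w' with
        | nil => intro h; simp at h
        | cons b' w' =>
          intro hlen
          have hlen' : w.length = w'.length := by simpa using hlen
          obtain ⟨ih1, ih2⟩ := ih w' hlen'
          have hform : (EF a s (b :: w))⁻¹ * EF a s (b' :: w') =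
              s * ((if b then a else 1)⁻¹ * ((EF a s w)⁻¹ * EF a s w') * (if b' then a else 1)) *
                s⁻¹ := by
            simp only [EF]; group
          have hbH : ∀ c : Bool, (if c then a else 1) ∈ H := by
            intro c; split_ifs
            · exact haH
            · exact H.one_mem
          have hin : (if b then a else 1)⁻¹ * ((EF a s w)⁻¹ * EF a s w') *
              (if b' then a else 1) ∈ H := H.mul_mem (H.mul_mem (H.inv_mem (hbH b)) ih1) (hbH b')
          refine ⟨by rw [hform]; exact hN.conj_mem _ hin _, ?_⟩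
          intro hne
          have hval : χ ((EF a s (b :: w))⁻¹ * EF a s (b' :: w')) =
              z ^ q * (χ ((EF a s w)⁻¹ * EF a s w') +
                (χ (if b' then a else 1) - χ (if b then a else 1))) := by
            rw [hform, hs, hconjn q _ (by rw [← hs]; exact hin), ← hs,
              hadd _ (H.mul_mem (H.inv_mem (hbH b)) ih1) _ (hbH b'),
              hadd _ (H.inv_mem (hbH b)) _ ih1, hinv _ (hbH b)]
            ring
          have hq3 : 3 ≤ ‖z ^ q‖ := by rw [norm_pow]; exact hq.le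
          rw [hval, norm_mul]
          by_cases hww : w = w'
          · subst hww
            have hbb : b ≠ b' := by
              intro h; apply hne; rw [h]
            have h1 : χ ((EF a s w)⁻¹ * EF a s w) = 0 := by
              rw [inv_mul_cancel, hone]
            have h2 : ‖χ (if b' then a else 1) - χ (if b then a else 1)‖ = ‖χ a‖ := by
              cases b <;> cases b' <;> simp_all
            rw [h1, zero_add, h2]
            nlinarith
          · have h3 := ih2 hww
            have h2 : ‖χ (if b' then a else 1) - χ (if b then a else 1)‖ ≤ ‖χ a‖ := by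
              cases b <;> cases b' <;> simp [hone]
            have h4 : ‖χ a‖ ≤ ‖χ ((EF a s w)⁻¹ * EF a s w') +
                (χ (if b' then a else 1) - χ (if b then a else 1))‖ := by
              have := norm_sub_le_norm_add (χ ((EF a s w)⁻¹ * EF a s w'))
                (χ (if b' then a else 1) - χ (if b then a else 1))
              linarith
            nlinarith [norm_nonneg (χ a)]
    intro w w' hlen _ hne
    obtain ⟨h1, h2⟩ := hstruct w w' hlen
    by_contra hlt
    push Not at hlt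
    have h3 := hbound _ h1 hlt
    have h4 := h2 hne
    linarith

end Pool.Agent.H65.ST
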