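import Pool.Agent.H65.ST.Geo

/-!
# GRO: the growth rate of the group is not smaller than that of the space

Let `x₁, C, c` be from `hexp` and `κ` from `exists_near`. Let `n₀ : ℕ` with `κ + dist x₁ x₀ ≤ n₀` and
`c = exp (lam + 2 * ε)`; `GrLe` gives `R, C'`. Let `n : ℕ`, `S` the separated set in
`closedBall x₁ n` with `C * c ^ n ≤ S.card`, and `F` the finite set for `n + n₀`,
`F.card ≤ C' * exp ((lam + ε) * (n + n₀))`. For `x ∈ S` choose `g` with `dist x (g x₀) ≤ κ`; then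
`len g ≤ n + n₀`, so there is `f ∈ F` with `len (f⁻¹ * g) ≤ R` (the element of
`⊥` is `1`) and `dist x (f x₀) ≤ R + κ`. A ball `closedBall (f x₀) (R + κ)` contains at most `M`
points with mutual distances `≥ 1` (`gro_pack`). So `C * exp (ε * n)` is bounded, a contradiction.
-/

set_option autoImplicit false

namespace Pool.Agent.H65.ST

variable {X : Type*} [MetricSpace X] [ProperSpace X]

theorem gro_pack (x₀ : X) (r : ℝ) : ∃ M : ℕ, ∀ (Γ : Subgroup (X ≃ᵢ X)) (f : ↥Γ) (S : Finset X),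
    (∀ a ∈ S, ∀ b ∈ S, a ≠ b → 1 ≤ dist a b) →
    (∀ x ∈ S, dist x ((f : X ≃ᵢ X) x₀) ≤ r) → S.card ≤ M := by
  classical
  obtain ⟨t, -, ht2, ht3⟩ := Metric.finite_approx_of_totallyBounded
    (isCompact_closedBall x₀ r).totallyBounded (1 / 3) (by norm_num)
  refine ⟨ht2.toFinset.card, fun Γ f S hS1 hS2 => ?_⟩
  have hch : ∀ x : X, ∃ y : X, x ∈ S → y ∈ t ∧ dist (((f⁻¹ : ↥Γ) : X ≃ᵢ X) x) y < 1 / 3 := by
    intro x
    by_cases hx : x ∈ S
    · have h1 : ((f⁻¹ : ↥Γ) : X ≃ᵢ X) x ∈ Metric.closedBall x₀ r := by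
        rw [Metric.mem_closedBall, iso_dist_inv]
        exact hS2 x hx
      have h2 := ht3 h1
      rw [Set.mem_iUnion₂] at h2
      obtain ⟨y, hy, h3⟩ := h2
      exact ⟨y, fun _ => ⟨hy, h3⟩⟩
    · exact ⟨x, fun h => absurd h hx⟩
  choose c hc using hch
  refine Finset.card_le_card_of_injOn c (fun x hx => ?_) ?_
  · exact Finset.mem_coe.2 (ht2.mem_toFinset.2 (hc x hx).1)
  · intro a ha b hb hab
    by_contra hne
    have h1 := hS1 a ha b hb hne
    have h2 := (hc a ha).2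
    have h3 := (hc b hb).2
    have hab' : c a = c b := hab
    rw [hab'] at h2
    have h4 := IsometryEquiv.dist_eq ((f⁻¹ : ↥Γ) : X ≃ᵢ X) a b
    have h5 := dist_triangle_right (((f⁻¹ : ↥Γ) : X ≃ᵢ X) a) (((f⁻¹ : ↥Γ) : X ≃ᵢ X) b) (c b)
    linarith

theorem not_grLe_bot (Γ : Subgroup (X ≃ᵢ X)) (lam : ℝ)
    (hco : ∃ K : Set X, IsCompact K ∧ ∀ x : X, ∃ g ∈ Γ, g x ∈ K)
    (hexp : ∃ x₀ : X, ∃ C : ℝ, 0 < C ∧ ∃ c : ℝ, Real.exp lam < c ∧ ∀ n : ℕ, ∃ S : Finset X,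
        (↑S : Set X) ⊆ Metric.closedBall x₀ (n : ℝ) ∧
        (∀ a ∈ S, ∀ b ∈ S, a ≠ b → 1 ≤ dist a b) ∧
        C * c ^ n ≤ (S.card : ℝ)) (x₀ : X) :
    ¬ GrLe (isoLen Γ x₀) lam ⊥ := by
  classical
  intro hsub
  obtain ⟨x₁, C, hC, c, hc, hS⟩ := hexp
  obtain ⟨κ, hκ, hnear⟩ := exists_near Γ hco x₀
  obtain ⟨n₀, hn₀⟩ : ∃ n₀ : ℕ, κ + dist x₁ x₀ ≤ n₀ := ⟨_, Nat.le_ceil _⟩
  have hc0 : 0 < c := (Real.exp_pos lam).trans hc
  obtain ⟨ε, hεdef⟩ : ∃ ε : ℝ, ε = (Real.log c - lam) / 2 := ⟨_, rfl⟩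
  have hε : 0 < ε := by
    rw [hεdef]
    have := (Real.lt_log_iff_exp_lt hc0).2 hc
    linarith
  have hcε : c = Real.exp (lam + 2 * ε) := by
    have h1 : lam + 2 * ε = Real.log c := by
      rw [hεdef]
      ring
    rw [h1, Real.exp_log hc0]
  obtain ⟨R, C', hF⟩ := hsub ε hε
  obtain ⟨M, hM⟩ := gro_pack x₀ (R + κ)
  have key : ∀ n : ℕ, C * Real.exp (ε * n) ≤ M * (C' * Real.exp ((lam + ε) * n₀)) := by
    intro n
    obtain ⟨S, hS1, hS2, hS3⟩ := hS n
    obtain ⟨F, hF1, hF2⟩ := hF (n + n₀)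
    have hcover : S ⊆ F.biUnion fun f => S.filter fun x => dist x ((f : X ≃ᵢ X) x₀) ≤ R + κ := by
      intro x hx
      obtain ⟨g, hg⟩ := hnear x
      have hx1 : dist x x₁ ≤ n := hS1 hx
      have hlen : (isoLen Γ x₀).len g ≤ ((n + n₀ : ℕ) : ℝ) := by
        rw [isoLen_len]
        push_cast
        have h1 := dist_triangle4 ((g : X ≃ᵢ X) x₀) x x₁ x₀
        rw [dist_comm ((g : X ≃ᵢ X) x₀) x] at h1
        linarith
      obtain ⟨f, hf, ν, hν, h2⟩ := hF2 g hlen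
      rw [Subgroup.mem_bot] at hν
      rw [hν, one_mul, isoLen_inv_mul] at h2
      rw [Finset.mem_biUnion]
      refine ⟨f, hf, Finset.mem_filter.2 ⟨hx, ?_⟩⟩
      have h3 := dist_triangle x ((g : X ≃ᵢ X) x₀) ((f : X ≃ᵢ X) x₀)
      linarith
    have h1 : S.card ≤ F.card * M := by
      refine (Finset.card_le_card hcover).trans (Finset.card_biUnion_le_card_mul _ _ _ ?_)
      intro f _
      refine hM Γ f _ ?_ ?_
      · intro a ha b hb hab
        exact hS2 a (Finset.mem_filter.1 ha).1 b (Finset.mem_filter.1 hb).1 hab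
      · intro x hx
        exact (Finset.mem_filter.1 hx).2
    have h1' : (S.card : ℝ) ≤ F.card * M := by exact_mod_cast h1
    have h2 : c ^ n = Real.exp (ε * n) * Real.exp ((lam + ε) * n) := by
      rw [hcε, ← Real.exp_nat_mul, ← Real.exp_add]
      congr 1
      ring
    have h3 : Real.exp ((lam + ε) * ((n + n₀ : ℕ) : ℝ)) =
        Real.exp ((lam + ε) * n) * Real.exp ((lam + ε) * n₀) := by
      rw [← Real.exp_add]
      congr 1
      push_cast
      ring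
    rw [h2] at hS3
    rw [h3] at hF1
    have h4 : (F.card : ℝ) * M ≤
        (C' * (Real.exp ((lam + ε) * n) * Real.exp ((lam + ε) * n₀))) * M :=
      mul_le_mul_of_nonneg_right hF1 (Nat.cast_nonneg _)
    have h5 := (hS3.trans h1').trans h4
    have hpos := Real.exp_pos ((lam + ε) * (n : ℝ))
    have h6 : (C * Real.exp (ε * n)) * Real.exp ((lam + ε) * n) ≤
        (M * (C' * Real.exp ((lam + ε) * n₀))) * Real.exp ((lam + ε) * n) := by
      calc (C * Real.exp (ε * n)) * Real.exp ((lam + ε) * n)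
          = C * (Real.exp (ε * n) * Real.exp ((lam + ε) * n)) := by ring
        _ ≤ (C' * (Real.exp ((lam + ε) * n) * Real.exp ((lam + ε) * n₀))) * M := h5
        _ = (M * (C' * Real.exp ((lam + ε) * n₀))) * Real.exp ((lam + ε) * n) := by ring
    exact le_of_mul_le_mul_right h6 hpos
  obtain ⟨n, hn⟩ := exists_nat_gt (M * (C' * Real.exp ((lam + ε) * n₀)) / (C * ε))
  have hpos : 0 < C * ε := mul_pos hC hε
  rw [div_lt_iff₀ hpos] at hn
  have h1 := key n
  have h2 : ε * n ≤ Real.exp (ε * n) := by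
    have := Real.add_one_le_exp (ε * (n : ℝ))
    linarith
  have h3 : C * (ε * n) ≤ C * Real.exp (ε * n) := mul_le_mul_of_nonneg_left h2 hC.le
  have h4 : (n : ℝ) * (C * ε) = C * (ε * n) := by ring
  linarith

end Pool.Agent.H65.ST
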