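import Pool.Agent.H65.ST.Iso
import Pool.Agent.H67.Cocompact

/-!
# LIM: trees of all depths give an infinite levelwise regular tree

## Proof
Let `C` be the constant of `Trees` and `f m` the map for depth `m`; put
`F m w = ((f m [])⁻¹ * f m w) x₀`, so `F m [] = x₀`, `dist (F m w) (F m (b :: w)) ≤ C` for
`w.length < m`, and `3 < dist (F m w) (F m w')` for `w ≠ w'` of the same length `≤ m`. So
`dist (F m w) x₀ ≤ C * w.length` for `w.length ≤ m` (induction). Let `U` be the ultrafilter
`Filter.hyperfilter ℕ`. For every `w` the points `F m w` are in the compact ball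
`closedBall x₀ (C * w.length)` for `U`-almost all `m`, so they converge along `U` to a point `g w`
(`IsCompact.ultrafilter_le_nhds` for `U.map (fun m => F m w)`). By continuity of the distance
(`le_of_tendsto`, `Filter.Tendsto.dist`) `dist (g w) (g (b :: w)) ≤ C` and
`3 ≤ dist (g w) (g w')` for `w ≠ w'` of the same length. So a ball of radius `1` contains at most
one vertex of every level, and `g` is Lipschitz for the tree metric
(`Pool.Agent.H67.dist_le_of_edges` or `treeG_...` in `Pool/Agent/H67/TreeGraph.lean`; adjacent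
vertices are `w` and `b :: w`). `k = 1`.
-/

set_option autoImplicit false

namespace Pool.Agent.H65.ST

variable {X : Type*} [MetricSpace X] [ProperSpace X]

theorem levelRegular_of_trees (Γ : Subgroup (X ≃ᵢ X)) (x₀ : X) (h : Trees (isoLen Γ x₀) 3) :
    Pool.Agent.H67.LevelRegularTree X := by
  classical
  obtain ⟨C', hC'⟩ := h
  choose f hf1 hf2 using hC'
  obtain ⟨C, hCdef⟩ : ∃ C : ℝ, C = max C' 0 := ⟨_, rfl⟩
  have hC0 : 0 ≤ C := by rw [hCdef]; exact le_max_right _ _
  have hCC : C' ≤ C := by rw [hCdef]; exact le_max_left _ _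
  obtain ⟨F, hF⟩ : ∃ F : ℕ → List Bool → X, ∀ m w, F m w =
      (((f m [])⁻¹ * f m w : ↥Γ) : X ≃ᵢ X) x₀ := ⟨_, fun m w => rfl⟩
  have hdist : ∀ m w w', dist (F m w) (F m w') = (isoLen Γ x₀).len ((f m w')⁻¹ * f m w) := by
    intro m w w'
    rw [hF, hF, isoLen_inv_mul]
    exact IsometryEquiv.dist_eq (((f m [])⁻¹ : ↥Γ) : X ≃ᵢ X) ((f m w : X ≃ᵢ X) x₀)
      ((f m w' : X ≃ᵢ X) x₀)
  have hstep : ∀ m w b, w.length < m → dist (F m (b :: w)) (F m w) ≤ C := by
    intro m w b hw
    rw [hdist]
    exact (hf1 m w b hw).trans hCC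
  have hsep : ∀ m w w', w.length = w'.length → w.length ≤ m → w ≠ w' →
      3 < dist (F m w) (F m w') := by
    intro m w w' h1 h2 h3
    rw [hdist]
    exact hf2 m w' w h1.symm (h1 ▸ h2) h3.symm
  have hbd : ∀ w m, w.length ≤ m → dist (F m w) x₀ ≤ C * w.length := by
    intro w m
    induction w with
    | nil =>
      intro _
      have h1 : F m [] = x₀ := by
        rw [hF, inv_mul_cancel]
        rfl
      rw [h1, dist_self]
      simp
    | cons b w ih =>
      intro h1
      rw [List.length_cons] at h1 ⊢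
      have h2 := ih (by omega)
      have h3 := hstep m w b (by omega)
      have h4 := dist_triangle (F m (b :: w)) (F m w) x₀
      push_cast
      linarith
  obtain ⟨U, hU⟩ : ∃ U : Ultrafilter ℕ, (U : Filter ℕ) ≤ Filter.atTop :=
    ⟨Filter.hyperfilter ℕ, Nat.hyperfilter_le_atTop⟩
  have hlim : ∀ w, ∃ g : X, Filter.Tendsto (fun m => F m w) U (nhds g) := by
    intro w
    have h1 : ((U.map fun m => F m w : Ultrafilter X) : Filter X) ≤
        Filter.principal (Metric.closedBall x₀ (C * w.length)) := by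
      rw [Filter.le_principal_iff]
      have h2 : ∀ᶠ m in (U : Filter ℕ), F m w ∈ Metric.closedBall x₀ (C * w.length) :=
        hU ((Filter.eventually_ge_atTop w.length).mono fun m hm => hbd w m hm)
      exact h2
    obtain ⟨g, -, hg⟩ := (isCompact_closedBall x₀ (C * w.length)).ultrafilter_le_nhds _ h1
    exact ⟨g, hg⟩
  choose g hg using hlim
  have hg1 : ∀ w b, dist (g (b :: w)) (g w) ≤ C := by
    intro w b
    refine le_of_tendsto ((hg (b :: w)).dist (hg w)) ?_
    exact hU ((Filter.eventually_gt_atTop w.length).mono fun m hm => hstep m w b hm)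
  have hg2 : ∀ w w', w.length = w'.length → w ≠ w' → 3 ≤ dist (g w) (g w') := by
    intro w w' h1 h2
    refine ge_of_tendsto ((hg w).dist (hg w')) ?_
    exact hU ((Filter.eventually_ge_atTop w.length).mono fun m hm => (hsep m w w' h1 hm h2).le)
  refine ⟨g, C, 1, fun u v => ?_, fun n x => ?_⟩
  · apply Pool.Agent.H67.dist_le_of_edges g C
    intro w b
    exact hg1 w b
  · rw [Nat.cast_one, Set.encard_le_one_iff]
    rintro a b ⟨ha1, ha2⟩ ⟨hb1, hb2⟩
    by_contra hne
    have h1 := hg2 a b (ha1.trans hb1.symm) hne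
    have h2 := dist_triangle_right (g a) (g b) x
    linarith

end Pool.Agent.H65.ST
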