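import Pool.Agent.H65.ST.Iso

/-!
# QUO: the growth of `X / N` in terms of separated sets

## Proof
Let `ε > 0`, `c = exp (lam + ε)` and `C` from the hypothesis. `R = 1`. Let `n : ℕ`. Call a finite set
`E` of elements of `Γ` good if all its elements have length `≤ n` and
`∀ g ∈ E, ∀ h ∈ E, g ≠ h → ∀ ν ∈ N, 1 ≤ dist (g x₀) (ν (h x₀))`. For a good `E` the points `g x₀`,
`g ∈ E`, are pairwise different (`ν = 1`), and `S = E.image (fun g => g x₀)` satisfies the hypothesis,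
so `E.card = S.card ≤ C * c ^ n`. So there is a good `E` with the largest cardinality (the empty
set is good; cardinalities are bounded: `Nat.findGreatest` or `exists_maximal`...). Then for `g` with
`len g ≤ n` either `g ∈ E` (take `f = g`, `ν = 1`, length `0`) or `insert g E` is not good, so there
are `f ∈ E`, `ν ∈ N` with `dist (g x₀) (ν (f x₀)) < 1` or `dist (f x₀) (ν (g x₀)) < 1` (or
`g` compared with itself does not occur). In the first case replace `ν` by `ν⁻¹`. So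
`len (f⁻¹ * (ν * g)) = dist (ν (g x₀)) (f x₀) < 1`. Also `c ^ n = exp ((lam + ε) * n)`.
-/

set_option autoImplicit false

namespace Pool.Agent.H65.ST

variable {X : Type*} [MetricSpace X] [ProperSpace X]

theorem grLe_of_quotient (Γ : Subgroup (X ≃ᵢ X)) (N : Subgroup ↥Γ) (x₀ : X) (lam : ℝ)
    (h : ∀ c : ℝ, Real.exp lam < c → ∃ C : ℝ, ∀ (n : ℕ) (S : Finset X),
      (↑S : Set X) ⊆ Metric.closedBall x₀ (n : ℝ) →
      (∀ a ∈ S, ∀ b ∈ S, a ≠ b → ∀ g ∈ N, 1 ≤ dist a (((g : ↥Γ) : X ≃ᵢ X) b)) →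
      (S.card : ℝ) ≤ C * c ^ n) :
    GrLe (isoLen Γ x₀) lam N := by
  classical
  intro ε hε
  obtain ⟨C, hC⟩ := h (Real.exp (lam + ε)) (Real.exp_lt_exp.2 (by linarith))
  refine ⟨1, C, fun n => ?_⟩
  by_contra hcon
  push Not at hcon
  have hexp : Real.exp ((lam + ε) * n) = Real.exp (lam + ε) ^ n := by
    rw [mul_comm, Real.exp_nat_mul]
  obtain ⟨good, hgood⟩ : ∃ good : Finset ↥Γ → Prop, ∀ E, good E ↔
      (∀ g ∈ E, (isoLen Γ x₀).len g ≤ n) ∧ (∀ g ∈ E, ∀ h ∈ E, g ≠ h → ∀ ν ∈ N,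
        1 ≤ dist ((g : X ≃ᵢ X) x₀) (((ν : ↥Γ) : X ≃ᵢ X) ((h : X ≃ᵢ X) x₀))) :=
    ⟨_, fun E => Iff.rfl⟩
  have hcard : ∀ E, good E → (E.card : ℝ) ≤ C * Real.exp ((lam + ε) * n) := by
    intro E hE
    rw [hgood] at hE
    obtain ⟨hE1, hE2⟩ := hE
    have hinj : Set.InjOn (fun g : ↥Γ => (g : X ≃ᵢ X) x₀) (E : Set ↥Γ) := by
      intro a ha b hb hab
      by_contra hne
      have h1 := hE2 a ha b hb hne 1 N.one_mem
      have h2 : ((1 : ↥Γ) : X ≃ᵢ X) ((b : X ≃ᵢ X) x₀) = (b : X ≃ᵢ X) x₀ := rfl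
      have hab' : (a : X ≃ᵢ X) x₀ = (b : X ≃ᵢ X) x₀ := hab
      rw [h2, hab', dist_self] at h1
      linarith
    have h1 := hC n (E.image fun g : ↥Γ => (g : X ≃ᵢ X) x₀) (by
      intro y hy
      rw [Finset.mem_coe, Finset.mem_image] at hy
      obtain ⟨g, hg, rfl⟩ := hy
      exact hE1 g hg) (by
      intro a ha b hb hab ν hν
      rw [Finset.mem_image] at ha hb
      obtain ⟨g, hg, rfl⟩ := ha
      obtain ⟨k, hk, rfl⟩ := hb
      exact hE2 g hg k hk (fun h => hab (by rw [h])) ν hν)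
    rw [Finset.card_image_of_injOn hinj] at h1
    rw [hexp]
    exact h1
  have hall : ∀ k : ℕ, ∃ E, good E ∧ E.card = k := by
    intro k
    induction k with
    | zero => exact ⟨∅, (hgood ∅).2 ⟨by simp, by simp⟩, rfl⟩
    | succ k ih =>
      obtain ⟨E, hE, hEk⟩ := ih
      obtain ⟨g, hg, hg2⟩ := hcon E (hcard E hE)
      rw [hgood] at hE
      obtain ⟨hE1, hE2⟩ := hE
      have hnot : g ∉ E := by
        intro hmem
        have h1 := hg2 g hmem 1 N.one_mem
        have h2 : g⁻¹ * (1 * g) = 1 := by group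
        rw [h2, (isoLen Γ x₀).one] at h1
        linarith
      have hkey1 : ∀ h ∈ E, ∀ ν ∈ N,
          1 ≤ dist ((h : X ≃ᵢ X) x₀) (((ν : ↥Γ) : X ≃ᵢ X) ((g : X ≃ᵢ X) x₀)) := by
        intro h hh ν hν
        have h1 := hg2 h hh ν hν
        rw [isoLen_inv_mul, dist_comm] at h1
        exact h1.le
      have hkey2 : ∀ h ∈ E, ∀ ν ∈ N,
          1 ≤ dist ((g : X ≃ᵢ X) x₀) (((ν : ↥Γ) : X ≃ᵢ X) ((h : X ≃ᵢ X) x₀)) := by
        intro h hh ν hν
        have h1 := hkey1 h hh ν⁻¹ (N.inv_mem hν)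
        rw [dist_comm, iso_dist_inv] at h1
        exact h1
      refine ⟨insert g E, (hgood _).2 ⟨?_, ?_⟩, by rw [Finset.card_insert_of_notMem hnot, hEk]⟩
      · intro a ha
        rw [Finset.mem_insert] at ha
        rcases ha with rfl | ha
        · exact hg
        · exact hE1 a ha
      · intro a ha b hb hab ν hν
        rw [Finset.mem_insert] at ha hb
        rcases ha with rfl | ha
        · rcases hb with rfl | hb
          · exact absurd rfl hab
          · exact hkey2 b hb ν hν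
        · rcases hb with rfl | hb
          · exact hkey1 a ha ν hν
          · exact hE2 a ha b hb hab ν hν
  obtain ⟨k, hk⟩ := exists_nat_gt (C * Real.exp ((lam + ε) * n))
  obtain ⟨E, hE, hEk⟩ := hall k
  have h1 := hcard E hE
  rw [hEk] at h1
  linarith

end Pool.Agent.H65.ST
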