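import Pool.Agent.H65.ST.Sol
import Pool.Agent.H65.ST.Quo
import Pool.Agent.H65.ST.Gro
import Pool.Agent.H65.ST.Lim

/-!
# FIN: final assembly

`fin_core`: if `X` contains no tree then the growth rates of `X` and of `X / N` agree.
For `N = ⊤` bounded generation is clear by GEO and the growth of `X / Γ` is trivial.
-/

set_option autoImplicit false

namespace Pool.Agent.H65.ST

/-- A subgroup `H` of the group `Γ` of isometries satisfies `NormalSeries Γ x₀ H` if it has a
finite series of normal subgroups of `Γ`, starting with `H` and ending with the trivial group, in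
which every factor `H' / P` is solvable (some term of the derived series of `H'` is contained in
`P`) or locally elliptic (the elements of `H'` which move the base point `x₀` by at most `R` generate
a group whose orbit of `x₀` is within bounded distance of the orbit of `x₀` under `P`, for
every `R`). -/
inductive NormalSeries {X : Type*} [MetricSpace X] (Γ : Subgroup (X ≃ᵢ X)) (x₀ : X) :
    Subgroup ↥Γ → Prop
  | trivial : NormalSeries Γ x₀ ⊥
  | solvable (H P : Subgroup ↥Γ) : H.Normal → P.Normal → P ≤ H →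
      (∃ k : ℕ, (derivedSeries ↥H k).map H.subtype ≤ P) →
      NormalSeries Γ x₀ P → NormalSeries Γ x₀ H
  | elliptic (H P : Subgroup ↥Γ) : H.Normal → P.Normal → P ≤ H →
      (∀ R : ℝ, ∃ R' : ℝ,
        ∀ h ∈ Subgroup.closure {h : ↥Γ | h ∈ H ∧ dist ((h : X ≃ᵢ X) x₀) x₀ ≤ R},
          ∃ p ∈ P, dist ((h : X ≃ᵢ X) x₀) ((p : X ≃ᵢ X) x₀) ≤ R') →
      NormalSeries Γ x₀ P → NormalSeries Γ x₀ H

/-- The subgroup `N` is generated by its elements that move `x₀` by at most `R`, for some `R`. -/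
def BoundedlyGenerated {X : Type*} [MetricSpace X] (Γ : Subgroup (X ≃ᵢ X)) (x₀ : X)
    (N : Subgroup ↥Γ) : Prop :=
  ∃ R : ℝ, N = Subgroup.closure {g : ↥Γ | g ∈ N ∧ dist ((g : X ≃ᵢ X) x₀) x₀ ≤ R}

/-- The exponential growth rate of `X` is larger than `c₀`: for some `c > c₀` and `C > 0` the balls
of radius `n` around some point contain `1`-separated sets with at least `C * c ^ n` elements. For
`c₀ = 1` this is exponential growth. -/
def GrowthGT (X : Type*) [MetricSpace X] (c₀ : ℝ) : Prop :=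
  ∃ x₀ : X, ∃ C : ℝ, 0 < C ∧ ∃ c : ℝ, c₀ < c ∧ ∀ n : ℕ, ∃ S : Finset X,
    (↑S : Set X) ⊆ Metric.closedBall x₀ (n : ℝ) ∧
    (∀ a ∈ S, ∀ b ∈ S, a ≠ b → 1 ≤ dist a b) ∧
    C * c ^ n ≤ (S.card : ℝ)

/-- The exponential growth rate of the orbit space `X / N` is at most `c₀`: for every `c > c₀` there
is `C` such that every finite subset of the ball of radius `n` around `x₀`, the points of which
have mutual distances at least `1` in `X / N`, has at most `C * c ^ n` elements. For `c₀ = 1` this is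
subexponential growth. -/
def QuotientGrowthLE {X : Type*} [MetricSpace X] (Γ : Subgroup (X ≃ᵢ X)) (x₀ : X)
    (N : Subgroup ↥Γ) (c₀ : ℝ) : Prop :=
  ∀ c : ℝ, c₀ < c → ∃ C : ℝ, ∀ (n : ℕ) (S : Finset X),
    (↑S : Set X) ⊆ Metric.closedBall x₀ (n : ℝ) →
    (∀ a ∈ S, ∀ b ∈ S, a ≠ b → ∀ g ∈ N, 1 ≤ dist a (((g : ↥Γ) : X ≃ᵢ X) b)) →
    (S.card : ℝ) ≤ C * c ^ n

variable {X : Type*} [MetricSpace X] [ProperSpace X]

theorem ser_solvable {G : Type*} [Group G] (L : Len G) (H P : Subgroup G) (hH : H.Normal)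
    (hP : P.Normal) (hPH : P ≤ H) (k : ℕ) (hk : (derivedSeries ↥H k).map H.subtype ≤ P)
    (hser : Ser L P) : Ser L H := by
  have h0 : (derivedSeries ↥H 0).map H.subtype = H := by
    rw [derivedSeries_zero, ← MonoidHom.range_eq_map, H.range_subtype]
  have hsucc : ∀ i, (derivedSeries ↥H (i + 1)).map H.subtype =
      ⁅(derivedSeries ↥H i).map H.subtype, (derivedSeries ↥H i).map H.subtype⁆ := by
    intro i
    rw [derivedSeries_succ, Subgroup.map_commutator]
  have hnorm : ∀ i, ((derivedSeries ↥H i).map H.subtype).Normal := by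
    intro i
    induction i with
    | zero =>
      rw [h0]
      exact hH
    | succ i ih =>
      rw [hsucc]
      exact Subgroup.commutator_normal _ _
  have hnormE : ∀ i, ((derivedSeries ↥H i).map H.subtype ⊔ P).Normal := fun i =>
    haveI := hnorm i
    Subgroup.sup_normal _ _
  have hcomm : ∀ i, ⁅(derivedSeries ↥H i).map H.subtype ⊔ P,
      (derivedSeries ↥H i).map H.subtype ⊔ P⁆ ≤ (derivedSeries ↥H (i + 1)).map H.subtype ⊔ P := by
    intro i
    rw [hsucc]
    generalize (derivedSeries ↥H i).map H.subtype = D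
    have h1 : Subgroup.map (QuotientGroup.mk' P) (D ⊔ P) = Subgroup.map (QuotientGroup.mk' P) D := by
      rw [Subgroup.map_sup]
      have h2 : Subgroup.map (QuotientGroup.mk' P) P = ⊥ := by
        rw [Subgroup.map_eq_bot_iff, QuotientGroup.ker_mk']
      rw [h2, sup_bot_eq]
    have h3 : ⁅D, D⁆ ⊔ P = Subgroup.comap (QuotientGroup.mk' P)
        (Subgroup.map (QuotientGroup.mk' P) ⁅D, D⁆) := by
      rw [Subgroup.comap_map_eq, QuotientGroup.ker_mk']
    rw [h3, ← Subgroup.map_le_iff_le_comap, Subgroup.map_commutator, Subgroup.map_commutator, h1]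
  have key : ∀ i ≤ k, Ser L ((derivedSeries ↥H (k - i)).map H.subtype ⊔ P) := by
    intro i
    induction i with
    | zero =>
      intro _
      rw [Nat.sub_zero, sup_eq_right.2 hk]
      exact hser
    | succ i ih =>
      intro hi
      have h1 := ih (by omega)
      have h2 : k - i = (k - (i + 1)) + 1 := by omega
      rw [h2] at h1
      refine Ser.abel _ _ (hnormE _) (hnormE _) ?_ (hcomm _) h1
      refine sup_le_sup_right ?_ P
      rw [hsucc]
      exact Subgroup.commutator_le_self _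
  have h3 := key k le_rfl
  rw [Nat.sub_self, h0, sup_eq_left.2 hPH] at h3
  exact h3

theorem ser_of_normalSeries (Γ : Subgroup (X ≃ᵢ X)) (x₀ : X) (N : Subgroup ↥Γ)
    (h : NormalSeries Γ x₀ N) : Ser (isoLen Γ x₀) N := by
  induction h with
  | trivial => exact Ser.bot
  | solvable H P h1 h2 h3 h4 _ ih =>
    obtain ⟨k, hk⟩ := h4
    exact ser_solvable _ H P h1 h2 h3 k hk ih
  | elliptic H P h1 h2 h3 h4 _ ih =>
    refine Ser.loc H P h1 h2 h3 (fun R => ?_) ih
    obtain ⟨R', hR'⟩ := h4 R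
    refine ⟨R', fun h hh => ?_⟩
    obtain ⟨p, hp, h5⟩ := hR' h hh
    exact ⟨p, hp, by rw [isoLen_inv_mul]; exact h5⟩

theorem fin_core
    (hgeo : ∀ x y : X, ∃ γ : ℝ → X, γ 0 = x ∧ γ (dist x y) = y ∧
        ∀ s ∈ Set.Icc (0 : ℝ) (dist x y), ∀ t ∈ Set.Icc (0 : ℝ) (dist x y),
          dist (γ s) (γ t) = |s - t|)
    (Γ : Subgroup (X ≃ᵢ X))
    (hco : ∃ K : Set X, IsCompact K ∧ ∀ x : X, ∃ g ∈ Γ, g x ∈ K)
    (x₀ : X) (N : Subgroup ↥Γ) (hser : Ser (isoLen Γ x₀) N)
    (hB : BG (isoLen Γ x₀) N) (lam : ℝ) (hlam : 0 ≤ lam) (hS : GrLe (isoLen Γ x₀) lam N)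
    (hexp : GrowthGT X (Real.exp lam)) :
    Pool.Agent.H67.BilipschitzTree X := by
  obtain ⟨κ, hκ, hG⟩ := geod_of_cocompact hgeo Γ hco x₀
  have hT : Trees (isoLen Γ x₀) 3 := by
    by_contra hT
    exact not_grLe_bot Γ lam hco hexp x₀
      (grLe_bot (isoLen Γ x₀) κ hκ hG lam hlam 3 hT N hser hB hS)
  have hlev := levelRegular_of_trees Γ x₀ hT
  have hco' : ∃ K : Set X, IsCompact K ∧ ∀ x : X, ∃ g : X ≃ᵢ X, g x ∈ K := by
    obtain ⟨K, hK, h⟩ := hco
    exact ⟨K, hK, fun x => by obtain ⟨g, -, hg⟩ := h x; exact ⟨g, hg⟩⟩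
  have htf := Pool.Agent.H67.tree_tfae (Pool.Agent.H67.cover_of_cocompact hgeo hco')
  exact (htf.out 4 2).mp hlev

theorem fin_normal
    (hgeo : ∀ x y : X, ∃ γ : ℝ → X, γ 0 = x ∧ γ (dist x y) = y ∧
        ∀ s ∈ Set.Icc (0 : ℝ) (dist x y), ∀ t ∈ Set.Icc (0 : ℝ) (dist x y),
          dist (γ s) (γ t) = |s - t|)
    (Γ : Subgroup (X ≃ᵢ X))
    (hco : ∃ K : Set X, IsCompact K ∧ ∀ x : X, ∃ g ∈ Γ, g x ∈ K)
    (x₀ : X) (N : Subgroup ↥Γ) (hser : NormalSeries Γ x₀ N) (c₀ : ℝ) (hc₀ : 1 ≤ c₀)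
    (hN : N = ⊤ ∨ (BoundedlyGenerated Γ x₀ N ∧ QuotientGrowthLE Γ x₀ N c₀))
    (hexp : GrowthGT X c₀) :
    Pool.Agent.H67.BilipschitzTree X := by
  have hlog : Real.exp (Real.log c₀) = c₀ := Real.exp_log (by linarith)
  obtain ⟨κ, hκ, hG⟩ := geod_of_cocompact hgeo Γ hco x₀
  rcases hN with hN | ⟨⟨R, hR⟩, hquot⟩
  · refine fin_core hgeo Γ hco x₀ N (ser_of_normalSeries Γ x₀ N hser) ⟨1 + κ, fun g _ => ?_⟩
      (Real.log c₀) (Real.log_nonneg hc₀) ?_ (by rw [hlog]; exact hexp)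
    · obtain ⟨l, -, h2, h3⟩ := hG 1 one_pos ⌈(isoLen Γ x₀).len g⌉₊ g (Nat.le_ceil _)
      rw [Nat.cast_one] at h2
      rw [← h3, hN]
      exact Subgroup.list_prod_mem _ fun s hs =>
        Subgroup.subset_closure ⟨Subgroup.mem_top s, h2 s hs⟩
    · intro ε hε
      refine ⟨0, 1, fun n => ⟨{1}, ?_, fun g _ => ⟨1, Finset.mem_singleton_self _, g⁻¹,
        by rw [hN]; exact Subgroup.mem_top _, ?_⟩⟩⟩
      · rw [Finset.card_singleton, Nat.cast_one, one_mul]
        have h1 := Real.log_nonneg hc₀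
        exact Real.one_le_exp (by positivity)
      · have h1 : (1 : ↥Γ)⁻¹ * (g⁻¹ * g) = 1 := by group
        rw [h1, (isoLen Γ x₀).one]
  · refine fin_core hgeo Γ hco x₀ N (ser_of_normalSeries Γ x₀ N hser) ⟨R, le_of_eq hR⟩
      (Real.log c₀) (Real.log_nonneg hc₀) (grLe_of_quotient Γ N x₀ (Real.log c₀) ?_) ?_
    · rw [hlog]
      exact hquot
    · rw [hlog]
      exact hexp

end Pool.Agent.H65.ST
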