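import Pool.Agent.H65.ST.Def

/-!
# GEN: a boundedly generated abelian group is coarsely finitely generated

## Proof
Put `R₁ = max R 1` and let `F` be the finite set given by `Q.cov (2 * R₁) R₁`. Claim: every
`a ∈ AddSubgroup.closure {a | q a ≤ R}` has `x ∈ AddSubgroup.closure F` with `q (a - x) ≤ R₁`. By
`AddSubgroup.closure_induction`: a generator (take `x = 0`); `0`; sums: if `q (a - x) ≤ R₁` and
`q (b - y) ≤ R₁` then `q ((a + b) - (x + y)) ≤ 2 * R₁`, so there is `f ∈ F` with
`q ((a + b) - (x + y) - f) ≤ R₁`: use `x + y + f`; negatives: use `-x` and `Q.neg`.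
Now enumerate `F` by `Fin r` (`Finset.equivFin`, or `F.toList.get`) and write the elements of the
subgroup generated by `F` as integral combinations (`Submodule.mem_span_range_iff_exists_fun` over
`ℤ`, `AddSubgroup.toIntSubmodule`, or again `AddSubgroup.closure_induction`). `R' = R₁`.
-/

set_option autoImplicit false

namespace Pool.Agent.H65.ST

theorem exists_cob {A : Type*} [AddCommGroup A] (Q : PN A) (R : ℝ)
    (hgen : AddSubgroup.closure {a : A | Q.q a ≤ R} = ⊤) :
    ∃ (r : ℕ) (f : Fin r → A) (R' : ℝ), Cob Q f R' := by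
  classical
  have hR1 : 0 < max R 1 := lt_of_lt_of_le one_pos (le_max_right _ _)
  obtain ⟨F, hF⟩ := Q.cov (2 * max R 1) (max R 1) hR1
  have key : ∀ a : A, ∃ x ∈ Submodule.span ℤ (F : Set A), Q.q (a - x) ≤ max R 1 := by
    intro a
    have ha : a ∈ AddSubgroup.closure {a : A | Q.q a ≤ R} := by
      rw [hgen]
      exact AddSubgroup.mem_top a
    induction ha using AddSubgroup.closure_induction with
    | mem a ha =>
      refine ⟨0, Submodule.zero_mem _, ?_⟩
      rw [sub_zero]
      exact le_trans ha (le_max_left _ _)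
    | zero =>
      refine ⟨0, Submodule.zero_mem _, ?_⟩
      rw [sub_zero, Q.zero]
      exact hR1.le
    | add a b _ _ iha ihb =>
      obtain ⟨x, hx, hx2⟩ := iha
      obtain ⟨y, hy, hy2⟩ := ihb
      have h1 : Q.q (a + b - (x + y)) ≤ 2 * max R 1 := by
        have h := Q.add (a - x) (b - y)
        have h2 : a - x + (b - y) = a + b - (x + y) := by abel
        rw [h2] at h
        linarith
      obtain ⟨f, hf, h3⟩ := hF _ h1
      refine ⟨x + y + f, Submodule.add_mem _ (Submodule.add_mem _ hx hy)
        (Submodule.subset_span (Finset.mem_coe.2 hf)), ?_⟩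
      have h4 : a + b - (x + y + f) = a + b - (x + y) - f := by abel
      rw [h4]
      exact h3
    | neg a _ iha =>
      obtain ⟨x, hx, hx2⟩ := iha
      refine ⟨-x, Submodule.neg_mem _ hx, ?_⟩
      have h4 : -a - -x = -(a - x) := by abel
      rw [h4, Q.neg]
      exact hx2
  refine ⟨F.card, fun i => ((F.equivFin.symm i : F) : A), max R 1, fun a => ?_⟩
  obtain ⟨x, hx, hx2⟩ := key a
  have hrange : Set.range (fun i : Fin F.card => ((F.equivFin.symm i : F) : A)) = (F : Set A) := by
    ext y
    constructor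
    · rintro ⟨i, rfl⟩
      exact (F.equivFin.symm i).2
    · intro hy
      exact ⟨F.equivFin ⟨y, hy⟩, by simp⟩
  rw [← hrange, Submodule.mem_span_range_iff_exists_fun] at hx
  obtain ⟨c, hc⟩ := hx
  refine ⟨c, ?_⟩
  rw [hc]
  exact hx2

end Pool.Agent.H65.ST
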