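import Pool.Agent.H65.ST.Iso

/-!
# GEO: a cocompact group of isometries of a geodesic space moves in bounded steps

Let `K` be compact with `∀ x, ∃ g ∈ Γ, g x ∈ K`, and let `κ ≥ 0` be a bound for `dist y x₀`, `y ∈ K`.
Then every `x` has `g ∈ Γ` with `dist x (g x₀) ≤ κ` (take the inverse of the element moving `x`
into `K`): this is `exists_near`. Let `g : Γ` with `d = dist (g x₀) x₀ ≤ n` and `k = n / M + 1`.
Let `γ` be the geodesic from `x₀` to `g x₀` and `p i = γ (d * i / k)` for `i = 0, …, k`, so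
`dist (p i) (p (i + 1)) = d / k ≤ M`. Choose `g_i ∈ Γ` with `dist (p i) (g_i x₀) ≤ κ`, `g_0 = 1`,
`g_k = g`. Then `s_i = g_i⁻¹ * g_{i+1}` has length at most `M + 2 κ` and the product of the `s_i`
is `g`.
-/

set_option autoImplicit false

namespace Pool.Agent.H65.ST

variable {X : Type*} [MetricSpace X] [ProperSpace X]

theorem exists_near (Γ : Subgroup (X ≃ᵢ X))
    (hco : ∃ K : Set X, IsCompact K ∧ ∀ x : X, ∃ g ∈ Γ, g x ∈ K) (x₀ : X) :
    ∃ κ : ℝ, 0 ≤ κ ∧ ∀ x : X, ∃ g : ↥Γ, dist x ((g : X ≃ᵢ X) x₀) ≤ κ := by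
  obtain ⟨K, hK, h⟩ := hco
  obtain ⟨r, hr⟩ := hK.isBounded.subset_closedBall x₀
  refine ⟨max r 0, le_max_right _ _, fun x => ?_⟩
  obtain ⟨g, hg, hgx⟩ := h x
  refine ⟨(⟨g, hg⟩ : ↥Γ)⁻¹, ?_⟩
  rw [← iso_dist_inv Γ (⟨g, hg⟩ : ↥Γ)⁻¹ x x₀, inv_inv]
  have h1 : dist (g x) x₀ ≤ r := hr hgx
  exact h1.trans (le_max_left _ _)

theorem geo_telescope {G : Type*} [Group G] (a : ℕ → G) (m : ℕ) :
    ((List.range m).map fun i => (a i)⁻¹ * a (i + 1)).prod = (a 0)⁻¹ * a m := by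
  induction m with
  | zero => simp
  | succ m ih =>
    rw [List.range_succ, List.map_append, List.prod_append, ih, List.map_singleton,
      List.prod_singleton]
    group

theorem geod_of_cocompact
    (hgeo : ∀ x y : X, ∃ γ : ℝ → X, γ 0 = x ∧ γ (dist x y) = y ∧
        ∀ s ∈ Set.Icc (0 : ℝ) (dist x y), ∀ t ∈ Set.Icc (0 : ℝ) (dist x y),
          dist (γ s) (γ t) = |s - t|)
    (Γ : Subgroup (X ≃ᵢ X))
    (hco : ∃ K : Set X, IsCompact K ∧ ∀ x : X, ∃ g ∈ Γ, g x ∈ K) (x₀ : X) :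
    ∃ κ : ℝ, 0 ≤ κ ∧ Geod (isoLen Γ x₀) κ := by
  classical
  obtain ⟨κ, hκ, hnear⟩ := exists_near Γ hco x₀
  refine ⟨2 * κ, by positivity, fun M hM n g hg => ?_⟩
  rw [isoLen_len, dist_comm] at hg
  obtain ⟨γ, h0, h1, h2⟩ := hgeo x₀ ((g : X ≃ᵢ X) x₀)
  obtain ⟨d, hd⟩ : ∃ d : ℝ, d = dist x₀ ((g : X ≃ᵢ X) x₀) := ⟨_, rfl⟩
  rw [← hd] at hg h1 h2
  have hd0 : 0 ≤ d := by rw [hd]; exact dist_nonneg
  obtain ⟨k, hk⟩ : ∃ k : ℕ, k = n / M + 1 := ⟨_, rfl⟩
  have hk1 : 0 < k := by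
    rw [hk]
    exact Nat.succ_pos _
  have hk0 : (0 : ℝ) < (k : ℝ) := by exact_mod_cast hk1
  have hkM : (n : ℝ) ≤ M * k := by
    have h3 : n ≤ M * k := by
      have h5 := Nat.div_add_mod n M
      have h6 := Nat.mod_lt n hM
      have h7 : M * k = M * (n / M) + M := by rw [hk]; ring
      rw [h7]
      omega
    exact_mod_cast h3
  obtain ⟨p, hp⟩ : ∃ p : ℕ → X, ∀ i, p i = γ (d * i / k) := ⟨_, fun i => rfl⟩
  choose c hc using hnear
  obtain ⟨a, ha⟩ : ∃ a : ℕ → ↥Γ, ∀ i, a i = if i = 0 then 1 else if i = k then g else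
    c (p i) := ⟨_, fun i => rfl⟩
  have ha0 : a 0 = 1 := by rw [ha, if_pos rfl]
  have han : a k = g := by rw [ha, if_neg (by omega), if_pos rfl]
  have hclose : ∀ i, dist (p i) ((a i : X ≃ᵢ X) x₀) ≤ κ := by
    intro i
    by_cases hi0 : i = 0
    · rw [hi0, ha0, hp]
      have h3 : d * ((0 : ℕ) : ℝ) / k = 0 := by simp
      rw [h3, h0]
      have h4 : ((1 : ↥Γ) : X ≃ᵢ X) x₀ = x₀ := rfl
      rw [h4, dist_self]
      exact hκ
    · by_cases hin : i = k
      · rw [hin, han, hp]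
        have h3 : d * (k : ℝ) / k = d := by
          field_simp
        rw [h3, h1, dist_self]
        exact hκ
      · rw [ha, if_neg hi0, if_neg hin]
        exact hc (p i)
  have hstep : ∀ i < k, dist (p i) (p (i + 1)) ≤ M := by
    intro i hi
    have hi' : (i : ℝ) + 1 ≤ k := by
      have : i + 1 ≤ k := hi
      exact_mod_cast this
    have hi0 : (0 : ℝ) ≤ i := Nat.cast_nonneg _
    rw [hp, hp, h2]
    · have h3 : d * i / k - d * ((i + 1 : ℕ) : ℝ) / k = -(d / k) := by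
        push_cast
        ring
      rw [h3, abs_neg, abs_of_nonneg (by positivity), div_le_iff₀ hk0]
      linarith
    · constructor
      · positivity
      · rw [div_le_iff₀ hk0]
        nlinarith
    · constructor
      · positivity
      · rw [div_le_iff₀ hk0]
        push_cast
        nlinarith
  refine ⟨(List.range k).map fun i => (a i)⁻¹ * a (i + 1), ?_, ?_, ?_⟩
  · rw [List.length_map, List.length_range, hk]
  · intro s hs
    rw [List.mem_map] at hs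
    obtain ⟨i, hi, rfl⟩ := hs
    rw [List.mem_range] at hi
    rw [isoLen_inv_mul]
    have h3 := hclose i
    have h4 := hclose (i + 1)
    have h5 := hstep i hi
    have h6 := dist_triangle4 ((a (i + 1) : X ≃ᵢ X) x₀) (p (i + 1)) (p i) ((a i : X ≃ᵢ X) x₀)
    rw [dist_comm ((a (i + 1) : X ≃ᵢ X) x₀) (p (i + 1)), dist_comm (p (i + 1)) (p i)] at h6
    linarith
  · rw [geo_telescope a k, ha0, han]
    group

end Pool.Agent.H65.ST
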