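import Pool.Agent.H65.ST.Def

/-!
# HOM: the coarse isomorphism with `ℝ^r`

## Proof
For every `a` choose `n a : Fin r → ℤ` with `q (a - ∑ j, n a j • f j) ≤ R` (`hc`).

1. There is `D : ℝ` with `|n (a + b) j - n a j - n b j| ≤ D` for all `a b j`: the vector
   `n (a + b) - n a - n b` is in the finite set `{n | q (∑ n j • f j) ≤ 3 * R}` (triangle inequality
   for `(a+b) - Σ n(a+b)`, `a - Σ n a`, `b - Σ n b`); a finite set is bounded.
2. For fixed `a j` let `x k = n (2 ^ k • a) j / 2 ^ k`. By 1. (with `a = b = 2 ^ k • a`)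
   `|x (k + 1) - x k| ≤ D / 2 ^ (k + 1)`, so `x` converges (`cauchySeq_of_le_geometric_two` or
   `cauchySeq_of_le_geometric`); define `φ a j` as the limit. Then `|φ a j - n a j| ≤ D`
   (`dist_le_of_le_geometric_two_of_tendsto₀`), or `2 * D`, whatever is convenient.
3. Additivity: `2 ^ k • (a + b) = 2 ^ k • a + 2 ^ k • b`, so
   `|x k (a + b) - x k a - x k b| ≤ D / 2 ^ k → 0`. So `φ` is an additive homomorphism.
4. `φ (f j) = Pi.single j 1`: for every natural number `k`, `n (k • f j) - k • Pi.single j 1` is in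
   the finite set `{n | q (∑ n j • f j) ≤ R}`, so it is bounded independently of `k`; so
   `k • φ (f j) - k • Pi.single j 1 = φ (k • f j) - ...` is bounded (by 2.), hence
   `φ (f j) = Pi.single j 1` (divide by `k → ∞`).
5. If `q a ≤ R'` then `q (∑ n a j • f j) ≤ R + R'`, so `n a` is in a finite set, which depends on
   `R'` only, and `φ a` is bounded by 2.
6. If `‖φ a‖ ≤ C` then all `|n a j| ≤ C + 2 * D`, so `n a` is in a finite set of integer vectors,
   and `q a ≤ R + max over this set of q (∑ n j • f j)`.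
-/

set_option autoImplicit false

namespace Pool.Agent.H65.ST

theorem hom_fin_bdd {r : ℕ} (T : Set (Fin r → ℤ)) (hT : T.Finite) :
    ∃ D : ℝ, 0 ≤ D ∧ ∀ m ∈ T, ∀ j, |(m j : ℝ)| ≤ D := by
  classical
  refine ⟨∑ m ∈ hT.toFinset, ∑ j, |(m j : ℝ)|,
    Finset.sum_nonneg fun m _ => Finset.sum_nonneg fun j _ => abs_nonneg _, fun m hm j => ?_⟩
  refine le_trans ?_ (Finset.single_le_sum (f := fun m : Fin r → ℤ => ∑ j, |(m j : ℝ)|)
    (fun m _ => Finset.sum_nonneg fun j _ => abs_nonneg _) (hT.mem_toFinset.2 hm))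
  exact Finset.single_le_sum (f := fun j => |(m j : ℝ)|) (fun j _ => abs_nonneg _)
    (Finset.mem_univ j)

theorem hom_homog {A : Type*} [AddCommGroup A] (u : A → ℝ) (D : ℝ)
    (h : ∀ a b, |u (a + b) - u a - u b| ≤ D) : ∃ φ : A →+ ℝ, ∀ a, |φ a - u a| ≤ D := by
  have hd : ∀ a k, dist (u (2 ^ k • a) / 2 ^ k) (u (2 ^ (k + 1) • a) / 2 ^ (k + 1)) ≤
      D / 2 / 2 ^ k := by
    intro a k
    have h1 := h (2 ^ k • a) (2 ^ k • a)
    have h2 : 2 ^ k • a + 2 ^ k • a = 2 ^ (k + 1) • a := by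
      rw [← add_smul]
      congr 1
      ring
    rw [h2] at h1
    have h3 : u (2 ^ k • a) / 2 ^ k - u (2 ^ (k + 1) • a) / 2 ^ (k + 1) =
        -(u (2 ^ (k + 1) • a) - u (2 ^ k • a) - u (2 ^ k • a)) / 2 ^ (k + 1) := by
      field_simp
      ring
    have h4 : D / 2 / 2 ^ k = D / 2 ^ (k + 1) := by
      rw [pow_succ, div_div, mul_comm (2 : ℝ)]
    rw [Real.dist_eq, h3, abs_div, abs_neg, abs_of_pos (by positivity : (0 : ℝ) < 2 ^ (k + 1)), h4]
    exact div_le_div_of_nonneg_right h1 (by positivity)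
  have hlim : ∀ a, ∃ x : ℝ, Filter.Tendsto (fun k : ℕ => u (2 ^ k • a) / 2 ^ k) Filter.atTop
      (nhds x) := fun a => cauchySeq_tendsto_of_complete (cauchySeq_of_le_geometric_two (hd a))
  choose φ hφ using hlim
  refine ⟨AddMonoidHom.mk' φ ?_, ?_⟩
  · intro a b
    have h1 : Filter.Tendsto (fun k : ℕ => u (2 ^ k • (a + b)) / 2 ^ k - u (2 ^ k • a) / 2 ^ k -
        u (2 ^ k • b) / 2 ^ k) Filter.atTop (nhds (φ (a + b) - φ a - φ b)) :=
      ((hφ (a + b)).sub (hφ a)).sub (hφ b)
    have h2 : Filter.Tendsto (fun k : ℕ => u (2 ^ k • (a + b)) / 2 ^ k - u (2 ^ k • a) / 2 ^ k -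
        u (2 ^ k • b) / 2 ^ k) Filter.atTop (nhds 0) := by
      have h3 : Filter.Tendsto (fun k : ℕ => D * (1 / 2 : ℝ) ^ k) Filter.atTop (nhds 0) := by
        have := (tendsto_pow_atTop_nhds_zero_of_lt_one (r := (1 / 2 : ℝ)) (by norm_num)
          (by norm_num)).const_mul D
        rwa [mul_zero] at this
      refine squeeze_zero_norm (fun k => ?_) h3
      have h4 := h (2 ^ k • a) (2 ^ k • b)
      rw [← smul_add] at h4
      have h5 : u (2 ^ k • (a + b)) / 2 ^ k - u (2 ^ k • a) / 2 ^ k - u (2 ^ k • b) / 2 ^ k =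
        (u (2 ^ k • (a + b)) - u (2 ^ k • a) - u (2 ^ k • b)) * (1 / 2) ^ k := by
        rw [one_div, inv_pow]
        ring
      rw [h5, norm_mul, Real.norm_eq_abs, Real.norm_of_nonneg (by positivity)]
      gcongr
    have := tendsto_nhds_unique h1 h2
    linarith
  · intro a
    have h1 := dist_le_of_le_geometric_two_of_tendsto₀ (hd a) (hφ a)
    rw [dist_comm, Real.dist_eq] at h1
    simpa using h1

theorem exists_hom {A : Type*} [AddCommGroup A] (Q : PN A) {r : ℕ} (f : Fin r → A) (R : ℝ)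
    (hc : Cob Q f R) (hp : Prp Q f) :
    ∃ φ : A →+ (Fin r → ℝ), (∀ j, φ (f j) = Pi.single j 1) ∧
      (∀ R' : ℝ, ∃ C : ℝ, ∀ a, Q.q a ≤ R' → ‖φ a‖ ≤ C) ∧
      ∀ C : ℝ, ∃ R' : ℝ, ∀ a, ‖φ a‖ ≤ C → Q.q a ≤ R' := by
  classical
  choose n hn using hc
  obtain ⟨D, hD0, hD⟩ := hom_fin_bdd _ (hp (R + (R + R)))
  have hsum : ∀ m m' : Fin r → ℤ, ∑ j, (m j - m' j) • f j = ∑ j, m j • f j - ∑ j, m' j • f j := by
    intro m m'
    rw [← Finset.sum_sub_distrib]
    exact Finset.sum_congr rfl fun j _ => sub_smul _ _ _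
  have hquasi : ∀ j a b, |(n (a + b) j : ℝ) - n a j - n b j| ≤ D := by
    intro j a b
    have h1 : Q.q (∑ j, (n (a + b) j - n a j - n b j) • f j) ≤ R + (R + R) := by
      rw [hsum (fun j => n (a + b) j - n a j) (n b), hsum (n (a + b)) (n a)]
      have h2 : ∑ j, n (a + b) j • f j - ∑ j, n a j • f j - ∑ j, n b j • f j =
          -(a + b - ∑ j, n (a + b) j • f j) + ((a - ∑ j, n a j • f j) +
            (b - ∑ j, n b j • f j)) := by abel
      rw [h2]
      refine (Q.add _ _).trans (add_le_add ?_ ((Q.add _ _).trans (add_le_add (hn a) (hn b))))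
      rw [Q.neg]
      exact hn _
    have h3 := hD (fun j => n (a + b) j - n a j - n b j) h1 j
    push_cast at h3
    exact h3
  have hφ : ∀ j, ∃ φ : A →+ ℝ, ∀ a, |φ a - n a j| ≤ D := fun j =>
    hom_homog (fun a => (n a j : ℝ)) D (hquasi j)
  choose φ hφ using hφ
  refine ⟨AddMonoidHom.mk' (fun a j => φ j a) (by intro a b; ext j; exact map_add _ _ _),
    ?_, ?_, ?_⟩
  · intro j
    obtain ⟨D', hD'0, hD'⟩ := hom_fin_bdd _ (hp R)
    ext i
    show φ i (f j) = (Pi.single j 1 : Fin r → ℝ) i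
    have hk : ∀ k : ℕ, (k : ℝ) * |φ i (f j) - (Pi.single j 1 : Fin r → ℝ) i| ≤ D + D' := by
      intro k
      have h1 : Q.q (∑ i, (n (k • f j) i - (Pi.single j (k : ℤ) : Fin r → ℤ) i) • f i) ≤ R := by
        rw [hsum (n (k • f j)) (Pi.single j (k : ℤ))]
        have h2 : ∑ i, (Pi.single j (k : ℤ) : Fin r → ℤ) i • f i = k • f j := by
          rw [Finset.sum_eq_single j]
          · rw [Pi.single_eq_same, natCast_zsmul]
          · intro b _ hb
            rw [Pi.single_eq_of_ne hb, zero_smul]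
          · intro h
            exact absurd (Finset.mem_univ j) h
        rw [h2, ← neg_sub, Q.neg]
        exact hn _
      have h3 := hD' (fun i => n (k • f j) i - (Pi.single j (k : ℤ) : Fin r → ℤ) i) h1 i
      have h4 := hφ i (k • f j)
      rw [map_nsmul, nsmul_eq_mul] at h4
      have h5 : ((Pi.single j (k : ℤ) : Fin r → ℤ) i : ℝ) =
          k * (Pi.single j 1 : Fin r → ℝ) i := by
        by_cases hij : i = j
        · subst hij
          simp
        · rw [Pi.single_eq_of_ne hij, Pi.single_eq_of_ne hij]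
          simp
      push_cast at h3
      rw [h5] at h3
      have h6 : (k : ℝ) * |φ i (f j) - (Pi.single j 1 : Fin r → ℝ) i| =
          |((k : ℝ) * φ i (f j) - n (k • f j) i) +
            ((n (k • f j) i : ℝ) - k * (Pi.single j 1 : Fin r → ℝ) i)| := by
        rw [← Nat.abs_cast k, ← abs_mul]
        congr 1
        rw [Nat.abs_cast]
        ring
      rw [h6]
      exact (abs_add_le _ _).trans (add_le_add h4 h3)
    by_contra hne
    have hpos : 0 < |φ i (f j) - (Pi.single j 1 : Fin r → ℝ) i| := abs_pos.2 (sub_ne_zero.2 hne)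
    obtain ⟨k, hk2⟩ := exists_nat_gt ((D + D') / |φ i (f j) - (Pi.single j 1 : Fin r → ℝ) i|)
    rw [div_lt_iff₀ hpos] at hk2
    have := hk k
    linarith
  · intro R'
    obtain ⟨D', hD'0, hD'⟩ := hom_fin_bdd _ (hp (R + R'))
    refine ⟨D + D', fun a ha => ?_⟩
    rw [pi_norm_le_iff_of_nonneg (by linarith)]
    intro j
    have h1 : Q.q (∑ j, n a j • f j) ≤ R + R' := by
      have h2 : ∑ j, n a j • f j = -(a - ∑ j, n a j • f j) + a := by abel
      rw [h2]
      refine (Q.add _ _).trans (add_le_add ?_ ha)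
      rw [Q.neg]
      exact hn _
    have h3 := hD' _ h1 j
    have h4 := hφ j a
    show |φ j a| ≤ _
    have h5 : φ j a = (φ j a - n a j) + n a j := by ring
    rw [h5]
    exact (abs_add_le _ _).trans (add_le_add h4 h3)
  · intro C
    obtain ⟨N, hN⟩ := exists_nat_gt (C + D)
    obtain ⟨M, hM⟩ := ((Set.finite_Icc (fun _ => -(N : ℤ) : Fin r → ℤ)
      (fun _ => (N : ℤ))).image fun m => Q.q (∑ j, m j • f j)).bddAbove
    refine ⟨R + M, fun a ha => ?_⟩
    have h1 : n a ∈ Set.Icc (fun _ => -(N : ℤ) : Fin r → ℤ) (fun _ => (N : ℤ)) := by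
      have h2 : ∀ j, |(n a j : ℝ)| ≤ N := by
        intro j
        have h3 : |φ j a| ≤ C := (norm_le_pi_norm (fun j => φ j a) j).trans ha
        have h4 := hφ j a
        have h5 : (n a j : ℝ) = φ j a - (φ j a - n a j) := by ring
        rw [h5]
        refine (abs_sub _ _).trans ?_
        linarith
      constructor
      · intro j
        have h3 := (abs_le.1 (h2 j)).1
        exact_mod_cast h3
      · intro j
        have h3 := (abs_le.1 (h2 j)).2
        exact_mod_cast h3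
    have h2 : a = (a - ∑ j, n a j • f j) + ∑ j, n a j • f j := by abel
    rw [h2]
    exact (Q.add _ _).trans (add_le_add (hn a) (hM (Set.mem_image_of_mem _ h1)))

end Pool.Agent.H65.ST
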