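import Pool.Agent.H65.ST.Bur

/-!
# IRR: an irreducible group of operators without eigenvalues of modulus `> 1` is bounded

## Proof
Let `A` be the subalgebra of `Module.End ℂ V` generated by the operators `ρ g`. It is the linear
span of the `ρ g`, because these form a submonoid (`Algebra.adjoin_eq_span`). A subspace invariant
under `A` is invariant under all `ρ g`, so `A = ⊤` by `burnside`: the `ρ g` span `Module.End ℂ V`.

Trace bound: for every `g`, the trace of `ρ g` is the sum of the roots of its characteristic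
polynomial (with multiplicity, `Matrix.trace_eq_sum_roots_charpoly` for the matrix in a basis,
`LinearMap.charpoly_toMatrix`); the roots are eigenvalues
(`Module.End.hasEigenvalue_iff_isRoot_charpoly` or `Matrix` version), so they have modulus `≤ 1` and
`‖trace (ρ g)‖ ≤ d = finrank ℂ V`.

The linear map `Λ : End V → (G → ℂ)`, `T ↦ (g ↦ trace (T * ρ g))` is injective: if
`trace (T * ρ g) = 0` for all `g` then `trace (T * S) = 0` for all `S` by the span property, so
`T = 0` (the trace form is nondegenerate; e.g. take `S` the rank one operators `v ↦ f v • w`, whose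
product with `T` has trace `f (T w)`). So finitely many `g₁, …, g_k` suffice: choose `g_i` with
`ρ g_i` spanning `End V` (`End V` is finite dimensional; `Submodule.exists_finset...`, or a basis
extracted from the spanning family) and `Λ' : End V → (Fin k → ℂ)`,
`Λ' T i = trace (T * ρ g_i)`, is injective linear between finite dimensional spaces, so
`‖T‖ ≤ K * ‖Λ' T‖` for the operator norm on `V →L[ℂ] V` (`LinearMap.injective_iff_antilipschitz`).
With `T = ρ g`: `|trace (ρ g * ρ g_i)| = |trace (ρ (g * g_i))| ≤ d`, so `‖ρ g‖ ≤ K * d`.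
-/

set_option autoImplicit false

namespace Pool.Agent.H65.ST

theorem irr_trace {V : Type*} [AddCommGroup V] [Module ℂ V] [FiniteDimensional ℂ V]
    (T : Module.End ℂ V) (hspec : ∀ (z : ℂ) (v : V), v ≠ 0 → T v = z • v → ‖z‖ ≤ 1) :
    ‖LinearMap.trace ℂ V T‖ ≤ (Module.finrank ℂ V : ℝ) := by
  rw [Module.End.trace_eq_sum_roots_charpoly_of_splits (IsAlgClosed.splits _)]
  refine (norm_multiset_sum_le _).trans ?_
  have h1 : ∀ x ∈ T.charpoly.roots.map (fun x => ‖x‖), x ≤ (1 : ℝ) := by
    intro x hx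
    rw [Multiset.mem_map] at hx
    obtain ⟨z, hz, rfl⟩ := hx
    have h2 : T.HasEigenvalue z := by
      rw [Module.End.hasEigenvalue_iff_isRoot_charpoly]
      exact Polynomial.isRoot_of_mem_roots hz
    obtain ⟨v, hv⟩ := h2.exists_hasEigenvector
    exact hspec z v hv.2 hv.apply_eq_smul
  refine (Multiset.sum_le_card_nsmul _ _ h1).trans ?_
  rw [Multiset.card_map, nsmul_eq_mul, mul_one]
  have h3 := T.charpoly.card_roots'
  rw [LinearMap.charpoly_natDegree] at h3
  exact_mod_cast h3

theorem bounded_of_irreducible {V : Type*} [NormedAddCommGroup V] [NormedSpace ℂ V]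
    [FiniteDimensional ℂ V] {G : Type*} [Group G] (ρ : G →* (V →L[ℂ] V))
    (hirr : ∀ W : Submodule ℂ V, (∀ g, ∀ v ∈ W, ρ g v ∈ W) → W = ⊥ ∨ W = ⊤)
    (hspec : ∀ (g : G) (z : ℂ) (v : V), v ≠ 0 → ρ g v = z • v → ‖z‖ ≤ 1) :
    ∃ C : ℝ, ∀ g, ‖ρ g‖ ≤ C := by
  classical
  obtain ⟨ρ', hρ'⟩ : ∃ ρ' : G →* Module.End ℂ V, ∀ g v, ρ' g v = ρ g v :=
    ⟨{ toFun := fun g => (ρ g : V →ₗ[ℂ] V)
       map_one' := by rw [map_one]; rfl
       map_mul' := fun a b => by rw [map_mul]; rfl }, fun g v => rfl⟩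
  have hspan : Submodule.span ℂ (Set.range ρ') = ⊤ := by
    have hA := burnside (Algebra.adjoin ℂ (Set.range ρ')) (fun W hW => hirr W fun g v hv => by
      rw [← hρ']
      exact hW _ (Algebra.subset_adjoin ⟨g, rfl⟩) v hv)
    have h1 := Algebra.adjoin_eq_span ℂ (Set.range ρ')
    rw [hA, ← MonoidHom.coe_mrange, Submonoid.closure_eq, Algebra.top_toSubmodule] at h1
    rw [h1, MonoidHom.coe_mrange]
  have hfg : (Submodule.span ℂ (Set.range ρ')).FG := IsNoetherian.noetherian _
  obtain ⟨s, hs1, hs2⟩ := (Submodule.fg_span_iff_fg_span_finset_subset _).1 hfg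
  obtain ⟨Λ, hΛ⟩ : ∃ Λ : (V →L[ℂ] V) →ₗ[ℂ] (s → ℂ), ∀ T x, Λ T x =
      LinearMap.trace ℂ V ((T : V →ₗ[ℂ] V) * (x : Module.End ℂ V)) :=
    ⟨{ toFun := fun T x => LinearMap.trace ℂ V ((T : V →ₗ[ℂ] V) * (x : Module.End ℂ V))
       map_add' := by
        intro a b
        ext x
        rw [Pi.add_apply, ← map_add]
        congr 1
       map_smul' := by
        intro c a
        ext x
        rw [Pi.smul_apply, RingHom.id_apply, ← map_smul]
        congr 1 }, fun T x => rfl⟩
  have hinj : Function.Injective Λ := by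
    rw [injective_iff_map_eq_zero]
    intro T hT
    obtain ⟨μ, hμ⟩ : ∃ μ : Module.End ℂ V →ₗ[ℂ] ℂ, ∀ x, μ x =
        LinearMap.trace ℂ V ((T : V →ₗ[ℂ] V) * x) :=
      ⟨(LinearMap.trace ℂ V).comp (LinearMap.mulLeft ℂ (T : V →ₗ[ℂ] V)), fun x => rfl⟩
    have h1 : ∀ x, μ x = 0 := by
      intro x
      have h2 : Submodule.span ℂ (s : Set (Module.End ℂ V)) ≤ LinearMap.ker μ := by
        rw [Submodule.span_le]
        intro y hy
        have h3 := congrFun hT ⟨y, hy⟩
        rw [hΛ] at h3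
        show μ y = 0
        rw [hμ]
        exact h3
      rw [← hs2, hspan] at h2
      exact h2 Submodule.mem_top
    ext w
    show T w = 0
    rw [← Module.forall_dual_apply_eq_zero_iff ℂ]
    intro φ
    have h4 := h1 (φ.smulRight w)
    rw [hμ] at h4
    have h5 : (T : V →ₗ[ℂ] V) * (φ.smulRight w) = φ.smulRight (T w) := by
      ext v
      show T (φ v • w) = φ v • T w
      rw [map_smul]
    rw [h5, LinearMap.trace_smulRight] at h4
    exact h4
  obtain ⟨K, hK, hanti⟩ := Λ.injective_iff_antilipschitz.1 hinj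
  refine ⟨K * Module.finrank ℂ V, fun g => ?_⟩
  have h1 := hanti.le_mul_dist (ρ g) 0
  rw [dist_zero_right, map_zero, dist_zero_right] at h1
  refine h1.trans (mul_le_mul_of_nonneg_left ?_ K.coe_nonneg)
  rw [pi_norm_le_iff_of_nonneg (Nat.cast_nonneg _)]
  rintro ⟨x, hx⟩
  rw [hΛ]
  obtain ⟨g', rfl⟩ := hs1 hx
  have h2 : (ρ g : V →ₗ[ℂ] V) * ρ' g' = ρ' (g * g') := by
    ext v
    rw [hρ', map_mul]
    show ρ g (ρ' g' v) = ρ g (ρ g' v)
    rw [hρ']
  show ‖LinearMap.trace ℂ V ((ρ g : V →ₗ[ℂ] V) * ρ' g')‖ ≤ _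
  rw [h2]
  exact irr_trace _ fun z v hv h => hspec (g * g') z v hv (by rw [← hρ']; exact h)

end Pool.Agent.H65.ST
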