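import Pool.Agent.H65.ST.Def

/-!
# ISO: the length function of a group of isometries of a proper space

## Proof
`isoLen_cov`: the set of points `g x₀`, `g ∈ Γ`, `dist (g x₀) x₀ ≤ R`, is contained in the compact
ball `closedBall x₀ R`, so it is totally bounded, and there are finitely many elements `f` of `Γ`
such that every point of the set is at distance `≤ ε` from one of the `f x₀`
(`Metric.totallyBounded_iff`, `TotallyBounded.subset`, or: a maximal `ε`-separated finite subset).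
And `dist ((f⁻¹ * g) x₀) x₀ = dist (g x₀) (f x₀)` because `f` is an isometry.
-/

set_option autoImplicit false

namespace Pool.Agent.H65.ST

variable {X : Type*} [MetricSpace X] [ProperSpace X]

theorem iso_dist_inv {X : Type*} [MetricSpace X] (Γ : Subgroup (X ≃ᵢ X)) (f : ↥Γ) (x y : X) :
    dist (((f⁻¹ : ↥Γ) : X ≃ᵢ X) x) y = dist x ((f : X ≃ᵢ X) y) := by
  have h := IsometryEquiv.dist_eq (f : X ≃ᵢ X) (((f⁻¹ : ↥Γ) : X ≃ᵢ X) x) y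
  rw [← h]
  have h2 : (f : X ≃ᵢ X) (((f⁻¹ : ↥Γ) : X ≃ᵢ X) x) = x :=
    IsometryEquiv.apply_inv_self (f : X ≃ᵢ X) x
  rw [h2]

theorem iso_len_inv_mul {X : Type*} [MetricSpace X] (Γ : Subgroup (X ≃ᵢ X)) (x₀ : X) (g h : ↥Γ) :
    dist (((g⁻¹ * h : ↥Γ) : X ≃ᵢ X) x₀) x₀ = dist ((h : X ≃ᵢ X) x₀) ((g : X ≃ᵢ X) x₀) :=
  iso_dist_inv Γ g ((h : X ≃ᵢ X) x₀) x₀

theorem isoLen_cov (Γ : Subgroup (X ≃ᵢ X)) (x₀ : X) (R ε : ℝ) (hε : 0 < ε) :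
    ∃ F : Finset ↥Γ, ∀ g : ↥Γ, dist ((g : X ≃ᵢ X) x₀) x₀ ≤ R →
      ∃ f ∈ F, dist (((f⁻¹ * g : ↥Γ) : X ≃ᵢ X) x₀) x₀ ≤ ε := by
  classical
  have hsub : {y : X | ∃ g : ↥Γ, (g : X ≃ᵢ X) x₀ = y ∧ dist y x₀ ≤ R} ⊆
      Metric.closedBall x₀ R := by
    rintro y ⟨g, -, h⟩
    exact h
  have htb : TotallyBounded {y : X | ∃ g : ↥Γ, (g : X ≃ᵢ X) x₀ = y ∧ dist y x₀ ≤ R} :=
    (isCompact_closedBall x₀ R).totallyBounded.subset hsub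
  obtain ⟨t, ht1, ht2, ht3⟩ := Metric.finite_approx_of_totallyBounded htb ε hε
  have hch : ∀ y : X, ∃ g : ↥Γ, y ∈ t → (g : X ≃ᵢ X) x₀ = y := by
    intro y
    by_cases hy : y ∈ t
    · obtain ⟨g, hg, -⟩ := ht1 hy
      exact ⟨g, fun _ => hg⟩
    · exact ⟨1, fun h => absurd h hy⟩
  choose c hc using hch
  refine ⟨ht2.toFinset.image c, fun g hg => ?_⟩
  have h1 := ht3 (⟨g, rfl, hg⟩ : (g : X ≃ᵢ X) x₀ ∈
    {y : X | ∃ g : ↥Γ, (g : X ≃ᵢ X) x₀ = y ∧ dist y x₀ ≤ R})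
  rw [Set.mem_iUnion₂] at h1
  obtain ⟨y, hy, h2⟩ := h1
  refine ⟨c y, Finset.mem_image_of_mem _ (ht2.mem_toFinset.2 hy), ?_⟩
  rw [iso_len_inv_mul, hc y hy]
  exact (Metric.mem_ball.1 h2).le

theorem isoLen_inv (Γ : Subgroup (X ≃ᵢ X)) (x₀ : X) (g : ↥Γ) :
    dist (((g⁻¹ : ↥Γ) : X ≃ᵢ X) x₀) x₀ = dist ((g : X ≃ᵢ X) x₀) x₀ := by
  rw [iso_dist_inv, dist_comm]

theorem isoLen_mul (Γ : Subgroup (X ≃ᵢ X)) (x₀ : X) (g h : ↥Γ) :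
    dist (((g * h : ↥Γ) : X ≃ᵢ X) x₀) x₀ ≤
      dist ((g : X ≃ᵢ X) x₀) x₀ + dist ((h : X ≃ᵢ X) x₀) x₀ := by
  have h1 : (((g * h : ↥Γ) : X ≃ᵢ X) x₀) = (g : X ≃ᵢ X) ((h : X ≃ᵢ X) x₀) := rfl
  rw [h1]
  refine (dist_triangle _ ((g : X ≃ᵢ X) x₀) _).trans ?_
  rw [IsometryEquiv.dist_eq, add_comm]

/-- The length function `g ↦ dist (g x₀) x₀` of a group `Γ` of isometries. -/
noncomputable def isoLen (Γ : Subgroup (X ≃ᵢ X)) (x₀ : X) : Len ↥Γ where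
  len g := dist ((g : X ≃ᵢ X) x₀) x₀
  one := by simp
  inv := isoLen_inv Γ x₀
  mul := isoLen_mul Γ x₀
  cov := isoLen_cov Γ x₀

theorem isoLen_len (Γ : Subgroup (X ≃ᵢ X)) (x₀ : X) (g : ↥Γ) :
    (isoLen Γ x₀).len g = dist ((g : X ≃ᵢ X) x₀) x₀ := rfl

/-- `len (g⁻¹ * h)` is the distance of `g x₀` and `h x₀`. -/
theorem isoLen_inv_mul (Γ : Subgroup (X ≃ᵢ X)) (x₀ : X) (g h : ↥Γ) :
    (isoLen Γ x₀).len (g⁻¹ * h) = dist ((h : X ≃ᵢ X) x₀) ((g : X ≃ᵢ X) x₀) :=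
  iso_len_inv_mul Γ x₀ g h

end Pool.Agent.H65.ST
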