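import Pool.Agent.H65.ST.Def

/-!
# UNI: homomorphisms that are bounded on bounded sets factor through `φ`

## Proof
`ψ a = χ a - ∑ j, φ a j * χ (f j)` is an additive homomorphism `A → ℝ` with `ψ (f j) = 0` (because
`φ (f j) = Pi.single j 1`), so `ψ (∑ n j • f j) = 0` for all integer vectors `n`. By `hc` every
`a : A` differs from such a sum by an element `b` with `q b ≤ R`, and `|ψ b| ≤ C` with `C`
independent of `b` (`hφ`, `hχ` with `R' = R`). So `|ψ a| ≤ C` for all `a`; then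
`k * |ψ a| = |ψ (k • a)| ≤ C` for all natural `k`, so `ψ a = 0`.
-/

set_option autoImplicit false

namespace Pool.Agent.H65.ST

theorem hom_factor {A : Type*} [AddCommGroup A] (Q : PN A) {r : ℕ} (f : Fin r → A) (R : ℝ)
    (hc : Cob Q f R) (φ : A →+ (Fin r → ℝ)) (h1 : ∀ j, φ (f j) = Pi.single j 1)
    (hφ : ∀ R' : ℝ, ∃ C : ℝ, ∀ a, Q.q a ≤ R' → ‖φ a‖ ≤ C)
    (χ : A →+ ℝ) (hχ : ∀ R' : ℝ, ∃ C : ℝ, ∀ a, Q.q a ≤ R' → |χ a| ≤ C) (a : A) :
    χ a = ∑ j, φ a j * χ (f j) := by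
  obtain ⟨ψ, hψ⟩ : ∃ ψ : A →+ ℝ, ∀ a, ψ a = χ a - ∑ j, φ a j * χ (f j) :=
    ⟨{ toFun := fun a => χ a - ∑ j, φ a j * χ (f j)
       map_zero' := by simp
       map_add' := by
        intro x y
        simp only [map_add, Pi.add_apply, add_mul, Finset.sum_add_distrib]
        ring }, fun a => rfl⟩
  have hf : ∀ i, ψ (f i) = 0 := by
    intro i
    rw [hψ, h1]
    simp [Pi.single_apply]
  have hsum : ∀ n : Fin r → ℤ, ψ (∑ j, n j • f j) = 0 := by
    intro n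
    rw [map_sum]
    refine Finset.sum_eq_zero fun j _ => ?_
    rw [map_zsmul, hf, smul_zero]
  obtain ⟨C1, hC1⟩ := hφ R
  obtain ⟨C2, hC2⟩ := hχ R
  obtain ⟨C, hC⟩ : ∃ C : ℝ, ∀ a, |ψ a| ≤ C := by
    refine ⟨C2 + ∑ j, C1 * |χ (f j)|, fun a => ?_⟩
    obtain ⟨n, hn⟩ := hc a
    have h2 : ψ a = ψ (a - ∑ j, n j • f j) := by
      rw [map_sub, hsum, sub_zero]
    rw [h2, hψ]
    refine (abs_sub _ _).trans (add_le_add (hC2 _ hn) ?_)
    refine (Finset.abs_sum_le_sum_abs _ _).trans (Finset.sum_le_sum fun j _ => ?_)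
    rw [abs_mul]
    refine mul_le_mul_of_nonneg_right ?_ (abs_nonneg _)
    exact (norm_le_pi_norm (φ (a - ∑ j, n j • f j)) j).trans (hC1 _ hn)
  have h0 : ψ a = 0 := by
    by_contra hne
    have hpos : 0 < |ψ a| := abs_pos.2 hne
    obtain ⟨k, hk⟩ := exists_nat_gt (C / |ψ a|)
    have h3 := hC (k • a)
    rw [map_nsmul, nsmul_eq_mul, abs_mul, Nat.abs_cast] at h3
    rw [div_lt_iff₀ hpos] at hk
    linarith
  rw [hψ] at h0
  linarith

end Pool.Agent.H65.ST
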