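import Pool.Agent.H65.ST.Gen
import Pool.Agent.H65.ST.Drp
import Pool.Agent.H65.ST.Hom
import Pool.Agent.H65.ST.Uni

/-!
# LAY: the coarse structure of the abelianization of a boundedly generated subgroup

## Proof
`exists_prp`: let `r` be the least number for which there are `f : Fin r → A` and `R` with
`Cob Q f R` (`Nat.find`). If `Prp Q f` fails then `r ≠ 0` (for `r = 0` the type `Fin 0 → ℤ` has one
element, so every set is finite) and `drop` contradicts minimality.

`exists_layer`: let `A = Additive (Abelianization ↥H)` with the pseudo-norm `Q` of `exists_abel`.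
From `BG L H` with constant `R`: every element of `↥H` is a product of elements `h^(±1)` with
`h ∈ H`, `len h ≤ R`, so the elements of `A` with `Q.q ≤ R` generate `A`
(`Abelianization.of` is onto; `Subgroup.closure_induction` on `H ≤ closure ...`). So `exists_cob`,
`exists_prp` and `exists_hom` give `f' : Fin r → A`, `φ' : A →+ (Fin r → ℝ)`. Choose `f j : G` in
`H` over `f' j`, and let `φ g = φ' (of g)` if `g ∈ H` and `0` otherwise. Then
* `hom`, `single` are clear; `bdd` from `Q.q (of h) ≤ len h`;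
* `prp`: if `‖φ h‖ ≤ C` then `Q.q (of h) ≤ R'`, so there is `b ∈ H` with `of b = of h` and
  `len b ≤ R' + 1`; put `η = h * b⁻¹ ∈ ⁅H, H⁆` (its class in `Abelianization ↥H` is trivial; the
  kernel of `Abelianization.of` is `commutator ↥H` and `Subgroup.map_subtype_commutator`), so
  `η⁻¹ * h = b`;
* `univ`: `χ` restricted to `↥H` is a homomorphism to `ℝ`, so it factors as `χ'` through the
  abelianization (`Abelianization.lift` to `Multiplicative ℝ`), and if `Q.q a ≤ R'` there is
  `h ∈ H` over `a` with `len h ≤ R' + 1`, so `χ'` is bounded on bounded sets; use `hom_factor`.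
-/

set_option autoImplicit false

namespace Pool.Agent.H65.ST

theorem exists_prp {A : Type*} [AddCommGroup A] (Q : PN A)
    (h : ∃ (r : ℕ) (f : Fin r → A) (R : ℝ), Cob Q f R) :
    ∃ (r : ℕ) (f : Fin r → A) (R : ℝ), Cob Q f R ∧ Prp Q f := by
  classical
  obtain ⟨r, hr, hmin⟩ : ∃ r, (∃ (f : Fin r → A) (R : ℝ), Cob Q f R) ∧
      ∀ k < r, ¬ ∃ (f : Fin k → A) (R : ℝ), Cob Q f R :=
    ⟨Nat.find h, Nat.find_spec h, fun k hk => Nat.find_min h hk⟩
  obtain ⟨f, R, hf⟩ := hr
  refine ⟨r, f, R, hf, ?_⟩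
  by_contra hp
  cases r with
  | zero =>
    apply hp
    intro R'
    exact Set.toFinite _
  | succ k =>
    obtain ⟨f', R', hf'⟩ := drop Q f R hf hp
    exact hmin k (Nat.lt_succ_self k) ⟨f', R', hf'⟩

theorem exists_layer {G : Type*} [Group G] (L : Len G) (H : Subgroup G) (hH : BG L H) :
    ∃ (r : ℕ) (f : Fin r → G) (φ : G → Fin r → ℝ), Layer L H f φ := by
  classical
  obtain ⟨Q, hQ1, hQ2⟩ := exists_abel L H
  obtain ⟨R, hR⟩ := hH
  have hsurj : ∀ a : Additive (Abelianization ↥H), ∃ h : ↥H,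
      Additive.ofMul (Abelianization.of h) = a := by
    intro a
    obtain ⟨h, hh⟩ := QuotientGroup.mk_surjective (Additive.toMul a)
    exact ⟨h, congrArg Additive.ofMul hh⟩
  have hgen : AddSubgroup.closure {a : Additive (Abelianization ↥H) | Q.q a ≤ R} = ⊤ := by
    rw [eq_top_iff]
    intro a _
    obtain ⟨⟨g, hg⟩, rfl⟩ := hsurj a
    have key : ∀ x ∈ Subgroup.closure {h : G | h ∈ H ∧ L.len h ≤ R}, ∃ hx : x ∈ H,
        Additive.ofMul (Abelianization.of (⟨x, hx⟩ : ↥H)) ∈
          AddSubgroup.closure {a : Additive (Abelianization ↥H) | Q.q a ≤ R} := by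
      intro x hx
      induction hx using Subgroup.closure_induction with
      | mem x hx =>
        exact ⟨hx.1, AddSubgroup.subset_closure ((hQ1 ⟨x, hx.1⟩).trans hx.2)⟩
      | one => exact ⟨H.one_mem, AddSubgroup.zero_mem _⟩
      | mul x y _ _ ihx ihy =>
        obtain ⟨hx, hx2⟩ := ihx
        obtain ⟨hy, hy2⟩ := ihy
        exact ⟨H.mul_mem hx hy, AddSubgroup.add_mem _ hx2 hy2⟩
      | inv x _ ihx =>
        obtain ⟨hx, hx2⟩ := ihx
        exact ⟨H.inv_mem hx, AddSubgroup.neg_mem _ hx2⟩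
    obtain ⟨_, h2⟩ := key g (hR hg)
    exact h2
  obtain ⟨r, f', R1, hf1, hf2⟩ := exists_prp Q (exists_cob Q R hgen)
  obtain ⟨φ', hφ1, hφ2, hφ3⟩ := exists_hom Q f' R1 hf1 hf2
  choose f hf using fun j => hsurj (f' j)
  obtain ⟨φ, hφ⟩ : ∃ φ : G → Fin r → ℝ, ∀ (g : G) (hg : g ∈ H),
      φ g = φ' (Additive.ofMul (Abelianization.of (⟨g, hg⟩ : ↥H))) := by
    refine ⟨fun g => if hg : g ∈ H then
      φ' (Additive.ofMul (Abelianization.of (⟨g, hg⟩ : ↥H))) else 0, fun g hg => ?_⟩
    exact dif_pos hg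
  have hφf : ∀ j, φ (f j : G) = φ' (f' j) := by
    intro j
    rw [hφ _ (f j).2, ← hf j]
  refine ⟨r, fun j => (f j : G), φ, ⟨fun j => (f j).2, ?_, ?_, ?_, ?_, ?_⟩⟩
  · intro g hg h hh
    rw [hφ _ (H.mul_mem hg hh), hφ _ hg, hφ _ hh, ← map_add]
    rfl
  · intro j
    rw [hφf, hφ1]
  · intro R'
    obtain ⟨C, hC⟩ := hφ2 R'
    refine ⟨C, fun h hh hl => ?_⟩
    rw [hφ _ hh]
    exact hC _ ((hQ1 ⟨h, hh⟩).trans hl)
  · intro C
    obtain ⟨R', hR'⟩ := hφ3 C
    refine ⟨R' + 1, fun h hh hl => ?_⟩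
    rw [hφ _ hh] at hl
    obtain ⟨b, hb1, hb2⟩ := hQ2 _ R' (hR' _ hl)
    refine ⟨h * (b : G)⁻¹, ?_, ?_⟩
    · have h1 : (⟨h, hh⟩ : ↥H) * b⁻¹ ∈ commutator ↥H := by
        rw [← Abelianization.ker_of, MonoidHom.mem_ker, map_mul, map_inv, mul_inv_eq_one]
        exact (congrArg Additive.toMul hb1).symm
      have h2 := Subgroup.mem_map_of_mem H.subtype h1
      rw [Subgroup.map_subtype_commutator] at h2
      exact h2
    · have h3 : (h * (b : G)⁻¹)⁻¹ * h = b := by group
      rw [h3]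
      exact hb2
  · intro χ hχ1 hχ2 h hh
    obtain ⟨χ', hχ'⟩ : ∃ χ' : Additive (Abelianization ↥H) →+ ℝ, ∀ h : ↥H,
        χ' (Additive.ofMul (Abelianization.of h)) = χ h := by
      have hone : χ 1 = 0 := by
        have h := hχ1 1 H.one_mem 1 H.one_mem
        rw [mul_one] at h
        linarith
      obtain ⟨ψ, hψ⟩ : ∃ ψ : ↥H →* Multiplicative ℝ, ∀ h : ↥H,
          Multiplicative.toAdd (ψ h) = χ h :=
        ⟨{ toFun := fun h => Multiplicative.ofAdd (χ (h : G))
           map_one' := by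
            rw [H.coe_one, hone]
            rfl
           map_mul' := by
            intro a b
            rw [H.coe_mul, hχ1 _ a.2 _ b.2]
            rfl }, fun h => rfl⟩
      refine ⟨{ toFun := fun a => Multiplicative.toAdd (Abelianization.lift ψ (Additive.toMul a))
                map_zero' := ?_
                map_add' := ?_ }, fun h => ?_⟩
      · rw [toMul_zero, map_one]
        rfl
      · intro a b
        rw [toMul_add, map_mul]
        rfl
      · show Multiplicative.toAdd (Abelianization.lift ψ (Abelianization.of h)) = _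
        rw [Abelianization.lift_apply_of]
        exact hψ h
    have h1 := hom_factor Q f' R1 hf1 φ' hφ1 hφ2 χ' (by
      intro R'
      obtain ⟨C, hC⟩ := hχ2 (R' + 1)
      refine ⟨C, fun a ha => ?_⟩
      obtain ⟨b, hb1, hb2⟩ := hQ2 a R' ha
      rw [← hb1, hχ']
      exact hC _ b.2 hb2) (Additive.ofMul (Abelianization.of (⟨h, hh⟩ : ↥H)))
    rw [hχ'] at h1
    rw [hφ _ hh]
    refine h1.trans (Finset.sum_congr rfl fun j _ => ?_)
    rw [← hf j, hχ']

end Pool.Agent.H65.ST
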