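import Pool.Agent.H65.ST.Def

/-!
# MIL: without trees, conjugates of a bounded piece are generated by finitely many of them

Milnor's lemma for groups with a length function, by strictly increasing chains of subgroups.

## Proof
`s` normalises `N`. Put `K = {k ∈ N | len k ≤ R}`, which contains `1` and is closed under inverses
(`len 1 = 0 ≤ R` may fail if `R < 0`; then `K` is empty and the claim is trivial, `len ≥ 0`).
For `μ : ℕ` let `P μ` be the subgroup generated by all `s^j * k * s^(-j)`, `0 ≤ j < μ`, `k ∈ K`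
(natural exponents `j`). So `P 0 = ⊥`, `P μ ≤ P (μ + 1)`, `K ⊆ P μ` for `μ ≥ 1`,
`s (P μ) s⁻¹ ≤ P (μ + 1)`, and `P μ` is generated by `K` and `s (P (μ - 1)) s⁻¹` for `μ ≥ 1`.

Suppose the claim is false. We construct trees (contradiction to `hT`), with steps bounded by
`C = R + len s` (`R ≥ 0` here). Let `m` be given. The claim fails for `m`, so there is `a ∈ K` which
is not in the subgroup `M m` generated by the `s^(-i) * k * s^i`, `1 ≤ i ≤ m`, `k ∈ K`. Note
`M μ ≤ M m` for `μ ≤ m` and `s^μ (M μ) s^(-μ) = P μ` (conjugate the generators: `μ - i` runs through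
`0 ≤ j < μ`), so `s^μ * a^(±1) * s^(-μ) ∉ P μ` for `1 ≤ μ ≤ m`. Define

  `f [] = 1`, `f (b :: w) = f w * (if b then a else 1) * s⁻¹`.

Steps: `(f w)⁻¹ * f (b :: w) = a^b * s⁻¹` has length `≤ R + len s`.
Claim: for `w ≠ w'` of the same length `n ≤ m` the element `x = (f w)⁻¹ * f w'` is of the form
`x = A * (s^μ * a^δ * s^(-μ)) * B` with `1 ≤ μ ≤ n`, `δ = ±1`, `A, B ∈ s (P (μ - 1)) s⁻¹`.
Induction: `(f (b :: w))⁻¹ * f (b' :: w') = s * a^(-b) * x * a^(b') * s⁻¹`. If `w = w'` then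
`x = 1`, `b ≠ b'` and this is `s * a^(±1) * s⁻¹` (`μ = 1`, `A = B = 1`). If `w ≠ w'` it is
`(s (a^(-b) A) s⁻¹) (s^(μ+1) a^δ s^(-μ-1)) (s (B a^(b')) s⁻¹)` and `a^(-b) A`, `B a^(b')` are in
`P μ` (as `a ∈ K ⊆ P μ` and `s (P (μ - 1)) s⁻¹ ≤ P μ`, `μ ≥ 1`). This is the claim with `μ + 1`.

So `x ∈ N` (everything is in `N`), and `x ∉ P μ` because `A, B ∈ P μ`; as `K ⊆ P μ`, `x ∉ K`, i.e.
`len x > R ≥ R₀`. So `Trees L R₀` holds, contradiction.
-/

set_option autoImplicit false

namespace Pool.Agent.H65.ST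

/-- The subgroup generated by the `s^j * k * s^(-j)`, `j < μ`. -/
private def PP {G : Type*} [Group G] (K : Set G) (s : G) (μ : ℕ) : Subgroup G :=
  Subgroup.closure {x : G | ∃ (j : ℕ) (k : G), j < μ ∧ k ∈ K ∧ x = s ^ j * k * (s ^ j)⁻¹}

private theorem PP_gen {G : Type*} [Group G] {K : Set G} {s : G} {μ j : ℕ} {k : G}
    (hj : j < μ) (hk : k ∈ K) : s ^ j * k * (s ^ j)⁻¹ ∈ PP K s μ :=
  Subgroup.subset_closure ⟨j, k, hj, hk, rfl⟩

private theorem PP_K {G : Type*} [Group G] {K : Set G} {s : G} {μ : ℕ} {k : G}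
    (hμ : 1 ≤ μ) (hk : k ∈ K) : k ∈ PP K s μ := by
  have := PP_gen (K := K) (s := s) (μ := μ) (j := 0) (k := k) (by omega) hk
  simpa using this

private theorem PP_conj {G : Type*} [Group G] {K : Set G} {s : G} {μ : ℕ} {x : G}
    (hx : x ∈ PP K s μ) : s * x * s⁻¹ ∈ PP K s (μ + 1) := by
  induction hx using Subgroup.closure_induction with
  | mem x hx =>
    obtain ⟨j, k, hj, hk, rfl⟩ := hx
    have := PP_gen (K := K) (s := s) (μ := μ + 1) (j := j + 1) (k := k) (by omega) hk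
    have h2 : s * (s ^ j * k * (s ^ j)⁻¹) * s⁻¹ = s ^ (j + 1) * k * (s ^ (j + 1))⁻¹ := by
      rw [pow_succ']; group
    rw [h2]; exact this
  | one => simp [Subgroup.one_mem]
  | mul x y _ _ hx hy =>
    have : s * (x * y) * s⁻¹ = (s * x * s⁻¹) * (s * y * s⁻¹) := by group
    rw [this]; exact Subgroup.mul_mem _ hx hy
  | inv x _ hx =>
    have : s * x⁻¹ * s⁻¹ = (s * x * s⁻¹)⁻¹ := by group
    rw [this]; exact Subgroup.inv_mem _ hx

private theorem PP_mono {G : Type*} [Group G] {K : Set G} {s : G} {μ ν : ℕ} (h : μ ≤ ν) :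
    PP K s μ ≤ PP K s ν := by
  apply Subgroup.closure_mono
  rintro x ⟨j, k, hj, hk, rfl⟩
  exact ⟨j, k, by omega, hk, rfl⟩

/-- conjugating back -/
private theorem PP_back {G : Type*} [Group G] {K : Set G} {s : G} {μ : ℕ} {x : G}
    (hx : x ∈ PP K s μ) : (s ^ μ)⁻¹ * x * s ^ μ ∈
      Subgroup.closure {x : G | ∃ (i : ℕ) (k' : G), 1 ≤ i ∧ i ≤ μ ∧ k' ∈ K ∧
        x = (s ^ i)⁻¹ * k' * s ^ i} := by
  induction hx using Subgroup.closure_induction with
  | mem x hx =>
    obtain ⟨j, k, hj, hk, rfl⟩ := hx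
    apply Subgroup.subset_closure
    refine ⟨μ - j, k, by omega, by omega, hk, ?_⟩
    have h2 : s ^ μ = s ^ j * s ^ (μ - j) := by rw [← pow_add]; congr 1; omega
    rw [h2]; group
  | one => simp [Subgroup.one_mem]
  | mul x y _ _ hx hy =>
    have : (s ^ μ)⁻¹ * (x * y) * s ^ μ = ((s ^ μ)⁻¹ * x * s ^ μ) * ((s ^ μ)⁻¹ * y * s ^ μ) := by
      group
    rw [this]; exact Subgroup.mul_mem _ hx hy
  | inv x _ hx =>
    have : (s ^ μ)⁻¹ * x⁻¹ * s ^ μ = ((s ^ μ)⁻¹ * x * s ^ μ)⁻¹ := by group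
    rw [this]; exact Subgroup.inv_mem _ hx

/-- The tree. -/
private def FF {G : Type*} [Group G] (a s : G) : List Bool → G
  | [] => 1
  | b :: w => FF a s w * (if b then a else 1) * s⁻¹

theorem milnor {G : Type*} [Group G] (L : Len G) (R₀ R : ℝ) (hR : R₀ ≤ R) (hT : ¬ Trees L R₀)
    (N : Subgroup G) (s : G) (hs : ∀ n ∈ N, s * n * s⁻¹ ∈ N) (hs' : ∀ n ∈ N, s⁻¹ * n * s ∈ N) :
    ∃ m : ℕ, ∀ k ∈ N, L.len k ≤ R →
      k ∈ Subgroup.closure {x : G | ∃ (i : ℕ) (k' : G), 1 ≤ i ∧ i ≤ m ∧ k' ∈ N ∧ L.len k' ≤ R ∧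
        x = (s ^ i)⁻¹ * k' * s ^ i} := by
  classical
  by_contra hcon
  push Not at hcon
  apply hT
  refine ⟨R + L.len s, fun m => ?_⟩
  obtain ⟨a, haN, haR, ham⟩ := hcon m
  have hnn : ∀ g, 0 ≤ L.len g := by
    intro g
    have h1 := L.mul g g⁻¹
    rw [mul_inv_cancel, L.one, L.inv] at h1
    linarith
  have hR0 : 0 ≤ R := (hnn a).trans haR
  set K : Set G := {k | k ∈ N ∧ L.len k ≤ R} with hK
  have haK : a ∈ K := ⟨haN, haR⟩
  have key : ∀ μ : ℕ, μ ≤ m → ∀ a' : G, (a' = a ∨ a' = a⁻¹) →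
      s ^ μ * a' * (s ^ μ)⁻¹ ∉ PP K s μ := by
    intro μ hμ a' ha' hmem
    apply ham
    have h1 := PP_back hmem
    have h2 : (s ^ μ)⁻¹ * (s ^ μ * a' * (s ^ μ)⁻¹) * s ^ μ = a' := by group
    rw [h2] at h1
    have h3 : a ∈ Subgroup.closure {x : G | ∃ (i : ℕ) (k' : G), 1 ≤ i ∧ i ≤ μ ∧ k' ∈ K ∧
        x = (s ^ i)⁻¹ * k' * s ^ i} := by
      rcases ha' with rfl | rfl
      · exact h1
      · exact (Subgroup.inv_mem_iff _).1 h1
    refine Subgroup.closure_mono ?_ h3
    rintro x ⟨i, k', h4, h5, h6, rfl⟩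
    exact ⟨i, k', h4, h5.trans hμ, h6.1, h6.2, rfl⟩
  refine ⟨FF a s, ?_, ?_⟩
  · intro w b _
    have h1 : (FF a s w)⁻¹ * FF a s (b :: w) = (if b then a else 1) * s⁻¹ := by
      simp only [FF]; group
    rw [h1]
    refine (L.mul _ _).trans ?_
    rw [L.inv]
    have : L.len (if b then a else 1) ≤ R := by
      split_ifs
      · exact haR
      · rw [L.one]; exact hR0
    linarith
  · -- the structure of the differences
    have hstruct : ∀ w w' : List Bool, w.length = w'.length →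
        ((FF a s w)⁻¹ * FF a s w' ∈ N) ∧ (w ≠ w' → ∃ (μ : ℕ) (A B a' : G), 1 ≤ μ ∧
          μ ≤ w.length ∧ (∃ A₀ ∈ PP K s (μ - 1), A = s * A₀ * s⁻¹) ∧
          (∃ B₀ ∈ PP K s (μ - 1), B = s * B₀ * s⁻¹) ∧ (a' = a ∨ a' = a⁻¹) ∧
          (FF a s w)⁻¹ * FF a s w' = A * (s ^ μ * a' * (s ^ μ)⁻¹) * B) := by
      intro w
      induction w with
      | nil =>
        intro w' hw'
        have : w' = [] := List.length_eq_zero_iff.1 hw'.symm
        subst this
        refine ⟨by simp [FF, Subgroup.one_mem], fun h => absurd rfl h⟩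
      | cons b w ih =>
        intro w'
        cases w' with
        | nil => intro h; simp at h
        | cons b' w' =>
          intro hlen
          have hlen' : w.length = w'.length := by simpa using hlen
          obtain ⟨ih1, ih2⟩ := ih w' hlen'
          have hform : (FF a s (b :: w))⁻¹ * FF a s (b' :: w') =
              s * ((if b then a else 1)⁻¹ * ((FF a s w)⁻¹ * FF a s w') * (if b' then a else 1)) *
                s⁻¹ := by
            simp only [FF]; group
          have hbN : ∀ c : Bool, (if c then a else 1) ∈ N := by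
            intro c; split_ifs
            · exact haN
            · exact N.one_mem
          refine ⟨?_, ?_⟩
          · rw [hform]
            exact hs _ (N.mul_mem (N.mul_mem (N.inv_mem (hbN b)) ih1) (hbN b'))
          · intro hne
            by_cases hww : w = w'
            · subst hww
              have hbb : b ≠ b' := by
                intro h; apply hne; rw [h]
              have h1 : (FF a s w)⁻¹ * FF a s w = 1 := by group
              refine ⟨1, 1, 1, (if b then a else 1)⁻¹ * (if b' then a else 1), le_refl _,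
                by simp, ⟨1, Subgroup.one_mem _, by group⟩, ⟨1, Subgroup.one_mem _, by group⟩,
                ?_, ?_⟩
              · cases b <;> cases b' <;> simp_all
              · rw [hform, h1]; simp only [pow_one]; group
            · obtain ⟨μ, A, B, a', hμ1, hμ2, ⟨A₀, hA₀, rfl⟩, ⟨B₀, hB₀, rfl⟩, ha', heq⟩ := ih2 hww
              have hK' : ∀ c : Bool, (if c then a else 1) ∈ PP K s μ := by
                intro c; split_ifs
                · exact PP_K hμ1 haK
                · exact Subgroup.one_mem _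
              have hup : ∀ x ∈ PP K s (μ - 1), s * x * s⁻¹ ∈ PP K s μ := by
                intro x hx
                have := PP_conj hx
                rwa [Nat.sub_add_cancel hμ1] at this
              refine ⟨μ + 1, s * ((if b then a else 1)⁻¹ * (s * A₀ * s⁻¹)) * s⁻¹,
                s * ((s * B₀ * s⁻¹) * (if b' then a else 1)) * s⁻¹, a', by omega, by simp; omega,
                ⟨_, ?_, rfl⟩, ⟨_, ?_, rfl⟩, ha', ?_⟩
              · rw [Nat.add_sub_cancel]
                exact Subgroup.mul_mem _ (Subgroup.inv_mem _ (hK' b)) (hup _ hA₀)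
              · rw [Nat.add_sub_cancel]
                exact Subgroup.mul_mem _ (hup _ hB₀) (hK' b')
              · rw [hform, heq, pow_succ']; group
    intro w w' hlen hm hne
    obtain ⟨h1, h2⟩ := hstruct w w' hlen
    obtain ⟨μ, A, B, a', hμ1, hμ2, ⟨A₀, hA₀, rfl⟩, ⟨B₀, hB₀, rfl⟩, ha', heq⟩ := h2 hne
    by_contra hlt
    push Not at hlt
    have hK1 : (FF a s w)⁻¹ * FF a s w' ∈ K := ⟨h1, hlt.trans hR⟩
    have hP : (FF a s w)⁻¹ * FF a s w' ∈ PP K s μ := PP_K hμ1 hK1
    have hup : ∀ x ∈ PP K s (μ - 1), s * x * s⁻¹ ∈ PP K s μ := by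
      intro x hx
      have := PP_conj hx
      rwa [Nat.sub_add_cancel hμ1] at this
    apply key μ (hμ2.trans hm) a' ha'
    have : s ^ μ * a' * (s ^ μ)⁻¹ = (s * A₀ * s⁻¹)⁻¹ * ((FF a s w)⁻¹ * FF a s w') *
        (s * B₀ * s⁻¹)⁻¹ := by
      rw [heq]; group
    rw [this]
    exact Subgroup.mul_mem _ (Subgroup.mul_mem _ (Subgroup.inv_mem _ (hup _ hA₀)) hP)
      (Subgroup.inv_mem _ (hup _ hB₀))

end Pool.Agent.H65.ST
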