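import Pool.Agent.H65.ST.Def
import Pool.Agent.H65.ST.Fac

/-!
# NET: a finite net for the elements of `H` with bounded `φ`

## Proof
For `h ∈ H` with `‖φ h‖ ≤ Λ` the integer vector `⌊φ h j⌋`, `j : Fin r`, has all entries in the
interval from `-⌈Λ⌉` to `⌈Λ⌉`, which has `2 * ⌈Λ⌉ + 1 ≤ 2 * Λ + 3` elements. So the set of these
vectors is contained in a `Fintype.piFinset` with at most `(2 * Λ + 3) ^ r` elements. For every vector
`v` in it for which there is `h ∈ H` with `‖φ h‖ ≤ Λ` and `⌊φ h j⌋ = v j` for all `j` choose one such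
`h`; let `Y` be the set of chosen elements. If `h ∈ H`, `‖φ h‖ ≤ Λ`, and `y ∈ Y` belongs to the same
vector then `φ (y⁻¹ * h) = φ h - φ y` (`hom`) has all coordinates of absolute value `≤ 1`.
-/

set_option autoImplicit false

namespace Pool.Agent.H65.ST

theorem exists_net {G : Type*} [Group G] (H : Subgroup G) {r : ℕ} (φ : G → Fin r → ℝ)
    (hom : ∀ g ∈ H, ∀ h ∈ H, φ (g * h) = φ g + φ h) (Λ : ℝ) (hΛ : 0 ≤ Λ) :
    ∃ Y : Finset G, (∀ y ∈ Y, y ∈ H) ∧ (Y.card : ℝ) ≤ (2 * Λ + 3) ^ r ∧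
      ∀ h ∈ H, ‖φ h‖ ≤ Λ → ∃ y ∈ Y, ‖φ (y⁻¹ * h)‖ ≤ 1 := by
  classical
  obtain ⟨B, hB⟩ : ∃ B : Finset (Fin r → ℤ), B = Fintype.piFinset fun _ =>
    Finset.Icc (-⌈Λ⌉) ⌈Λ⌉ := ⟨_, rfl⟩
  have hch : ∀ v : Fin r → ℤ, ∃ h : G, h ∈ H ∧ ((∃ h' ∈ H, ∀ j, ⌊φ h' j⌋ = v j) →
      ∀ j, ⌊φ h j⌋ = v j) := by
    intro v
    by_cases h : ∃ h' ∈ H, ∀ j, ⌊φ h' j⌋ = v j
    · obtain ⟨h', hh', h2⟩ := h
      exact ⟨h', hh', fun _ => h2⟩
    · exact ⟨1, H.one_mem, fun h2 => absurd h2 h⟩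
  choose c hc1 hc2 using hch
  refine ⟨B.image c, ?_, ?_, ?_⟩
  · intro y hy
    rw [Finset.mem_image] at hy
    obtain ⟨v, -, rfl⟩ := hy
    exact hc1 v
  · have h1 : (B.image c).card ≤ B.card := Finset.card_image_le
    have h2 : B.card = (⌈Λ⌉ + 1 - -⌈Λ⌉).toNat ^ r := by
      rw [hB, Fintype.card_piFinset, Finset.prod_const, Int.card_Icc, Finset.card_univ,
        Fintype.card_fin]
    have h3 : 0 ≤ ⌈Λ⌉ := Int.ceil_nonneg hΛ
    have h4 : (((⌈Λ⌉ + 1 - -⌈Λ⌉).toNat : ℕ) : ℝ) ≤ 2 * Λ + 3 := by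
      have h5 : (((⌈Λ⌉ + 1 - -⌈Λ⌉).toNat : ℕ) : ℤ) = 2 * ⌈Λ⌉ + 1 := by
        rw [Int.toNat_of_nonneg (by omega)]
        ring
      have h6 : (((⌈Λ⌉ + 1 - -⌈Λ⌉).toNat : ℕ) : ℝ) = 2 * (⌈Λ⌉ : ℝ) + 1 := by
        exact_mod_cast h5
      rw [h6]
      have := Int.ceil_lt_add_one Λ
      linarith
    calc ((B.image c).card : ℝ) ≤ (B.card : ℝ) := by exact_mod_cast h1
      _ = (((⌈Λ⌉ + 1 - -⌈Λ⌉).toNat : ℕ) : ℝ) ^ r := by rw [h2]; push_cast; rfl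
      _ ≤ (2 * Λ + 3) ^ r := pow_le_pow_left₀ (Nat.cast_nonneg _) h4 _
  · intro h hh hn
    have hv : (fun j => ⌊φ h j⌋) ∈ B := by
      rw [hB, Fintype.mem_piFinset]
      intro j
      have h1 : |φ h j| ≤ Λ := (norm_le_pi_norm (φ h) j).trans hn
      rw [abs_le] at h1
      rw [Finset.mem_Icc]
      have h2 := Int.le_ceil Λ
      constructor
      · rw [Int.le_floor]
        push_cast
        linarith [h1.1]
      · have h3 := Int.floor_le (φ h j)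
        have h4 : (⌊φ h j⌋ : ℝ) ≤ (⌈Λ⌉ : ℝ) := by linarith [h1.2]
        exact_mod_cast h4
    refine ⟨c fun j => ⌊φ h j⌋, Finset.mem_image_of_mem _ hv, ?_⟩
    have h1 := hc2 (fun j => ⌊φ h j⌋) ⟨h, hh, fun j => rfl⟩
    have h2 := hc1 fun j => ⌊φ h j⌋
    rw [pi_norm_le_iff_of_nonneg zero_le_one]
    intro j
    rw [hom _ (H.inv_mem h2) _ hh, fac_inv H φ hom _ h2, Pi.add_apply, Pi.neg_apply,
      Real.norm_eq_abs]
    have h3 := h1 j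
    have h4 := Int.floor_le (φ h j)
    have h5 := Int.lt_floor_add_one (φ h j)
    have h6 := Int.floor_le (φ (c fun j => ⌊φ h j⌋) j)
    have h7 := Int.lt_floor_add_one (φ (c fun j => ⌊φ h j⌋) j)
    rw [h3] at h6 h7
    rw [abs_le]
    constructor <;> linarith

end Pool.Agent.H65.ST
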