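import Pool.Agent.H65.ST.Irr

/-!
# POL: polynomial growth of products of operators without eigenvalues of modulus `> 1`

## Proof
Strong induction on `d = finrank ℂ V`, for all `V` (in a fixed universe) and all `ρ`.
If `ρ` is irreducible (every invariant subspace is `⊥` or `⊤`) then `‖ρ g‖ ≤ C` for all `g` by
`bounded_of_irreducible`, and `D = 0` works. Otherwise there is an invariant subspace `W` with
`W ≠ ⊥`, `W ≠ ⊤`, so `finrank W < d` and `finrank Wᗮ < d`. Let `P` be the orthogonal projection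
onto `Wᗮ` (as a map `V →L Wᗮ`), and

* `ρ₁ g : W →L W` the restriction of `ρ g` (a monoid homomorphism `G →* (W →L[ℂ] W)`),
* `ρ₂ g : Wᗮ →L Wᗮ`, `ρ₂ g u = P (ρ g u)`. It is a monoid homomorphism:
  `P (ρ g (ρ h u)) = P (ρ g (P (ρ h u)))` because `ρ h u - P (ρ h u) ∈ W`, `ρ g W ⊆ W` and
  `P` vanishes on `W`.

Spectral condition: for `ρ₁` clear. For `ρ₂`: let `0 ≠ u ∈ Wᗮ`, `P (ρ g u) = z • u`, i.e.
`ρ g u - z • u ∈ W`. The operator `ρ g - z` maps the space `E = W ⊔ span {u}` into `W`, and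
`finrank E = finrank W + 1 > finrank W`, so it has a nonzero kernel vector in `E`
(`LinearMap.exists_ne_zero...`, e.g. `LinearMap.ker_ne_bot_of_finrank_lt`): this is an eigenvector of
`ρ g` for `z`, so `‖z‖ ≤ 1`.

The operators `ρ₁ s`, `ρ₂ s`, `s ∈ S`, have norm `≤ C₀` (norms of restriction and compression), so
by induction `‖ρ₁ (l.prod)‖, ‖ρ₂ (l.prod)‖ ≤ C₁ * (l.length + 1) ^ D₁` (common constants
`C₁ ≥ 0`, `D₁`; enlarge) for all lists `l` in `S`.

Now let `u ∈ Wᗮ` and `l = s :: l'`. Decompose `ρ (l'.prod) u = w' + u'` with `u' = ρ₂ (l'.prod) u`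
and `w' ∈ W`, and write `b l = ρ (l.prod) u - ρ₂ (l.prod) u ∈ W`. Then
`b (s :: l') = ρ s (b l') + (ρ s u' - ρ₂ s u')`. By induction on `l` (generalise: for a list
`k ++ l` or unroll) one gets `b l = ∑` over the splittings `l = l₁ ++ s :: l₂` of
`ρ₁ (l₁.prod) (δ s (ρ₂ (l₂.prod) u))` with `δ s u' = ρ s u' - ρ₂ s u' ∈ W`, `‖δ s u'‖ ≤ 2 C₀ ‖u'‖`.
So `‖b l‖ ≤ l.length * C₁ (l.length + 1)^D₁ * 2 C₀ * C₁ (l.length + 1)^D₁ * ‖u‖`. (A convenient
formulation for the induction on `l`: for all lists `k` in `S`,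
`‖ρ (k.prod) (b l)‖ ≤ l.length * (C₁ (k.length + l.length + 1)^D₁) * 2 C₀ * C₁ (l.length + 1)^D₁ ‖u‖`.)
Finally for `v = w + u`, `w ∈ W`, `u ∈ Wᗮ`:
`ρ (l.prod) v = ρ₁ (l.prod) w + ρ₂ (l.prod) u + b l`, and `‖w‖, ‖u‖ ≤ ‖v‖`, so the norm of
`ρ (l.prod)` is at most a constant times `(l.length + 1) ^ (2 * D₁ + 1)`.
-/

set_option autoImplicit false

namespace Pool.Agent.H65.ST

universe u

/-- the data of an invariant subspace `W` and a complement `U` -/
theorem pol_split {G : Type*} [Group G] {V : Type u} [NormedAddCommGroup V]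
    [InnerProductSpace ℂ V] [FiniteDimensional ℂ V] (ρ : G →* (V →L[ℂ] V))
    (hspec : ∀ (g : G) (z : ℂ) (v : V), v ≠ 0 → ρ g v = z • v → ‖z‖ ≤ 1)
    (W : Submodule ℂ V) (hW : ∀ g, ∀ v ∈ W, ρ g v ∈ W) :
    ∃ (ρ₁ : G →* (W →L[ℂ] W)) (ρ₂ : G →* (Wᗮ →L[ℂ] Wᗮ)) (P : V →L[ℂ] Wᗮ),
      (∀ g w, (ρ₁ g w : V) = ρ g w) ∧ (∀ v, v - (P v : V) ∈ W) ∧ (∀ u, ‖P u‖ ≤ ‖u‖) ∧
      (∀ g u, ρ₂ g u = P (ρ g u)) ∧
      (∀ (g : G) (z : ℂ) (v : W), v ≠ 0 → ρ₁ g v = z • v → ‖z‖ ≤ 1) ∧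
      (∀ (g : G) (z : ℂ) (v : Wᗮ), v ≠ 0 → ρ₂ g v = z • v → ‖z‖ ≤ 1) := by
  obtain ⟨P, hP1, hP2, hP3, hP4⟩ : ∃ P : V →L[ℂ] Wᗮ, (∀ v, v - (P v : V) ∈ W) ∧
      (∀ w ∈ W, P w = 0) ∧ (∀ u : Wᗮ, P u = u) ∧ (∀ u, ‖P u‖ ≤ ‖u‖) := by
    refine ⟨Wᗮ.orthogonalProjectionOnto, fun v => ?_, fun w hw => ?_, fun u => ?_, fun u => ?_⟩
    · have h := Submodule.sub_starProjection_mem_orthogonal (K := Wᗮ) v
      rw [Submodule.orthogonal_orthogonal] at h
      exact h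
    · apply Submodule.orthogonalProjectionOnto_apply_of_mem_orthogonal
      exact Submodule.le_orthogonal_orthogonal W hw
    · exact Submodule.orthogonalProjectionOnto_mem_subspace_eq_self u
    · exact Submodule.norm_orthogonalProjectionOnto_apply_le _ u
  have hdiff : ∀ a b : V, a - b ∈ W → P a = P b := by
    intro a b hab
    have h := hP2 _ hab
    rw [map_sub, sub_eq_zero] at h
    exact h
  refine ⟨{ toFun := fun g => ((ρ g).comp W.subtypeL).codRestrict W fun w => hW g w w.2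
            map_one' := ?_
            map_mul' := ?_ },
    { toFun := fun g => P.comp ((ρ g).comp Wᗮ.subtypeL)
      map_one' := ?_
      map_mul' := ?_ }, P, fun g w => rfl, hP1, hP4, fun g u => rfl, ?_, ?_⟩
  · ext w
    show ρ 1 w = w
    rw [map_one]
    rfl
  · intro g h
    ext w
    show ρ (g * h) w = ρ g (ρ h w)
    rw [map_mul]
    rfl
  · refine ContinuousLinearMap.ext fun w => ?_
    show P (ρ 1 w) = w
    rw [map_one]
    exact hP3 w
  · intro g h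
    refine ContinuousLinearMap.ext fun w => ?_
    show P (ρ (g * h) w) = P (ρ g (P (ρ h w)))
    apply hdiff
    rw [map_mul]
    show ρ g (ρ h w) - ρ g (P (ρ h w)) ∈ W
    rw [← map_sub]
    exact hW g _ (hP1 _)
  · intro g z v hv h
    apply hspec g z v
    · intro h0
      exact hv (Subtype.ext h0)
    · exact congrArg Subtype.val h
  · intro g z u hu h
    have h' : P (ρ g u) = z • u := h
    by_contra hz
    have hinj : ∀ v : V, ρ g v = z • v → v = 0 := by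
      intro v hv
      by_contra h0
      exact hz (hspec g z v h0 hv)
    obtain ⟨T, hT⟩ : ∃ T : W →ₗ[ℂ] W, ∀ w : W, (T w : V) = ρ g w - z • (w : V) :=
      ⟨{ toFun := fun w => ⟨ρ g w - z • (w : V), W.sub_mem (hW g w w.2) (W.smul_mem z w.2)⟩
         map_add' := by
          intro a b
          ext
          show ρ g (a + b : V) - z • (a + b : V) = (ρ g a - z • (a : V)) + (ρ g b - z • (b : V))
          rw [map_add, smul_add]
          abel
         map_smul' := by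
          intro c a
          ext
          show ρ g (c • (a : V)) - z • (c • (a : V)) = c • (ρ g a - z • (a : V))
          rw [map_smul, smul_sub, smul_comm] }, fun w => rfl⟩
    have hTinj : Function.Injective T := by
      rw [injective_iff_map_eq_zero]
      intro w hw
      have h1 := congrArg Subtype.val hw
      rw [hT] at h1
      exact Subtype.ext (hinj w (sub_eq_zero.1 h1))
    have hTsurj := LinearMap.surjective_of_injective hTinj
    have hmem : ρ g (u : V) - z • (u : V) ∈ W := by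
      have h1 := hP1 (ρ g u)
      rw [h'] at h1
      exact h1
    obtain ⟨w, hw⟩ := hTsurj ⟨_, hmem⟩
    have h2 := congrArg Subtype.val hw
    rw [hT] at h2
    have h2' : ρ g (w : V) - z • (w : V) = ρ g (u : V) - z • (u : V) := h2
    have h3 : (w : V) - u = 0 := by
      apply hinj
      rw [map_sub, smul_sub, sub_eq_sub_iff_sub_eq_sub]
      exact h2'
    have h4 : (u : V) ∈ W := by
      rw [← sub_eq_zero.1 h3]
      exact w.2
    apply hu
    rw [← hP3 u]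
    exact hP2 _ h4

theorem poly_bound {G : Type*} [Group G] (d : ℕ) :
    ∀ (V : Type u) [NormedAddCommGroup V] [InnerProductSpace ℂ V] [FiniteDimensional ℂ V],
      Module.finrank ℂ V = d → ∀ (ρ : G →* (V →L[ℂ] V)),
      (∀ (g : G) (z : ℂ) (v : V), v ≠ 0 → ρ g v = z • v → ‖z‖ ≤ 1) →
      ∀ S : Set G, (∃ C : ℝ, ∀ s ∈ S, ‖ρ s‖ ≤ C) →
      ∃ (C : ℝ) (D : ℕ), ∀ l : List G, (∀ s ∈ l, s ∈ S) →
        ‖ρ l.prod‖ ≤ C * ((l.length : ℝ) + 1) ^ D := by
  induction d using Nat.strong_induction_on with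
  | _ d ih =>
  intro V _ _ _ hd ρ hspec S hS
  by_cases hirr : ∀ W : Submodule ℂ V, (∀ g, ∀ v ∈ W, ρ g v ∈ W) → W = ⊥ ∨ W = ⊤
  · obtain ⟨C, hC⟩ := bounded_of_irreducible ρ hirr hspec
    exact ⟨C, 0, fun l _ => by rw [pow_zero, mul_one]; exact hC _⟩
  push Not at hirr
  obtain ⟨W, hW, hbot, htop⟩ := hirr
  obtain ⟨C₀, hC₀0, hC₀⟩ : ∃ C₀ : ℝ, 0 ≤ C₀ ∧ ∀ s ∈ S, ‖ρ s‖ ≤ C₀ := by
    obtain ⟨C, hC⟩ := hS
    exact ⟨max C 0, le_max_right _ _, fun s hs => (hC s hs).trans (le_max_left _ _)⟩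
  obtain ⟨ρ₁, ρ₂, P, h1, hP1, hP4, h2, hs1, hs2⟩ := pol_split ρ hspec W hW
  have hdim : Module.finrank ℂ W + Module.finrank ℂ Wᗮ = d := by
    rw [← hd]
    exact Submodule.finrank_add_finrank_orthogonal W
  have hd1 : Module.finrank ℂ W < d := by
    rw [← hd]
    exact Submodule.finrank_lt htop
  have hd2 : Module.finrank ℂ Wᗮ < d := by
    have h0 : 0 < Module.finrank ℂ W := by
      rw [Nat.pos_iff_ne_zero]
      intro h0
      exact hbot (Submodule.finrank_eq_zero.1 h0)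
    omega
  have hn1 : ∀ s ∈ S, ‖ρ₁ s‖ ≤ C₀ := by
    intro s hs
    refine ContinuousLinearMap.opNorm_le_bound _ hC₀0 fun w => ?_
    have h3 := (ρ s).le_of_opNorm_le (hC₀ s hs) w
    rw [← h1] at h3
    exact h3
  have hn2 : ∀ s ∈ S, ‖ρ₂ s‖ ≤ C₀ := by
    intro s hs
    refine ContinuousLinearMap.opNorm_le_bound _ hC₀0 fun w => ?_
    rw [h2]
    exact (hP4 _).trans ((ρ s).le_of_opNorm_le (hC₀ s hs) w)
  obtain ⟨C₁, D₁, hC₁⟩ := ih _ hd1 W rfl ρ₁ hs1 S ⟨C₀, hn1⟩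
  obtain ⟨C₂, D₂, hC₂⟩ := ih _ hd2 Wᗮ rfl ρ₂ hs2 S ⟨C₀, hn2⟩
  obtain ⟨C, hCdef⟩ : ∃ C : ℝ, C = |C₁| + |C₂| := ⟨_, rfl⟩
  obtain ⟨D, hDdef⟩ : ∃ D : ℕ, D = D₁ + D₂ := ⟨_, rfl⟩
  have hC0 : 0 ≤ C := by rw [hCdef]; positivity
  -- bounds for lists of length at most N
  have hb1 : ∀ (N : ℕ) (l : List G), (∀ s ∈ l, s ∈ S) → l.length ≤ N →
      ‖ρ₁ l.prod‖ ≤ C * ((N : ℝ) + 1) ^ D := by
    intro N l hl hN
    have hN' : (l.length : ℝ) ≤ N := by exact_mod_cast hN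
    have hN0 : (0 : ℝ) ≤ N := Nat.cast_nonneg _
    have hl0 : (0 : ℝ) ≤ l.length := Nat.cast_nonneg _
    calc ‖ρ₁ l.prod‖ ≤ C₁ * ((l.length : ℝ) + 1) ^ D₁ := hC₁ l hl
      _ ≤ C * ((l.length : ℝ) + 1) ^ D₁ := by
        refine mul_le_mul_of_nonneg_right ?_ (by positivity)
        rw [hCdef]
        have := le_abs_self C₁
        have := abs_nonneg C₂
        linarith
      _ ≤ C * ((N : ℝ) + 1) ^ D₁ := by
        refine mul_le_mul_of_nonneg_left ?_ hC0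
        exact pow_le_pow_left₀ (by linarith) (by linarith) _
      _ ≤ C * ((N : ℝ) + 1) ^ D := by
        refine mul_le_mul_of_nonneg_left ?_ hC0
        exact pow_le_pow_right₀ (by linarith) (by omega)
  have hb2 : ∀ (N : ℕ) (l : List G), (∀ s ∈ l, s ∈ S) → l.length ≤ N →
      ‖ρ₂ l.prod‖ ≤ C * ((N : ℝ) + 1) ^ D := by
    intro N l hl hN
    have hN' : (l.length : ℝ) ≤ N := by exact_mod_cast hN
    have hN0 : (0 : ℝ) ≤ N := Nat.cast_nonneg _
    have hl0 : (0 : ℝ) ≤ l.length := Nat.cast_nonneg _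
    calc ‖ρ₂ l.prod‖ ≤ C₂ * ((l.length : ℝ) + 1) ^ D₂ := hC₂ l hl
      _ ≤ C * ((l.length : ℝ) + 1) ^ D₂ := by
        refine mul_le_mul_of_nonneg_right ?_ (by positivity)
        rw [hCdef]
        have := le_abs_self C₂
        have := abs_nonneg C₁
        linarith
      _ ≤ C * ((N : ℝ) + 1) ^ D₂ := by
        refine mul_le_mul_of_nonneg_left ?_ hC0
        exact pow_le_pow_left₀ (by linarith) (by linarith) _
      _ ≤ C * ((N : ℝ) + 1) ^ D := by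
        refine mul_le_mul_of_nonneg_left ?_ hC0
        exact pow_le_pow_right₀ (by linarith) (by omega)
  -- the off-diagonal part
  have hoff : ∀ (M : ℝ) (N : ℕ), 0 ≤ M →
      (∀ l : List G, (∀ s ∈ l, s ∈ S) → l.length ≤ N → ‖ρ₁ l.prod‖ ≤ M) →
      (∀ l : List G, (∀ s ∈ l, s ∈ S) → l.length ≤ N → ‖ρ₂ l.prod‖ ≤ M) →
      ∀ (u : Wᗮ) (l : List G), (∀ s ∈ l, s ∈ S) → ∀ k : List G, (∀ s ∈ k, s ∈ S) →
        k.length + l.length ≤ N →
        ‖ρ k.prod (ρ l.prod u - ρ₂ l.prod u)‖ ≤ l.length * (M * (2 * C₀ * (M * ‖u‖))) := by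
    intro M N hM hM1 hM2 u l
    induction l with
    | nil =>
      intro _ k _ _
      rw [List.prod_nil, map_one, map_one]
      have h3 : (1 : V →L[ℂ] V) (u : V) - ((1 : Wᗮ →L[ℂ] Wᗮ) u : V) = 0 := sub_self _
      rw [h3, map_zero, norm_zero]
      simp
    | cons s l ihl =>
      intro hl k hk hN
      have hsS : s ∈ S := hl s (by simp)
      have hlS : ∀ s ∈ l, s ∈ S := fun x hx => hl x (by simp [hx])
      obtain ⟨u', hu'⟩ : ∃ u' : Wᗮ, u' = ρ₂ l.prod u := ⟨_, rfl⟩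
      have hdec : ρ (s :: l).prod u - ρ₂ (s :: l).prod u =
          ρ s (ρ l.prod u - ρ₂ l.prod u) + (ρ s u' - ρ₂ s u') := by
        rw [List.prod_cons, map_mul, map_mul, map_sub, hu']
        show ρ s (ρ l.prod u) - ρ₂ s (ρ₂ l.prod u) = _
        abel
      have h3 := ihl hlS (k ++ [s]) (by
        intro x hx
        rw [List.mem_append] at hx
        rcases hx with hx | hx
        · exact hk x hx
        · rw [List.mem_singleton] at hx
          rw [hx]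
          exact hsS) (by
        rw [List.length_append, List.length_singleton]
        rw [List.length_cons] at hN
        omega)
      have h4 : ρ (k ++ [s]).prod (ρ l.prod u - ρ₂ l.prod u) =
          ρ k.prod (ρ s (ρ l.prod u - ρ₂ l.prod u)) := by
        rw [List.prod_append, List.prod_singleton, map_mul]
        rfl
      rw [h4] at h3
      have hδ : ρ s u' - ρ₂ s u' ∈ W := by
        rw [h2]
        exact hP1 _
      have h5 : ρ k.prod (ρ s u' - ρ₂ s u') = ρ₁ k.prod ⟨_, hδ⟩ := by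
        rw [h1]
      have hnu' : ‖u'‖ ≤ M * ‖u‖ := by
        rw [hu']
        refine (ρ₂ l.prod).le_of_opNorm_le (hM2 l hlS ?_) u
        rw [List.length_cons] at hN
        omega
      have hnδ : ‖ρ s u' - (ρ₂ s u' : V)‖ ≤ 2 * C₀ * (M * ‖u‖) := by
        refine (norm_sub_le _ _).trans ?_
        have h6 := (ρ s).le_of_opNorm_le (hC₀ s hsS) (u' : V)
        have h7 := (ρ₂ s).le_of_opNorm_le (hn2 s hsS) u'
        rw [Submodule.coe_norm] at h7
        have h8 : ‖(u' : V)‖ ≤ M * ‖u‖ := hnu'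
        have h9 : C₀ * ‖(u' : V)‖ ≤ C₀ * (M * ‖u‖) := mul_le_mul_of_nonneg_left h8 hC₀0
        have h10 : C₀ * ‖u'‖ ≤ C₀ * (M * ‖u‖) := mul_le_mul_of_nonneg_left hnu' hC₀0
        linarith
      have h11 : ‖ρ k.prod (ρ s u' - ρ₂ s u')‖ ≤ M * (2 * C₀ * (M * ‖u‖)) := by
        rw [h5]
        have h12 := (ρ₁ k.prod).le_of_opNorm_le (hM1 k hk (by omega)) ⟨_, hδ⟩
        refine le_trans h12 (mul_le_mul_of_nonneg_left hnδ hM)
      rw [hdec, map_add, List.length_cons]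
      refine (norm_add_le _ _).trans ?_
      push_cast
      linarith
  refine ⟨3 * C + 2 * C₀ * C * C, 2 * D + 1, fun l hl => ?_⟩
  obtain ⟨n, hn⟩ : ∃ n : ℕ, n = l.length := ⟨_, rfl⟩
  obtain ⟨M, hM⟩ : ∃ M : ℝ, M = C * ((n : ℝ) + 1) ^ D := ⟨_, rfl⟩
  have hn0 : (0 : ℝ) ≤ n := Nat.cast_nonneg _
  have hM0 : 0 ≤ M := by rw [hM]; positivity
  have hbound : ‖ρ l.prod‖ ≤ 3 * M + n * (M * (2 * C₀ * M)) := by
    refine ContinuousLinearMap.opNorm_le_bound _ (by positivity) fun v => ?_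
    have h3 := hoff M n hM0 (fun l hl hN => by rw [hM]; exact hb1 n l hl hN)
      (fun l hl hN => by rw [hM]; exact hb2 n l hl hN) (P v) l hl [] (by simp)
      (by simp [hn])
    rw [List.prod_nil, map_one] at h3
    have h3' : ‖ρ l.prod (P v : V) - ρ₂ l.prod (P v)‖ ≤
        l.length * (M * (2 * C₀ * (M * ‖P v‖))) := h3
    have h4 := (ρ₁ l.prod).le_of_opNorm_le (hb1 n l hl hn.ge) ⟨_, hP1 v⟩
    have h5 := (ρ₂ l.prod).le_of_opNorm_le (hb2 n l hl hn.ge) (P v)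
    rw [← hM] at h4 h5
    have h6 : ‖v - (P v : V)‖ ≤ 2 * ‖v‖ := by
      refine (norm_sub_le _ _).trans ?_
      have := hP4 v
      have h7 : ‖(P v : V)‖ ≤ ‖v‖ := this
      linarith
    have h7 : ρ l.prod v = (ρ₁ l.prod ⟨_, hP1 v⟩ : V) + (ρ₂ l.prod (P v) : V) +
        (ρ l.prod (P v : V) - ρ₂ l.prod (P v)) := by
      rw [h1, map_sub]
      abel
    have h8 : ‖(ρ₁ l.prod ⟨_, hP1 v⟩ : V)‖ ≤ M * (2 * ‖v‖) :=
      le_trans h4 (mul_le_mul_of_nonneg_left h6 hM0)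
    have h9 : ‖(ρ₂ l.prod (P v) : V)‖ ≤ M * ‖v‖ :=
      le_trans h5 (mul_le_mul_of_nonneg_left (hP4 v) hM0)
    have h10 : (l.length : ℝ) * (M * (2 * C₀ * (M * ‖P v‖))) ≤ n * (M * (2 * C₀ * (M * ‖v‖))) := by
      rw [← hn]
      have := hP4 v
      gcongr
    rw [h7]
    refine (norm_add₃_le).trans ?_
    calc ‖(ρ₁ l.prod ⟨_, hP1 v⟩ : V)‖ + ‖(ρ₂ l.prod (P v) : V)‖ +
        ‖ρ l.prod (P v : V) - ρ₂ l.prod (P v)‖ ≤ M * (2 * ‖v‖) + M * ‖v‖ +
          n * (M * (2 * C₀ * (M * ‖v‖))) := add_le_add (add_le_add h8 h9) (h3'.trans h10)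
      _ = (3 * M + n * (M * (2 * C₀ * M))) * ‖v‖ := by ring
  refine hbound.trans ?_
  rw [← hn, hM]
  have hone : (1 : ℝ) ≤ (n : ℝ) + 1 := by linarith
  have h3 : ((n : ℝ) + 1) ^ D ≤ ((n : ℝ) + 1) ^ (2 * D + 1) := pow_le_pow_right₀ hone (by omega)
  have h4 : (n : ℝ) * (((n : ℝ) + 1) ^ D * ((n : ℝ) + 1) ^ D) ≤ ((n : ℝ) + 1) ^ (2 * D + 1) := by
    rw [← pow_add, ← two_mul, pow_succ, mul_comm]
    refine mul_le_mul_of_nonneg_left (by linarith) (by positivity)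
  calc 3 * (C * ((n : ℝ) + 1) ^ D) + n * (C * ((n : ℝ) + 1) ^ D * (2 * C₀ *
        (C * ((n : ℝ) + 1) ^ D)))
      = 3 * C * ((n : ℝ) + 1) ^ D +
        2 * C₀ * C * C * ((n : ℝ) * (((n : ℝ) + 1) ^ D * ((n : ℝ) + 1) ^ D)) := by ring
    _ ≤ 3 * C * ((n : ℝ) + 1) ^ (2 * D + 1) + 2 * C₀ * C * C * ((n : ℝ) + 1) ^ (2 * D + 1) :=
      add_le_add (mul_le_mul_of_nonneg_left h3 (by positivity))
        (mul_le_mul_of_nonneg_left h4 (by positivity))
    _ = (3 * C + 2 * C₀ * C * C) * ((n : ℝ) + 1) ^ (2 * D + 1) := by ring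

end Pool.Agent.H65.ST
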