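import Pool.Agent.H65.ST.Pol

/-!
# REA: polynomial growth of products of real matrices

## Proof
Apply `poly_bound` to `V = EuclideanSpace ℂ (Fin r)` and `ρ g = ` the operator of the transposed
inverse or, simpler, of the matrix `T g` mapped to `ℂ` acting on column vectors
(`Matrix.toEuclideanCLM`, a star algebra equivalence
`Matrix (Fin r) (Fin r) ℂ ≃ EuclideanSpace ℂ (Fin r) →L[ℂ] EuclideanSpace ℂ (Fin r)`, composed with
`(algebraMap ℝ ℂ).mapMatrix` and `T`).
Spectral condition: the hypothesis `hspec` is about left eigenvectors (row vectors). If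
`M *ᵥ v = z • v` with `v ≠ 0` for `M = (T g).map (algebraMap ℝ ℂ)`, then `det (M - z) = 0`, so there
is also a left eigenvector `x ≠ 0`, `x ᵥ* M = z • x` (`Matrix.exists_vecMul_eq_zero_iff` and
`Matrix.exists_mulVec_eq_zero_iff` for `M - z • 1`), hence `‖z‖ ≤ 1`.
Norms: the entries of a matrix are bounded by the operator norm (`|M i j| = |⟨e_i, M e_j⟩|`) and the
operator norm is bounded by a constant times the largest entry (all norms on a finite dimensional
space; or: a linear map from matrices to operators is continuous, `LinearMap.exists_norm_le...`,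
`‖M‖ ≤ ∑ i j, ‖M i j‖ * ‖E i j‖`).
-/

set_option autoImplicit false

namespace Pool.Agent.H65.ST

/-- the operators on euclidean space -/
noncomputable def reaHom {G : Type*} [Group G] {r : ℕ} (T : G →* Matrix (Fin r) (Fin r) ℝ) :
    G →* (EuclideanSpace ℂ (Fin r) →L[ℂ] EuclideanSpace ℂ (Fin r)) where
  toFun g := Matrix.toEuclideanCLM (n := Fin r) (𝕜 := ℂ) ((T g).map (algebraMap ℝ ℂ))
  map_one' := by
    rw [map_one, Matrix.map_one _ (map_zero _) (map_one _), map_one]
  map_mul' a b := by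
    rw [map_mul, Matrix.map_mul, map_mul]

theorem poly_bound_real {G : Type*} [Group G] {r : ℕ} (T : G →* Matrix (Fin r) (Fin r) ℝ)
    (hspec : ∀ (g : G) (z : ℂ) (x : Fin r → ℂ), x ≠ 0 →
      Matrix.vecMul x ((T g).map (algebraMap ℝ ℂ)) = z • x → ‖z‖ ≤ 1)
    (S : Set G) (hS : ∃ C : ℝ, ∀ s ∈ S, ∀ i j, |T s i j| ≤ C) :
    ∃ (C : ℝ) (D : ℕ), ∀ l : List G, (∀ s ∈ l, s ∈ S) →
      ∀ i j, |T l.prod i j| ≤ C * ((l.length : ℝ) + 1) ^ D := by
  classical
  obtain ⟨C, hC⟩ := hS
  obtain ⟨C', D, h⟩ := poly_bound r (EuclideanSpace ℂ (Fin r)) (by simp) (reaHom T) (by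
    intro g z v hv hz
    have h1 : Matrix.mulVec ((T g).map (algebraMap ℝ ℂ)) (WithLp.ofLp v) =
        z • (WithLp.ofLp v) := congrArg WithLp.ofLp hz
    have hv' : WithLp.ofLp v ≠ 0 := by
      intro h0
      exact hv (by ext i; exact congrFun h0 i)
    have h2 : ((T g).map (algebraMap ℝ ℂ) - z • (1 : Matrix (Fin r) (Fin r) ℂ)).det = 0 := by
      rw [← Matrix.exists_mulVec_eq_zero_iff]
      refine ⟨WithLp.ofLp v, hv', ?_⟩
      rw [Matrix.sub_mulVec, h1, Matrix.smul_mulVec, Matrix.one_mulVec, sub_self]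
    rw [← Matrix.exists_vecMul_eq_zero_iff] at h2
    obtain ⟨x, hx, hx2⟩ := h2
    refine hspec g z x hx ?_
    rw [Matrix.vecMul_sub, Matrix.vecMul_smul, Matrix.vecMul_one, sub_eq_zero] at hx2
    exact hx2) S (by
    refine ⟨∑ i, ∑ j, C * ‖Matrix.toEuclideanCLM (n := Fin r) (𝕜 := ℂ)
      (Matrix.single i j (1 : ℂ))‖, fun s hs => ?_⟩
    have h1 : reaHom T s = ∑ i, ∑ j, ((T s i j : ℝ) : ℂ) •
        Matrix.toEuclideanCLM (n := Fin r) (𝕜 := ℂ) (Matrix.single i j (1 : ℂ)) := by
      show Matrix.toEuclideanCLM (n := Fin r) (𝕜 := ℂ) ((T s).map (algebraMap ℝ ℂ)) = _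
      rw [Matrix.matrix_eq_sum_single ((T s).map (algebraMap ℝ ℂ)), map_sum]
      refine Finset.sum_congr rfl fun i _ => ?_
      rw [map_sum]
      refine Finset.sum_congr rfl fun j _ => ?_
      rw [← map_smul, Matrix.smul_single, smul_eq_mul, mul_one]
      rfl
    rw [h1]
    refine (norm_sum_le _ _).trans (Finset.sum_le_sum fun i _ => ?_)
    refine (norm_sum_le _ _).trans (Finset.sum_le_sum fun j _ => ?_)
    rw [norm_smul, Complex.norm_real, Real.norm_eq_abs]
    exact mul_le_mul_of_nonneg_right (hC s hs i j) (norm_nonneg _))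
  refine ⟨C', D, fun l hl i j => ?_⟩
  refine le_trans ?_ (h l hl)
  have h1 := (reaHom T l.prod).le_opNorm (EuclideanSpace.single j (1 : ℂ))
  rw [EuclideanSpace.norm_single, norm_one, mul_one] at h1
  refine le_trans ?_ h1
  have h2 := PiLp.norm_apply_le (reaHom T l.prod (EuclideanSpace.single j (1 : ℂ))) i
  refine le_trans (le_of_eq ?_) h2
  have h3 : (reaHom T l.prod (EuclideanSpace.single j (1 : ℂ))) i = ((T l.prod i j : ℝ) : ℂ) := by
    show Matrix.mulVec ((T l.prod).map (algebraMap ℝ ℂ)) (Pi.single j 1) i = _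
    rw [Matrix.mulVec_single_one]
    rfl
  rw [h3, Complex.norm_real, Real.norm_eq_abs]

end Pool.Agent.H65.ST
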