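import Pool.Agent.H65.ST.Def

/-!
# SCH: a cobounded subgroup of a boundedly generated group is boundedly generated (Schreier)

## Proof
Let `H ≤ closure S`, `S = {h ∈ H | len h ≤ R₁}`. We may take `R, R₁ ≥ 0` (enlarge them). Put
`R₂ = 2 * R + R₁` and `P' = closure {p ∈ P | len p ≤ R₂}`. Claim: every `h ∈ closure S` is
`h = p * u` with `p ∈ P'`, `u ∈ H`, `len u ≤ R`. Use `Subgroup.closure_induction_right` (or induction
on words in `S`, which is closed under inverses): `1 = 1 * 1`; if `h = p * u` and `s ∈ S` (or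
`s⁻¹ ∈ S`) then `u * s ∈ H`, `len (u * s) ≤ R + R₁`; take `p' ∈ P` with
`len (p'⁻¹ * (u * s)) ≤ R`; then `len p' ≤ len (u * s) + R ≤ R₂`, so `p' ∈ P'` and
`h * s = (p * p') * (p'⁻¹ * u * s)`, and `p'⁻¹ * u * s ∈ H` as `P ≤ H`.
Now let `p₀ ∈ P`. Then `p₀ ∈ H`, `p₀ = p * u` with `p ∈ P' ≤ P`, so `u = p⁻¹ * p₀ ∈ P` and
`len u ≤ R ≤ R₂`, hence `u ∈ P'` and `p₀ ∈ P'`.
-/

set_option autoImplicit false

namespace Pool.Agent.H65.ST

theorem bg_of_cobounded {G : Type*} [Group G] (L : Len G) (H P : Subgroup G) (hPH : P ≤ H) (R : ℝ)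
    (hcob : ∀ h ∈ H, ∃ p ∈ P, L.len (p⁻¹ * h) ≤ R) (hH : BG L H) : BG L P := by
  obtain ⟨R₁, hR₁⟩ := hH
  set R' : ℝ := max R 0 with hR'
  set R₁' : ℝ := max R₁ 0 with hR₁'
  have hRle : R ≤ R' := le_max_left _ _
  have hR0 : 0 ≤ R' := le_max_right _ _
  have hR₁le : R₁ ≤ R₁' := le_max_left _ _
  have hR₁0 : 0 ≤ R₁' := le_max_right _ _
  refine ⟨2 * R' + R₁', ?_⟩
  set P' : Subgroup G := Subgroup.closure {h : G | h ∈ P ∧ L.len h ≤ 2 * R' + R₁'} with hP'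
  have hP'P : P' ≤ P := by
    rw [hP', Subgroup.closure_le]
    intro x hx
    exact hx.1
  have step : ∀ u s : G, u ∈ H → s ∈ H → L.len u ≤ R' → L.len s ≤ R₁' →
      ∃ p ∈ P', p⁻¹ * (u * s) ∈ H ∧ L.len (p⁻¹ * (u * s)) ≤ R' := by
    intro u s hu hs hlu hls
    obtain ⟨p, hp, hlp⟩ := hcob (u * s) (H.mul_mem hu hs)
    have h1 : L.len (u * s) ≤ R' + R₁' := (L.mul u s).trans (add_le_add hlu hls)
    have h2 : L.len p ≤ 2 * R' + R₁' := by
      have h3 : p = (u * s) * (p⁻¹ * (u * s))⁻¹ := by group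
      calc L.len p = L.len ((u * s) * (p⁻¹ * (u * s))⁻¹) := by rw [← h3]
        _ ≤ L.len (u * s) + L.len ((p⁻¹ * (u * s))⁻¹) := L.mul _ _
        _ = L.len (u * s) + L.len (p⁻¹ * (u * s)) := by rw [L.inv]
        _ ≤ (R' + R₁') + R' := add_le_add h1 (hlp.trans hRle)
        _ = 2 * R' + R₁' := by ring
    exact ⟨p, Subgroup.subset_closure ⟨hp, h2⟩, H.mul_mem (H.inv_mem (hPH hp)) (H.mul_mem hu hs),
      hlp.trans hRle⟩
  have claim : ∀ h ∈ Subgroup.closure {h : G | h ∈ H ∧ L.len h ≤ R₁},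
      ∃ p ∈ P', p⁻¹ * h ∈ H ∧ L.len (p⁻¹ * h) ≤ R' := by
    intro h hh
    induction hh using Subgroup.closure_induction_right with
    | one => exact ⟨1, P'.one_mem, by simp [H.one_mem], by simp [L.one, hR0]⟩
    | mul_right x _ s hs ih =>
      obtain ⟨p, hp, h1, h2⟩ := ih
      obtain ⟨p', hp', h3, h4⟩ := step (p⁻¹ * x) s h1 hs.1 h2 (hs.2.trans hR₁le)
      refine ⟨p * p', P'.mul_mem hp hp', ?_, ?_⟩
      · have : (p * p')⁻¹ * (x * s) = p'⁻¹ * (p⁻¹ * x * s) := by group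
        rw [this]; exact h3
      · have : (p * p')⁻¹ * (x * s) = p'⁻¹ * (p⁻¹ * x * s) := by group
        rw [this]; exact h4
    | mul_inv_cancel x _ s hs ih =>
      obtain ⟨p, hp, h1, h2⟩ := ih
      obtain ⟨p', hp', h3, h4⟩ := step (p⁻¹ * x) s⁻¹ h1 (H.inv_mem hs.1) h2
        (by rw [L.inv]; exact hs.2.trans hR₁le)
      refine ⟨p * p', P'.mul_mem hp hp', ?_, ?_⟩
      · have : (p * p')⁻¹ * (x * s⁻¹) = p'⁻¹ * (p⁻¹ * x * s⁻¹) := by group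
        rw [this]; exact h3
      · have : (p * p')⁻¹ * (x * s⁻¹) = p'⁻¹ * (p⁻¹ * x * s⁻¹) := by group
        rw [this]; exact h4
  intro p₀ hp₀
  obtain ⟨p, hp, h1, h2⟩ := claim p₀ (hR₁ (hPH hp₀))
  have h3 : p⁻¹ * p₀ ∈ P := P.mul_mem (P.inv_mem (hP'P hp)) hp₀
  have h4 : p⁻¹ * p₀ ∈ P' := Subgroup.subset_closure ⟨h3, by linarith⟩
  have h5 : p₀ = p * (p⁻¹ * p₀) := by group
  rw [h5]
  exact P'.mul_mem hp h4

end Pool.Agent.H65.ST
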