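import Pool.Agent.H65.ST.Def

/-!
# Normal subgroups with a finite normal series with abelian or locally elliptic factors
-/

set_option autoImplicit false

namespace Pool.Agent.H65.ST

/-- `H` has a finite series of normal subgroups of `G`, down to the trivial subgroup, in which every
factor is abelian or locally elliptic. A factor `H / P` is locally elliptic if every set of
elements of `H` of bounded length generates a subgroup which is bounded modulo `P`. -/
inductive Ser {G : Type*} [Group G] (L : Len G) : Subgroup G → Prop
  | bot : Ser L ⊥
  | abel (H P : Subgroup G) : H.Normal → P.Normal → P ≤ H → ⁅H, H⁆ ≤ P → Ser L P → Ser L H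
  | loc (H P : Subgroup G) : H.Normal → P.Normal → P ≤ H →
      (∀ R : ℝ, ∃ R' : ℝ, ∀ h ∈ Subgroup.closure {h : G | h ∈ H ∧ L.len h ≤ R},
        ∃ p ∈ P, L.len (p⁻¹ * h) ≤ R') → Ser L P → Ser L H

end Pool.Agent.H65.ST
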