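import Pool.Agent.H65.ST.Lay
import Pool.Agent.H65.ST.Der
import Pool.Agent.H65.ST.Fac
import Pool.Agent.H65.ST.Cbs
import Pool.Agent.H65.ST.Ser
import Pool.Agent.H65.ST.Rea
import Pool.Agent.H65.ST.Act
import Pool.Agent.H65.ST.Eig
import Pool.Agent.H65.ST.Cnt

/-!
# SOL: going down the series

## Proof
`grLe_step`: `exists_layer` gives `r, f, φ`, `exists_action` gives `T`. If some `T g` had a left
eigenvector `x ≠ 0` with eigenvalue `z`, `1 < ‖z‖`, there would be trees by `trees_of_eigenvalue`. So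
the spectral hypothesis of `poly_bound_real` holds; with `S = {s | len s ≤ ρ}` (bounded entries by
`exists_action`) we get the polynomial bound, and `grLe_commutator` gives `GrLe L lam ⁅H, H⁆`, so
`GrLe L lam P` by `grLe_mono`. `bg_derived` and `bg_between` give `BG L P`.

`grLe_loc`: `BG L H` with constant `R`, so all of `H` is in the closure of its elements of length
`≤ R`, and `hloc R` says that `P` is cobounded in `H`. Use `bg_of_cobounded`, `grLe_of_cobounded`.

`grLe_bot`: induction on `Ser L N`.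

`ser_of_solvable`: let `D 0 = N`, `D (i + 1) = ⁅D i, D i⁆`; all `D i` are normal in `G`, and `D d = ⊥`
for some `d` as `N` is solvable (`D i` is the image under `N.subtype` of the `i`-th term of the
derived series of `↥N`: `Subgroup.map_commutator`, `map_derivedSeries`...). Descending
induction with `Ser.abel`.
-/

set_option autoImplicit false

namespace Pool.Agent.H65.ST

theorem grLe_step {G : Type*} [Group G] (L : Len G) (κ : ℝ) (hκ : 0 ≤ κ) (hG : Geod L κ)
    (lam : ℝ) (hlam : 0 ≤ lam) (R₀ : ℝ) (hT : ¬ Trees L R₀) (H P : Subgroup G) (hN : H.Normal)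
    (hPH : P ≤ H) (hHP : ⁅H, H⁆ ≤ P) (hB : BG L H) (hS : GrLe L lam H) :
    BG L P ∧ GrLe L lam P := by
  obtain ⟨r, f, φ, hL⟩ := exists_layer L H hB
  obtain ⟨T, hT1, hT2⟩ := exists_action L H hN f φ hL
  have hspec : ∀ (g : G) (z : ℂ) (x : Fin r → ℂ), x ≠ 0 →
      Matrix.vecMul x ((T g).map (algebraMap ℝ ℂ)) = z • x → ‖z‖ ≤ 1 := by
    intro g z x hx hxz
    by_contra hz
    push Not at hz
    exact hT (trees_of_eigenvalue L H hN f φ hL T hT1 g z hz x hx hxz R₀)
  have hpol := poly_bound_real T hspec {s | L.len s ≤ 1 + κ} (by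
    obtain ⟨C, hC⟩ := hT2 (1 + κ)
    exact ⟨C, fun s hs => hC s hs⟩)
  have h1 := grLe_commutator L κ hκ hG lam hlam H hN f φ hL T hT1 hpol hS
  have h2 := bg_derived L R₀ hT H hB f φ hL
  exact ⟨bg_between L H f φ hL h2 P hHP hPH, grLe_mono L lam ⁅H, H⁆ P hHP h1⟩

theorem grLe_loc {G : Type*} [Group G] (L : Len G) (lam : ℝ) (H P : Subgroup G)
    (hN : H.Normal) (hP : P.Normal) (hPH : P ≤ H)
    (hloc : ∀ R : ℝ, ∃ R' : ℝ, ∀ h ∈ Subgroup.closure {h : G | h ∈ H ∧ L.len h ≤ R},
        ∃ p ∈ P, L.len (p⁻¹ * h) ≤ R')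
    (hB : BG L H) (hS : GrLe L lam H) : BG L P ∧ GrLe L lam P := by
  obtain ⟨R, hR⟩ := hB
  obtain ⟨R', hR'⟩ := hloc R
  have hcob : ∀ h ∈ H, ∃ p ∈ P, L.len (p⁻¹ * h) ≤ R' := fun h hh => hR' h (hR hh)
  exact ⟨bg_of_cobounded L H P hPH R' hcob ⟨R, hR⟩, grLe_of_cobounded L lam H P hN hP R' hcob hS⟩

theorem grLe_bot {G : Type*} [Group G] (L : Len G) (κ : ℝ) (hκ : 0 ≤ κ) (hG : Geod L κ)
    (lam : ℝ) (hlam : 0 ≤ lam) (R₀ : ℝ) (hT : ¬ Trees L R₀) (N : Subgroup G) (hser : Ser L N)
    (hB : BG L N) (hS : GrLe L lam N) : GrLe L lam ⊥ := by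
  induction hser with
  | bot => exact hS
  | abel N P hN hP hPN hab _ ih =>
    obtain ⟨h1, h2⟩ := grLe_step L κ hκ hG lam hlam R₀ hT N P hN hPN hab hB hS
    exact ih h1 h2
  | loc N P hN hP hPN hloc _ ih =>
    obtain ⟨h1, h2⟩ := grLe_loc L lam N P hN hP hPN hloc hB hS
    exact ih h1 h2

theorem ser_of_solvable {G : Type*} [Group G] (L : Len G) (N : Subgroup G) (hN : N.Normal)
    (hsol : Group.IsSolvable ↥N) : Ser L N := by
  obtain ⟨d, hd⟩ := (Group.isSolvable_def _).1 hsol
  have h0 : (derivedSeries ↥N 0).map N.subtype = N := by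
    rw [derivedSeries_zero, ← MonoidHom.range_eq_map, N.range_subtype]
  have hsucc : ∀ i, (derivedSeries ↥N (i + 1)).map N.subtype =
      ⁅(derivedSeries ↥N i).map N.subtype, (derivedSeries ↥N i).map N.subtype⁆ := by
    intro i
    rw [derivedSeries_succ, Subgroup.map_commutator]
  have hnorm : ∀ i, ((derivedSeries ↥N i).map N.subtype).Normal := by
    intro i
    induction i with
    | zero =>
      rw [h0]
      exact hN
    | succ i ih =>
      rw [hsucc]
      exact Subgroup.commutator_normal _ _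
  have key : ∀ i ≤ d, Ser L ((derivedSeries ↥N (d - i)).map N.subtype) := by
    intro i
    induction i with
    | zero =>
      intro _
      rw [Nat.sub_zero, hd, Subgroup.map_bot]
      exact Ser.bot
    | succ i ih =>
      intro hi
      have h1 := ih (by omega)
      have h2 : d - i = (d - (i + 1)) + 1 := by omega
      rw [h2, hsucc] at h1
      exact Ser.abel _ _ (hnorm _) (Subgroup.commutator_normal _ _)
        (Subgroup.commutator_le_self _) le_rfl h1
  have h3 := key d le_rfl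
  rw [Nat.sub_self, h0] at h3
  exact h3

end Pool.Agent.H65.ST
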