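import Pool.Agent.H65.ST.Def

/-!
# WEI: a pseudo-norm on `ℤ` with finite covers is proper or bounded (Weil's lemma)

## Proof
Note `0 ≤ Q.q j` (from `0 = q 0 ≤ q j + q (-j) = 2 q j`) and `q (-j) = q j`.

1. (`*`) For all `ε > 0` and all `M` there is `j ≥ M` with `q j ≤ ε`. Indeed cover `{q ≤ R}` by
   `Q.cov R (ε / 2)`: by the pigeonhole principle infinitely many `j` in the infinite set
   `{j | q j ≤ R}` have the same centre `f` (`Set.Infinite.exists_... `, e.g.
   `Set.infinite_biUnion` style argument or `Set.Infinite.exists_ne_map_eq_of_mapsTo` for an infinite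
   subset; it is convenient to show that some fibre is infinite). Fix one of them, `j₀`; the
   differences `j - j₀` have `q ≤ ε` and are infinitely many, so some has absolute value `≥ M`;
   take it or its negative.
2. Put `R₁ = max R 1` and take `F₀` from `Q.cov R₁ (1 / 2)`. For every `f ∈ F₀` choose by (`*`) an
   integer `j' ≥ |f| + 1` with `q j' ≤ 1 / 2` and put `p_f = f + j' > 0`. Let `m` be a natural number
   which is at least all the `p_f`. So every `j` with `q j ≤ R₁` has an integer `p` with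
   `0 < p ≤ m` and `q (j - p) ≤ q (j - f) + q (j') ≤ 1 ≤ R₁`.
3. Let `g` be any integer. The set of `j : ℕ` with `q (j - g) ≤ R₁` is nonempty (by (`*`) take
   `j' ≥ |g|` with `q j' ≤ 1` and `j = g + j'`). Let `j` be its least element. If `j ≥ m`, take `p`
   for `j - g` by 2.; then `j - p ≥ 0` is in the set and is smaller, a contradiction. So `j < m` and
   `q g ≤ q (g - j) + q j ≤ R₁ + ∑ i < m, q i`.
-/

set_option autoImplicit false

namespace Pool.Agent.H65.ST

theorem wei_nonneg {A : Type*} [AddCommGroup A] (Q : PN A) (a : A) : 0 ≤ Q.q a := by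
  have h := Q.add a (-a)
  rw [add_neg_cancel, Q.zero, Q.neg] at h
  linarith

theorem wei_step (Q : PN ℤ) (R : ℝ) (hinf : {j : ℤ | Q.q j ≤ R}.Infinite) (ε : ℝ) (hε : 0 < ε)
    (M : ℕ) : ∃ j : ℤ, (M : ℤ) ≤ j ∧ Q.q j ≤ ε := by
  obtain ⟨F, hF⟩ := Q.cov R (ε / 2) (by linarith)
  have h1 : ∃ f ∈ F, {j : ℤ | Q.q (j - f) ≤ ε / 2}.Infinite := by
    by_contra hcon
    push Not at hcon
    apply hinf
    refine Set.Finite.subset (Set.Finite.biUnion F.finite_toSet hcon) ?_
    intro j hj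
    obtain ⟨f, hf, h⟩ := hF j hj
    exact Set.mem_biUnion (Finset.mem_coe.2 hf) h
  obtain ⟨f, -, hf⟩ := h1
  obtain ⟨j0, hj0⟩ := hf.nonempty
  have h2 : ∃ j ∈ {j : ℤ | Q.q (j - f) ≤ ε / 2}, j ∉ Set.Icc (j0 - M) (j0 + M) := by
    by_contra hcon
    push Not at hcon
    exact hf ((Set.finite_Icc (j0 - (M : ℤ)) (j0 + M)).subset hcon)
  obtain ⟨j, hj, hj2⟩ := h2
  have hj0' : Q.q (j0 - f) ≤ ε / 2 := hj0
  have hj' : Q.q (j - f) ≤ ε / 2 := hj
  have h3 : Q.q (j - j0) ≤ ε := by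
    have h := Q.add (j - f) (-(j0 - f))
    rw [Q.neg] at h
    have h4 : (j - f) + -(j0 - f) = j - j0 := by ring
    rw [h4] at h
    linarith
  rcases le_total (M : ℤ) (j - j0) with h | h
  · exact ⟨j - j0, h, h3⟩
  · refine ⟨j0 - j, ?_, ?_⟩
    · by_contra hlt
      push Not at hlt
      apply hj2
      constructor <;> linarith
    · have h5 : j0 - j = -(j - j0) := by ring
      rw [h5, Q.neg]
      exact h3

/-- If infinitely many integers have pseudo-norm at most `R`, the pseudo-norm is bounded. -/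
theorem weil (Q : PN ℤ) (R : ℝ) (hinf : {j : ℤ | Q.q j ≤ R}.Infinite) :
    ∃ B : ℝ, ∀ j : ℤ, Q.q j ≤ B := by
  classical
  have hstep := wei_step Q R hinf
  obtain ⟨F, hF⟩ := Q.cov (max R 1) (1 / 2) (by norm_num)
  have hch : ∀ f : ℤ, ∃ j : ℤ, ((f.natAbs + 1 : ℕ) : ℤ) ≤ j ∧ Q.q j ≤ 1 / 2 := fun f =>
    hstep (1 / 2) (by norm_num) (f.natAbs + 1)
  choose J hJ1 hJ2 using hch
  obtain ⟨m, hm⟩ : ∃ m : ℕ, ∀ f ∈ F, f + J f ≤ (m : ℤ) := by
    refine ⟨F.sup fun f => (f + J f).toNat, fun f hf => ?_⟩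
    have h1 : (f + J f).toNat ≤ F.sup fun f => (f + J f).toNat :=
      Finset.le_sup (f := fun f => (f + J f).toNat) hf
    exact (Int.self_le_toNat _).trans (by exact_mod_cast h1)
  have hp : ∀ j : ℤ, Q.q j ≤ max R 1 → ∃ p : ℤ, 0 < p ∧ p ≤ m ∧ Q.q (j - p) ≤ max R 1 := by
    intro j hj
    obtain ⟨f, hf, h⟩ := hF j hj
    refine ⟨f + J f, ?_, hm f hf, ?_⟩
    · have h2 := hJ1 f
      push_cast at h2
      have h3 : -f ≤ |f| := neg_le_abs f
      linarith
    · have h2 := Q.add (j - f) (-(J f))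
      rw [Q.neg] at h2
      have h3 : (j - f) + -(J f) = j - (f + J f) := by ring
      rw [h3] at h2
      have := hJ2 f
      have := le_max_right R 1
      linarith
  refine ⟨max R 1 + ∑ i ∈ Finset.range m, Q.q (i : ℤ), fun g => ?_⟩
  have hex : ∃ n : ℕ, Q.q ((n : ℤ) - g) ≤ max R 1 := by
    obtain ⟨j, hj1, hj2⟩ := hstep 1 one_pos g.natAbs
    have h2 : 0 ≤ g + j := by
      have h3 : -g ≤ |g| := neg_le_abs g
      push_cast at hj1
      linarith
    refine ⟨(g + j).toNat, ?_⟩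
    rw [Int.toNat_of_nonneg h2]
    have h3 : g + j - g = j := by ring
    rw [h3]
    exact hj2.trans (le_max_right _ _)
  obtain ⟨n, hn, hmin⟩ : ∃ n : ℕ, Q.q ((n : ℤ) - g) ≤ max R 1 ∧
      ∀ k < n, ¬ Q.q ((k : ℤ) - g) ≤ max R 1 :=
    ⟨Nat.find hex, Nat.find_spec hex, fun k hk => Nat.find_min hex hk⟩
  have hlt : n < m := by
    by_contra hge
    push Not at hge
    obtain ⟨p, hp0, hpm, hpq⟩ := hp _ hn
    have h1 : 0 ≤ (n : ℤ) - p := by
      have : (m : ℤ) ≤ n := by exact_mod_cast hge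
      linarith
    apply hmin ((n : ℤ) - p).toNat ?_ ?_
    · zify
      rw [Int.toNat_of_nonneg h1]
      linarith
    · rw [Int.toNat_of_nonneg h1]
      have h3 : (n : ℤ) - p - g = n - g - p := by ring
      rw [h3]
      exact hpq
  have h4 : Q.q g ≤ Q.q ((n : ℤ) - g) + Q.q (n : ℤ) := by
    have h := Q.add (-((n : ℤ) - g)) n
    rw [Q.neg] at h
    have h5 : -((n : ℤ) - g) + n = g := by ring
    rwa [h5] at h
  have h6 : Q.q (n : ℤ) ≤ ∑ i ∈ Finset.range m, Q.q (i : ℤ) :=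
    Finset.single_le_sum (f := fun i : ℕ => Q.q (i : ℤ)) (fun i _ => wei_nonneg Q _)
      (Finset.mem_range.2 hlt)
  linarith

end Pool.Agent.H65.ST
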